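import Mathlib

set_option autoImplicit false

namespace Pool.Agent.Cyclic

open Finset ArithmeticFunction

lemma sum_divisors_moebius (n : ℕ) : ∑ i ∈ n.divisors, (moebius i : ℤ) = if n = 1 then 1 else 0 := by
  have h := congrArg (fun f : ArithmeticFunction ℤ => f n) moebius_mul_coe_zeta
  simp only [coe_mul_zeta_apply] at h
  rw [h, one_apply]

lemma sum_moebius_between {k m : ℕ} (hm : Squarefree m) (hk : k ∣ m) :
    ∑ d ∈ m.divisors.filter (fun d => k ∣ d), (moebius d : ℤ) = if m = k then moebius k else 0 := by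
  obtain ⟨m', rfl⟩ := hk
  have hm0 : k * m' ≠ 0 := hm.ne_zero
  have hk0 : k ≠ 0 := left_ne_zero_of_mul hm0
  have hm'0 : m' ≠ 0 := right_ne_zero_of_mul hm0
  have hcop : Nat.Coprime k m' := (Nat.squarefree_mul_iff.1 hm).1
  have h1 : (k * m').divisors.filter (fun d => k ∣ d) = m'.divisors.image (fun d => k * d) := by
    ext d
    simp only [mem_filter, Nat.mem_divisors, mem_image]
    constructor
    · rintro ⟨⟨h2, -⟩, ⟨e, rfl⟩⟩
      exact ⟨e, ⟨Nat.dvd_of_mul_dvd_mul_left (Nat.pos_of_ne_zero hk0) h2, hm'0⟩, rfl⟩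
    · rintro ⟨e, ⟨h2, -⟩, rfl⟩
      exact ⟨⟨Nat.mul_dvd_mul_left k h2, hm0⟩, Nat.dvd_mul_right k e⟩
  rw [h1, Finset.sum_image (fun a _ b _ hab => Nat.eq_of_mul_eq_mul_left (Nat.pos_of_ne_zero hk0) hab)]
  have h2 : ∀ d ∈ m'.divisors, (moebius (k * d) : ℤ) = moebius k * moebius d := by
    intro d hd
    exact isMultiplicative_moebius.map_mul_of_coprime
      (Nat.Coprime.coprime_dvd_right (Nat.dvd_of_mem_divisors hd) hcop)
  rw [Finset.sum_congr rfl h2, ← Finset.mul_sum, sum_divisors_moebius]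
  by_cases h : m' = 1
  · simp [h]
  · have : ¬ (k * m' = k) := by
      intro h3
      apply h
      exact Nat.eq_of_mul_eq_mul_left (Nat.pos_of_ne_zero hk0) (by rw [h3, mul_one])
    simp [h, this]

section sieve

variable (p D : ℕ)

/-- the set of sieving moduli -/
def sD : Finset ℕ := (Icc 1 D).filter (fun d => Squarefree d ∧ Nat.Coprime d p)

lemma mem_sD {d : ℕ} : d ∈ sD p D ↔ (1 ≤ d ∧ d ≤ D) ∧ Squarefree d ∧ Nat.Coprime d p := by
  simp [sD]

lemma sD_dvd {d m : ℕ} (hm : m ∈ sD p D) (hd : d ∣ m) : d ∈ sD p D := by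
  rw [mem_sD] at hm ⊢
  have h1 : 0 < d := Nat.pos_of_dvd_of_pos hd (by omega)
  exact ⟨⟨h1, (Nat.le_of_dvd (by omega) hd).trans hm.1.2⟩, hm.2.1.squarefree_of_dvd hd,
    Nat.Coprime.coprime_dvd_left hd hm.2.2⟩

/-- the Selberg sum -/
noncomputable def sS : ℝ := ∑ m ∈ sD p D, 1 / (m.totient : ℝ)

/-- the Selberg weights -/
noncomputable def sL (d : ℕ) : ℝ :=
  (moebius d : ℝ) * d / sS p D * ∑ m ∈ (sD p D).filter (fun m => d ∣ m), 1 / (m.totient : ℝ)

lemma one_mem_sD (hD : 1 ≤ D) : 1 ∈ sD p D := by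
  rw [mem_sD]
  exact ⟨⟨le_rfl, hD⟩, squarefree_one, Nat.coprime_one_left p⟩

lemma sS_pos (hD : 1 ≤ D) : 0 < sS p D := by
  unfold sS
  refine Finset.sum_pos (fun m hm => ?_) ⟨1, one_mem_sD p D hD⟩
  have : 0 < m.totient := Nat.totient_pos.2 (by rw [mem_sD] at hm; omega)
  positivity

lemma sL_one (hD : 1 ≤ D) : sL p D 1 = 1 := by
  unfold sL
  have h1 : (sD p D).filter (fun m => 1 ∣ m) = sD p D := by
    apply Finset.filter_true_of_mem
    intro m _
    exact one_dvd m
  rw [h1]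
  have : ∑ m ∈ sD p D, 1 / (m.totient : ℝ) = sS p D := rfl
  rw [this]
  have h2 := (sS_pos p D hD).ne'
  simp
  field_simp

lemma abs_sL_le (hD : 1 ≤ D) (d : ℕ) : |sL p D d| ≤ d := by
  unfold sL
  have hS := sS_pos p D hD
  have h1 : 0 ≤ ∑ m ∈ (sD p D).filter (fun m => d ∣ m), 1 / (m.totient : ℝ) :=
    Finset.sum_nonneg fun _ _ => by positivity
  have h2 : ∑ m ∈ (sD p D).filter (fun m => d ∣ m), 1 / (m.totient : ℝ) ≤ sS p D := by
    unfold sS
    exact Finset.sum_le_sum_of_subset_of_nonneg (Finset.filter_subset _ _)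
      (fun _ _ _ => by positivity)
  rw [abs_mul, abs_div, abs_mul, abs_of_pos hS, abs_of_nonneg h1, Nat.abs_cast]
  have h3 : |(moebius d : ℝ)| ≤ 1 := by
    have := abs_moebius_le_one (n := d)
    exact_mod_cast this
  calc |(moebius d : ℝ)| * d / sS p D * ∑ m ∈ (sD p D).filter (fun m => d ∣ m), 1 / (m.totient : ℝ)
      ≤ 1 * d / sS p D * sS p D := by gcongr
    _ = d := by field_simp

/-- the inner sums -/
lemma sU_eq {k : ℕ} (hk : k ∈ sD p D) :
    ∑ d ∈ (sD p D).filter (fun d => k ∣ d), sL p D d / d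
      = (moebius k : ℝ) / (sS p D * k.totient) := by
  have h1 : ∀ d ∈ (sD p D).filter (fun d => k ∣ d), sL p D d / d
      = ∑ m ∈ sD p D, if d ∣ m then (moebius d : ℝ) / sS p D * (1 / (m.totient : ℝ)) else 0 := by
    intro d hd
    have hd0 : (d : ℝ) ≠ 0 := by
      have := (mem_sD p D).1 (Finset.mem_filter.1 hd).1
      exact_mod_cast (by omega : d ≠ 0)
    unfold sL
    rw [← Finset.sum_filter, ← Finset.mul_sum]
    field_simp
  rw [Finset.sum_congr rfl h1, Finset.sum_comm]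
  have h2 : ∀ m ∈ sD p D, ∑ d ∈ (sD p D).filter (fun d => k ∣ d),
      (if d ∣ m then (moebius d : ℝ) / sS p D * (1 / (m.totient : ℝ)) else 0)
      = if m = k then (moebius k : ℝ) / sS p D * (1 / (m.totient : ℝ)) else 0 := by
    intro m hm
    have hm1 := (mem_sD p D).1 hm
    rw [← Finset.sum_filter, Finset.filter_filter]
    by_cases hkm : k ∣ m
    · have h3 : (sD p D).filter (fun d => k ∣ d ∧ d ∣ m) = m.divisors.filter (fun d => k ∣ d) := by
        ext d
        simp only [mem_filter, Nat.mem_divisors]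
        constructor
        · rintro ⟨-, h4, h5⟩
          exact ⟨⟨h5, by omega⟩, h4⟩
        · rintro ⟨⟨h5, -⟩, h4⟩
          exact ⟨sD_dvd p D hm h5, h4, h5⟩
      rw [h3, ← Finset.sum_mul, ← Finset.sum_div]
      have h4 := sum_moebius_between hm1.2.1 hkm
      have h5 : ∑ d ∈ m.divisors.filter (fun d => k ∣ d), (moebius d : ℝ)
          = if m = k then (moebius k : ℝ) else 0 := by
        have := congrArg (fun t : ℤ => (t : ℝ)) h4
        push_cast at this
        exact this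
      rw [h5]
      split_ifs <;> simp
    · have h3 : (sD p D).filter (fun d => k ∣ d ∧ d ∣ m) = ∅ := by
        apply Finset.filter_false_of_mem
        rintro d - ⟨h4, h5⟩
        exact hkm (h4.trans h5)
      rw [h3, Finset.sum_empty, if_neg]
      rintro rfl
      exact hkm dvd_rfl
  rw [Finset.sum_congr rfl h2, Finset.sum_ite_eq' (sD p D) k, if_pos hk]
  have : (k.totient : ℝ) ≠ 0 := by
    have : 0 < k.totient := Nat.totient_pos.2 (by rw [mem_sD] at hk; omega)
    positivity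
  by_cases hS : sS p D = 0
  · simp [hS]
  · field_simp

/-- The main term of Selberg's sieve. -/
lemma selberg_main (hD : 1 ≤ D) :
    ∑ d ∈ sD p D, ∑ e ∈ sD p D, sL p D d * sL p D e / (Nat.lcm d e : ℝ) = 1 / sS p D := by
  have hS := (sS_pos p D hD).ne'
  have h1 : ∀ d ∈ sD p D, ∀ e ∈ sD p D, sL p D d * sL p D e / (Nat.lcm d e : ℝ)
      = ∑ k ∈ sD p D, if k ∣ d then (if k ∣ e then
          (k.totient : ℝ) * (sL p D d / d) * (sL p D e / e) else 0) else 0 := by
    intro d hd e he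
    have hd1 := (mem_sD p D).1 hd
    have he1 := (mem_sD p D).1 he
    have hd0 : (d : ℝ) ≠ 0 := by exact_mod_cast (by omega : d ≠ 0)
    have he0 : (e : ℝ) ≠ 0 := by exact_mod_cast (by omega : e ≠ 0)
    have h2 : ∑ k ∈ sD p D, (if k ∣ d then (if k ∣ e then
          (k.totient : ℝ) * (sL p D d / d) * (sL p D e / e) else 0) else 0)
        = ∑ k ∈ (Nat.gcd d e).divisors, (k.totient : ℝ) * (sL p D d / d) * (sL p D e / e) := by
      have h3 : (Nat.gcd d e).divisors = (sD p D).filter (fun k => k ∣ d ∧ k ∣ e) := by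
        ext k
        simp only [mem_filter, Nat.mem_divisors]
        constructor
        · rintro ⟨h4, -⟩
          have h5 := Nat.dvd_gcd_iff.1 h4
          exact ⟨sD_dvd p D hd h5.1, h5⟩
        · rintro ⟨-, h4, h5⟩
          exact ⟨Nat.dvd_gcd h4 h5, Nat.gcd_ne_zero_left (by omega)⟩
      rw [h3, Finset.sum_filter]
      refine Finset.sum_congr rfl fun k _ => ?_
      by_cases h4 : k ∣ d <;> by_cases h5 : k ∣ e <;> simp [h4, h5]
    rw [h2, ← Finset.sum_mul, ← Finset.sum_mul]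
    have h6 : ∑ k ∈ (Nat.gcd d e).divisors, (k.totient : ℝ) = (Nat.gcd d e : ℝ) := by
      have := Nat.sum_totient (Nat.gcd d e)
      exact_mod_cast this
    rw [h6]
    have h7 : (Nat.gcd d e : ℝ) * (Nat.lcm d e : ℝ) = d * e := by
      exact_mod_cast Nat.gcd_mul_lcm d e
    have h8 : (Nat.lcm d e : ℝ) ≠ 0 := by
      exact_mod_cast Nat.lcm_ne_zero (by omega) (by omega)
    field_simp
    linear_combination (-(sL p D d * sL p D e)) * h7
  rw [Finset.sum_congr rfl fun d hd => Finset.sum_congr rfl fun e he => h1 d hd e he]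
  have h2 : ∑ d ∈ sD p D, ∑ e ∈ sD p D, ∑ k ∈ sD p D, (if k ∣ d then (if k ∣ e then
          (k.totient : ℝ) * (sL p D d / d) * (sL p D e / e) else 0) else 0)
      = ∑ k ∈ sD p D, (k.totient : ℝ) * (∑ d ∈ (sD p D).filter (fun d => k ∣ d), sL p D d / d) ^ 2 := by
    have h3 : ∑ d ∈ sD p D, ∑ e ∈ sD p D, ∑ k ∈ sD p D, (if k ∣ d then (if k ∣ e then
          (k.totient : ℝ) * (sL p D d / d) * (sL p D e / e) else 0) else 0)
        = ∑ k ∈ sD p D, ∑ d ∈ sD p D, ∑ e ∈ sD p D, (if k ∣ d then (if k ∣ e then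
          (k.totient : ℝ) * (sL p D d / d) * (sL p D e / e) else 0) else 0) := by
      rw [Finset.sum_congr rfl fun d _ => Finset.sum_comm]
      rw [Finset.sum_comm]
    rw [h3]
    refine Finset.sum_congr rfl fun k _ => ?_
    rw [sq, Finset.sum_filter, Finset.sum_mul_sum, Finset.mul_sum]
    refine Finset.sum_congr rfl fun d _ => ?_
    rw [Finset.mul_sum]
    refine Finset.sum_congr rfl fun e _ => ?_
    by_cases h4 : k ∣ d <;> by_cases h5 : k ∣ e <;> simp [h4, h5]
    ring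
  rw [h2]
  have h3 : ∀ k ∈ sD p D, (k.totient : ℝ) *
      (∑ d ∈ (sD p D).filter (fun d => k ∣ d), sL p D d / d) ^ 2
      = 1 / sS p D ^ 2 * (1 / (k.totient : ℝ)) := by
    intro k hk
    rw [sU_eq p D hk]
    have hk1 := (mem_sD p D).1 hk
    have h4 : (k.totient : ℝ) ≠ 0 := by
      have : 0 < k.totient := Nat.totient_pos.2 (by omega)
      positivity
    have h5 : (moebius k : ℝ) ^ 2 = 1 := by
      have := moebius_sq_eq_one_of_squarefree hk1.2.1
      exact_mod_cast this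
    rw [div_pow, h5]
    field_simp
  rw [Finset.sum_congr rfl h3, ← Finset.mul_sum]
  have : ∑ i ∈ sD p D, 1 / (i.totient : ℝ) = sS p D := rfl
  rw [this]
  field_simp

end sieve

/-- counting a residue class in an interval -/
lemma count_class (X Y r v : ℕ) (hr : 0 < r) :
    |(((Ioc X (X + Y)).filter (fun j => j ≡ v [MOD r])).card : ℝ) - Y / r| ≤ 1 := by
  have h1 := Nat.Ioc_filter_modEq_card X (X + Y) hr v
  have hr' : (0 : ℚ) < r := by exact_mod_cast hr
  set A : ℤ := ⌊(((X + Y : ℕ) : ℚ) - v) / r⌋ with hA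
  set B : ℤ := ⌊((X : ℚ) - v) / r⌋ with hB
  have h2 : (A : ℚ) ≤ (((X + Y : ℕ) : ℚ) - v) / r := Int.floor_le _
  have h3 : (((X + Y : ℕ) : ℚ) - v) / r < A + 1 := Int.lt_floor_add_one _
  have h4 : (B : ℚ) ≤ ((X : ℚ) - v) / r := Int.floor_le _
  have h5 : ((X : ℚ) - v) / r < B + 1 := Int.lt_floor_add_one _
  have h6 : (((X + Y : ℕ) : ℚ) - v) / r - ((X : ℚ) - v) / r = Y / r := by
    push_cast; field_simp; ring
  have hAB : B ≤ A := by
    apply Int.floor_le_floor
    apply div_le_div_of_nonneg_right _ hr'.le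
    push_cast
    have : (0 : ℚ) ≤ Y := Nat.cast_nonneg Y
    linarith
  rw [max_eq_left (by omega)] at h1
  have h7 : ((((Ioc X (X + Y)).filter (fun j => j ≡ v [MOD r])).card : ℤ) : ℚ) = (A : ℚ) - B := by
    rw [h1]; push_cast; ring
  have h8 : |((((Ioc X (X + Y)).filter (fun j => j ≡ v [MOD r])).card : ℤ) : ℚ) - Y / r| ≤ 1 := by
    rw [h7, abs_le]
    constructor <;> linarith
  have h9 : |((((((Ioc X (X + Y)).filter (fun j => j ≡ v [MOD r])).card : ℤ) : ℚ) - Y / r : ℚ) : ℝ)|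
      ≤ 1 := by exact_mod_cast h8
  push_cast at h9
  exact h9

/-- counting multiples of `r` among the values `p * j + 1` -/
lemma count_dvd (p X Y r : ℕ) (hr : 0 < r) (hcop : Nat.Coprime r p) :
    |(((Ioc X (X + Y)).filter (fun j => r ∣ p * j + 1)).card : ℝ) - Y / r| ≤ 1 := by
  obtain ⟨v, hv⟩ : ∃ v : ℕ, r ∣ p * v + 1 := by
    obtain ⟨u, -, hu⟩ := Nat.exists_mul_mod_eq_of_coprime (k := r) (n := p) (r - 1) hcop.symm hr.ne'
    refine ⟨u, ?_⟩
    rw [Nat.mod_eq_of_lt (by omega : r - 1 < r)] at hu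
    rw [Nat.dvd_iff_mod_eq_zero, Nat.add_mod, hu]
    rcases Nat.eq_or_lt_of_le (Nat.one_le_iff_ne_zero.2 hr.ne') with h | h
    · rw [← h]
    · rw [Nat.mod_eq_of_lt h, Nat.sub_add_cancel h.le, Nat.mod_self]
  have h1 : ∀ j, r ∣ p * j + 1 ↔ j ≡ v [MOD r] := by
    intro j
    constructor
    · intro h
      have h2 : p * j + 1 ≡ p * v + 1 [MOD r] := by
        rw [Nat.ModEq, Nat.mod_eq_zero_of_dvd h, Nat.mod_eq_zero_of_dvd hv]
      have h3 : p * j ≡ p * v [MOD r] := Nat.ModEq.add_right_cancel' 1 h2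
      exact Nat.ModEq.cancel_left_of_coprime hcop h3
    · intro h
      have h2 : p * j + 1 ≡ p * v + 1 [MOD r] := (h.mul_left p).add_right 1
      rw [Nat.dvd_iff_mod_eq_zero, h2, Nat.mod_eq_zero_of_dvd hv]
  simp_rw [h1]
  exact count_class X Y r v hr

/-- `p * j + 1` has no prime factor `≤ D` (except possibly those dividing `p`) -/
def Rough (p D j : ℕ) : Prop := ∀ l : ℕ, l.Prime → l ≤ D → l.Coprime p → ¬ l ∣ p * j + 1

open Classical in
/-- **Selberg's upper bound sieve** for the progression `p * j + 1`. -/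
theorem selberg_ap (p D X Y : ℕ) (hD : 1 ≤ D) :
    (((Ioc X (X + Y)).filter (fun j => Rough p D j)).card : ℝ)
      ≤ Y / sS p D + (D : ℝ) ^ 4 := by
  set J := Ioc X (X + Y) with hJ
  set F : ℕ → ℝ := fun j => ∑ d ∈ sD p D, if d ∣ p * j + 1 then sL p D d else 0 with hF
  have h1 : ((J.filter (fun j => Rough p D j)).card : ℝ) ≤ ∑ j ∈ J, F j ^ 2 := by
    have h2 : ∀ j ∈ J.filter (fun j => Rough p D j), F j ^ 2 = 1 := by
      intro j hj
      have hj2 := (Finset.mem_filter.1 hj).2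
      have h3 : F j = 1 := by
        rw [hF]
        simp only
        rw [Finset.sum_eq_single 1]
        · simp [sL_one p D hD]
        · intro d hd hd1
          rw [if_neg]
          intro hdv
          have hd2 := (mem_sD p D).1 hd
          obtain ⟨l, hl, hld⟩ := Nat.exists_prime_and_dvd hd1
          exact hj2 l hl ((Nat.le_of_dvd (by omega) hld).trans hd2.1.2)
            (Nat.Coprime.coprime_dvd_left hld hd2.2.2) (hld.trans hdv)
        · intro h
          exact absurd (one_mem_sD p D hD) h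
      rw [h3]; norm_num
    calc ((J.filter (fun j => Rough p D j)).card : ℝ)
        = ∑ j ∈ J.filter (fun j => Rough p D j), F j ^ 2 := by
          rw [Finset.sum_congr rfl h2]; simp
      _ ≤ ∑ j ∈ J, F j ^ 2 :=
          Finset.sum_le_sum_of_subset_of_nonneg (Finset.filter_subset _ _)
            (fun _ _ _ => sq_nonneg _)
  refine h1.trans ?_
  have h2 : ∑ j ∈ J, F j ^ 2 = ∑ d ∈ sD p D, ∑ e ∈ sD p D, sL p D d * sL p D e *
      ((J.filter (fun j => Nat.lcm d e ∣ p * j + 1)).card : ℝ) := by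
    have h3 : ∀ j ∈ J, F j ^ 2 = ∑ d ∈ sD p D, ∑ e ∈ sD p D,
        if Nat.lcm d e ∣ p * j + 1 then sL p D d * sL p D e else 0 := by
      intro j _
      rw [hF, sq, Finset.sum_mul_sum]
      refine Finset.sum_congr rfl fun d _ => Finset.sum_congr rfl fun e _ => ?_
      by_cases hd : d ∣ p * j + 1 <;> by_cases he : e ∣ p * j + 1
      · rw [if_pos hd, if_pos he, if_pos (Nat.lcm_dvd hd he)]
      · rw [if_pos hd, if_neg he, if_neg, mul_zero]
        exact fun h => he ((Nat.dvd_lcm_right d e).trans h)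
      · rw [if_neg hd, if_pos he, if_neg, zero_mul]
        exact fun h => hd ((Nat.dvd_lcm_left d e).trans h)
      · rw [if_neg hd, if_neg he, if_neg, zero_mul]
        exact fun h => hd ((Nat.dvd_lcm_left d e).trans h)
    rw [Finset.sum_congr rfl h3, Finset.sum_comm]
    refine Finset.sum_congr rfl fun d _ => ?_
    rw [Finset.sum_comm]
    refine Finset.sum_congr rfl fun e _ => ?_
    rw [← Finset.sum_filter, Finset.sum_const, nsmul_eq_mul, mul_comm]
  rw [h2]
  have h3 : ∀ d ∈ sD p D, ∀ e ∈ sD p D, sL p D d * sL p D e *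
      ((J.filter (fun j => Nat.lcm d e ∣ p * j + 1)).card : ℝ)
      ≤ Y * (sL p D d * sL p D e / (Nat.lcm d e : ℝ)) + d * e := by
    intro d hd e he
    have hd1 := (mem_sD p D).1 hd
    have he1 := (mem_sD p D).1 he
    have hl0 : 0 < Nat.lcm d e := Nat.lcm_pos (by omega) (by omega)
    have hcop : Nat.Coprime (Nat.lcm d e) p := Nat.Coprime.coprime_dvd_left (Nat.lcm_dvd_mul d e) (Nat.Coprime.mul_left hd1.2.2 he1.2.2)
    have h4 := count_dvd p X Y (Nat.lcm d e) hl0 hcop
    have h5 : sL p D d * sL p D e *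
        (((J.filter (fun j => Nat.lcm d e ∣ p * j + 1)).card : ℝ) - Y / (Nat.lcm d e : ℝ))
        ≤ d * e := by
      refine (le_abs_self _).trans ?_
      rw [abs_mul, abs_mul]
      have h6 := abs_sL_le p D hD d
      have h7 := abs_sL_le p D hD e
      calc |sL p D d| * |sL p D e| * _ ≤ (d * e) * 1 := by
            gcongr
        _ = d * e := by ring
    have h6 : sL p D d * sL p D e *
        ((J.filter (fun j => Nat.lcm d e ∣ p * j + 1)).card : ℝ)
        = Y * (sL p D d * sL p D e / (Nat.lcm d e : ℝ)) + sL p D d * sL p D e *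
        (((J.filter (fun j => Nat.lcm d e ∣ p * j + 1)).card : ℝ) - Y / (Nat.lcm d e : ℝ)) := by
      ring
    rw [h6]
    linarith
  refine (Finset.sum_le_sum fun d hd => Finset.sum_le_sum fun e he => h3 d hd e he).trans ?_
  simp_rw [Finset.sum_add_distrib, ← Finset.mul_sum]
  rw [selberg_main p D hD]
  have h4 : ∑ d ∈ sD p D, (d : ℝ) ≤ (D : ℝ) ^ 2 := by
    calc ∑ d ∈ sD p D, (d : ℝ) ≤ ∑ d ∈ sD p D, (D : ℝ) := by
          refine Finset.sum_le_sum fun d hd => ?_
          exact_mod_cast ((mem_sD p D).1 hd).1.2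
      _ = (sD p D).card * (D : ℝ) := by rw [Finset.sum_const, nsmul_eq_mul]
      _ ≤ (D : ℝ) * D := by
          gcongr
          have : (sD p D).card ≤ (Icc 1 D).card := Finset.card_filter_le _ _
          simpa using this
      _ = (D : ℝ) ^ 2 := by ring
  have h5 : ∑ d ∈ sD p D, (d : ℝ) * ∑ e ∈ sD p D, (e : ℝ) ≤ (D : ℝ) ^ 4 := by
    rw [← Finset.sum_mul]
    have h6 : 0 ≤ ∑ d ∈ sD p D, (d : ℝ) := Finset.sum_nonneg fun _ _ => Nat.cast_nonneg _
    calc (∑ d ∈ sD p D, (d : ℝ)) * ∑ e ∈ sD p D, (e : ℝ) ≤ (D : ℝ) ^ 2 * (D : ℝ) ^ 2 := by gcongr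
      _ = (D : ℝ) ^ 4 := by ring
  rw [mul_one_div]
  linarith

end Pool.Agent.Cyclic
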