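import Mathlib
import Pool.Agent.Cyclic.Selberg

set_option autoImplicit false

namespace Pool.Agent.Cyclic

open Finset

/-- number of residue classes mod `l` met by `S` -/
def nu (S : Finset ℕ) (l : ℕ) : ℕ := (S.image (fun h => h % l)).card

/-- none of the `m + h` is divisible by a prime of `s` -/
def GoodS (S s : Finset ℕ) (m : ℕ) : Prop := ∀ l ∈ s, ∀ h ∈ S, ¬ l ∣ m + h

lemma dvd_mod_add_iff (l P m h : ℕ) (hlP : l ∣ P) : l ∣ m % P + h ↔ l ∣ m + h := by
  have h1 : (m % P) % l = m % l := Nat.mod_mod_of_dvd m hlP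
  rw [Nat.dvd_iff_mod_eq_zero, Nat.dvd_iff_mod_eq_zero, Nat.add_mod (m % P), h1, ← Nat.add_mod]

open Classical in
lemma card_good_prime (S : Finset ℕ) (l : ℕ) (hl : 0 < l) :
    (((range l).filter (fun a => ∀ h ∈ S, ¬ l ∣ a + h)).card : ℝ) = l - nu S l := by
  have h1 := Finset.card_filter_add_card_filter_not (s := range l) (fun a => ∀ h ∈ S, ¬ l ∣ a + h)
  rw [card_range] at h1
  have h2 : ((range l).filter (fun a => ¬ ∀ h ∈ S, ¬ l ∣ a + h)).card = nu S l := by
    unfold nu
    have himg : (range l).filter (fun a => ¬ ∀ h ∈ S, ¬ l ∣ a + h)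
        = (S.image (fun h => h % l)).image (fun x => (l - x) % l) := by
      ext a
      simp only [mem_filter, mem_range, mem_image, exists_exists_and_eq_and]
      constructor
      · rintro ⟨ha, hh⟩
        push Not at hh
        obtain ⟨h, hS, hd⟩ := hh
        refine ⟨h, hS, ?_⟩
        have h3 : h % l < l := Nat.mod_lt _ hl
        have h4 : l ∣ a + h % l := by
          rw [Nat.dvd_iff_mod_eq_zero] at hd ⊢
          rw [Nat.add_mod, Nat.mod_mod, ← Nat.add_mod]
          exact hd
        obtain ⟨c, hc⟩ := h4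
        rcases Nat.eq_zero_or_pos (h % l) with h5 | h5
        · rw [h5, Nat.sub_zero, Nat.mod_self]
          rw [h5, add_zero] at hc
          rcases Nat.eq_zero_or_pos c with h6 | h6
          · rw [h6, mul_zero] at hc; exact hc.symm
          · have : l ≤ l * c := Nat.le_mul_of_pos_right l h6
            omega
        · have h6 : c = 1 := by
            have h7 : 0 < c := by
              rcases Nat.eq_zero_or_pos c with h8 | h8
              · rw [h8, mul_zero] at hc; omega
              · exact h8
            have h8 : c < 2 := by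
              by_contra h9
              push Not at h9
              have : l * 2 ≤ l * c := Nat.mul_le_mul_left l h9
              omega
            omega
          rw [h6, mul_one] at hc
          rw [Nat.mod_eq_of_lt (by omega)]
          omega
      · rintro ⟨h, hS, ha⟩
        have h3 : h % l < l := Nat.mod_lt _ hl
        refine ⟨by rw [← ha]; exact Nat.mod_lt _ hl, ?_⟩
        intro hh
        apply hh h hS
        rw [← ha, dvd_mod_add_iff l l _ h dvd_rfl]
        have h4 := Nat.div_add_mod h l
        refine ⟨h / l + 1, ?_⟩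
        rw [mul_add, mul_one]
        omega
    rw [himg, Finset.card_image_of_injOn]
    intro x hx y hy hxy
    simp only [coe_image, Set.mem_image, mem_coe] at hx hy
    obtain ⟨u, -, rfl⟩ := hx
    obtain ⟨v, -, rfl⟩ := hy
    have h3 : u % l < l := Nat.mod_lt _ hl
    have h4 : v % l < l := Nat.mod_lt _ hl
    simp only at hxy
    rcases Nat.eq_zero_or_pos (u % l) with h5 | h5 <;> rcases Nat.eq_zero_or_pos (v % l) with h6 | h6
    · rw [h5, h6]
    · rw [h5, Nat.sub_zero, Nat.mod_self, Nat.mod_eq_of_lt (show l - v % l < l by omega)] at hxy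
      omega
    · rw [h6, Nat.sub_zero, Nat.mod_self, Nat.mod_eq_of_lt (show l - u % l < l by omega)] at hxy
      omega
    · rw [Nat.mod_eq_of_lt (show l - u % l < l by omega),
        Nat.mod_eq_of_lt (show l - v % l < l by omega)] at hxy
      omega
  rw [h2] at h1
  have h3 : (((range l).filter (fun a => ∀ h ∈ S, ¬ l ∣ a + h)).card : ℝ) + nu S l = l := by
    exact_mod_cast h1
  linarith

open Classical in
/-- CRT count over one period -/
lemma card_good_period (S s : Finset ℕ) (hs : ∀ l ∈ s, l.Prime) :
    (((range (∏ l ∈ s, l)).filter (fun m => GoodS S s m)).card : ℝ) = ∏ l ∈ s, ((l : ℝ) - nu S l) := by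
  induction s using Finset.induction_on with
  | empty =>
    simp [GoodS]
  | insert l s hl ih =>
    have hlp : l.Prime := hs l (mem_insert_self _ _)
    have hs' : ∀ l ∈ s, l.Prime := fun q hq => hs q (mem_insert_of_mem hq)
    rw [Finset.prod_insert hl, Finset.prod_insert hl, ← ih hs', ← card_good_prime S l hlp.pos]
    set P := ∏ l ∈ s, l with hP
    have hPpos : 0 < P := Finset.prod_pos fun q hq => (hs' q hq).pos
    have hcop : Nat.Coprime l P := by
      rw [hP]
      apply Nat.Coprime.prod_right
      intro q hq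
      rw [Nat.coprime_primes hlp (hs' q hq)]
      rintro rfl
      exact hl hq
    rw [← Nat.cast_mul, ← Finset.card_product]
    congr 1
    apply Finset.card_nbij' (fun m => (m % l, m % P))
      (fun ab => (Nat.chineseRemainder hcop ab.1 ab.2 : ℕ))
    · intro m hm
      rw [mem_coe, mem_filter, mem_range] at hm
      rw [mem_coe, mem_product, mem_filter, mem_filter, mem_range, mem_range]
      refine ⟨⟨Nat.mod_lt _ hlp.pos, ?_⟩, Nat.mod_lt _ hPpos, ?_⟩
      · intro h hh hd
        exact hm.2 l (mem_insert_self _ _) h hh ((dvd_mod_add_iff l l m h dvd_rfl).1 hd)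
      · intro q hq h hh hd
        exact hm.2 q (mem_insert_of_mem hq) h hh
          ((dvd_mod_add_iff q P m h (Finset.dvd_prod_of_mem _ hq)).1 hd)
    · rintro ⟨a, b⟩ hab
      rw [mem_coe, mem_product, mem_filter, mem_filter, mem_range, mem_range] at hab
      obtain ⟨⟨ha, ha2⟩, hb, hb2⟩ := hab
      simp only at ha ha2 hb hb2
      rw [mem_coe, mem_filter, mem_range]
      have h1 := (Nat.chineseRemainder hcop a b).2
      have h2 := Nat.chineseRemainder_lt_mul hcop a b hlp.pos.ne' hPpos.ne'
      refine ⟨h2, ?_⟩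
      intro q hq h hh hd
      rcases Finset.mem_insert.1 hq with rfl | hq
      · apply ha2 h hh
        rw [← dvd_mod_add_iff q q _ h dvd_rfl] at hd
        have h3 : (Nat.chineseRemainder hcop a b : ℕ) % q = a % q := h1.1
        simp only at hd
        rw [h3, Nat.mod_eq_of_lt ha] at hd
        exact hd
      · apply hb2 q hq h hh
        rw [← dvd_mod_add_iff q P _ h (Finset.dvd_prod_of_mem _ hq)] at hd
        have h3 : (Nat.chineseRemainder hcop a b : ℕ) % P = b % P := h1.2
        simp only at hd
        rw [h3, Nat.mod_eq_of_lt hb] at hd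
        exact hd
    · intro m hm
      rw [mem_coe, mem_filter, mem_range] at hm
      simp only
      have h1 := (Nat.chineseRemainder hcop (m % l) (m % P)).2
      have h2 := Nat.chineseRemainder_lt_mul hcop (m % l) (m % P) hlp.pos.ne' hPpos.ne'
      have h3 : (Nat.chineseRemainder hcop (m % l) (m % P) : ℕ) ≡ m [MOD l * P] := by
        rw [← Nat.modEq_and_modEq_iff_modEq_mul hcop]
        exact ⟨h1.1.trans (Nat.mod_modEq _ _), h1.2.trans (Nat.mod_modEq _ _)⟩
      have h4 : (Nat.chineseRemainder hcop (m % l) (m % P) : ℕ) % (l * P) = m % (l * P) := h3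
      rw [Nat.mod_eq_of_lt h2, Nat.mod_eq_of_lt hm.1] at h4
      exact h4
    · rintro ⟨a, b⟩ hab
      rw [mem_coe, mem_product, mem_filter, mem_filter, mem_range, mem_range] at hab
      obtain ⟨⟨ha, ha2⟩, hb, hb2⟩ := hab
      simp only at ha ha2 hb hb2
      have h1 := (Nat.chineseRemainder hcop a b).2
      have h3 : (Nat.chineseRemainder hcop a b : ℕ) % l = a % l := h1.1
      have h4 : (Nat.chineseRemainder hcop a b : ℕ) % P = b % P := h1.2
      simp only
      rw [h3, h4, Nat.mod_eq_of_lt ha, Nat.mod_eq_of_lt hb]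

/-- the primes up to `y` -/
def pr (y : ℕ) : Finset ℕ := (range (y + 1)).filter Nat.Prime

lemma mem_pr {y l : ℕ} : l ∈ pr y ↔ l ≤ y ∧ l.Prime := by
  unfold pr
  rw [mem_filter, mem_range, Nat.lt_succ_iff]

/-- local density product -/
noncomputable def del (S : Finset ℕ) (y : ℕ) : ℝ := ∏ l ∈ pr y, (1 - (nu S l : ℝ) / l)

lemma prod_pr_le (y : ℕ) : ∏ l ∈ pr y, l ≤ 4 ^ y := primorial_le_four_pow y

open Classical in
/-- the basic sieve count -/
theorem count_good (S : Finset ℕ) (y X Y : ℕ) :
    |(((Ioc X (X + Y)).filter (fun m => GoodS S (pr y) m)).card : ℝ) - Y * del S y| ≤ 4 ^ y := by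
  have hs : ∀ l ∈ pr y, l.Prime := fun l hl => (mem_pr.1 hl).2
  set P := ∏ l ∈ pr y, l with hP
  have hPpos : 0 < P := Finset.prod_pos fun q hq => (hs q hq).pos
  have hP4 : (P : ℝ) ≤ 4 ^ y := by exact_mod_cast prod_pr_le y
  set G := (range P).filter (fun m => GoodS S (pr y) m) with hG
  have hGc : (G.card : ℝ) = ∏ l ∈ pr y, ((l : ℝ) - nu S l) := card_good_period S (pr y) hs
  have hdel : del S y = G.card / P := by
    rw [hGc, hP]
    unfold del
    push_cast
    rw [← Finset.prod_div_distrib]
    apply Finset.prod_congr rfl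
    intro l hl
    have : (0 : ℝ) < l := by exact_mod_cast (hs l hl).pos
    field_simp
  have hfib : ((Ioc X (X + Y)).filter (fun m => GoodS S (pr y) m)).card
      = ∑ r ∈ G, ((Ioc X (X + Y)).filter (fun m => m ≡ r [MOD P])).card := by
    rw [Finset.card_eq_sum_card_fiberwise (f := fun m => m % P) (t := G)]
    · apply Finset.sum_congr rfl
      intro r hr
      rw [hG, mem_filter, mem_range] at hr
      congr 1
      ext m
      simp only [mem_filter]
      constructor
      · rintro ⟨⟨h1, h2⟩, h3⟩
        refine ⟨h1, ?_⟩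
        show m % P = r % P
        rw [h3, Nat.mod_eq_of_lt hr.1]
      · rintro ⟨h1, h2⟩
        have h3 : m % P = r := by
          have : m % P = r % P := h2
          rw [this, Nat.mod_eq_of_lt hr.1]
        refine ⟨⟨h1, ?_⟩, h3⟩
        intro l hl h hh hd
        apply hr.2 l hl h hh
        rw [← h3, dvd_mod_add_iff l P m h (Finset.dvd_prod_of_mem _ hl)]
        exact hd
    · intro m hm
      rw [mem_coe, mem_filter] at hm
      rw [mem_coe, hG, mem_filter, mem_range]
      refine ⟨Nat.mod_lt _ hPpos, ?_⟩
      intro l hl h hh hd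
      exact hm.2 l hl h hh ((dvd_mod_add_iff l P m h (Finset.dvd_prod_of_mem _ hl)).1 hd)
  have h1 : (((Ioc X (X + Y)).filter (fun m => GoodS S (pr y) m)).card : ℝ) - Y * del S y
      = ∑ r ∈ G, ((((Ioc X (X + Y)).filter (fun m => m ≡ r [MOD P])).card : ℝ) - Y / P) := by
    rw [hfib, hdel, Finset.sum_sub_distrib, Finset.sum_const, nsmul_eq_mul]
    push_cast
    ring
  rw [h1]
  refine (Finset.abs_sum_le_sum_abs _ _).trans ?_
  refine (Finset.sum_le_card_nsmul _ _ 1 (fun r _ => count_class X Y P r hPpos)).trans ?_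
  rw [nsmul_eq_mul, mul_one]
  have h2 : G.card ≤ P := by
    rw [hG]
    refine (Finset.card_filter_le _ _).trans ?_
    rw [card_range]
  have h3 : (G.card : ℝ) ≤ P := by exact_mod_cast h2
  linarith

end Pool.Agent.Cyclic
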