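import Mathlib
import Pool.Agent.Cyclic.Selberg

set_option autoImplicit false

namespace Pool.Agent.Cyclic

open Finset ArithmeticFunction

lemma sum_inv_sq_le (K : ℕ) : ∑ k ∈ Icc 1 K, 1 / (k : ℝ) ^ 2 ≤ 2 := by
  have h : ∀ K : ℕ, ∑ k ∈ Icc 1 (K + 1), 1 / (k : ℝ) ^ 2 ≤ 2 - 1 / ((K : ℝ) + 1) := by
    intro K
    induction K with
    | zero => norm_num
    | succ K ih =>
      rw [Finset.sum_Icc_succ_top (by omega)]
      have h1 : 1 / ((K + 1 + 1 : ℕ) : ℝ) ^ 2 ≤ 1 / ((K : ℝ) + 1) - 1 / (((K + 1 : ℕ) : ℝ) + 1) := by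
        push_cast
        have hK : (0 : ℝ) ≤ K := Nat.cast_nonneg K
        rw [div_sub_div _ _ (by positivity) (by positivity), div_le_div_iff₀ (by positivity) (by positivity)]
        nlinarith
      linarith
  rcases K with _ | K
  · simp
  · have := h K
    have h2 : 0 ≤ 1 / ((K : ℝ) + 1) := by positivity
    linarith

lemma harmonic_eq_sum_Icc_real (n : ℕ) : ((harmonic n : ℚ) : ℝ) = ∑ k ∈ Icc 1 n, 1 / (k : ℝ) := by
  rw [harmonic_eq_sum_Icc]
  push_cast
  exact Finset.sum_congr rfl fun k _ => by rw [one_div]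

lemma sum_coprime_le (p D : ℕ) :
    ∑ n ∈ (Icc 1 D).filter (fun n => n.Coprime p), 1 / (n : ℝ) ≤ 2 * ∑ d ∈ sD p D, 1 / (d : ℝ) := by
  classical
  have hex : ∀ n : ℕ, ∃ a b : ℕ, b ^ 2 * a = n ∧ Squarefree a := Nat.sq_mul_squarefree
  choose A B hAB hA using hex
  set N := (Icc 1 D).filter (fun n => n.Coprime p) with hN
  have h1 : ∑ n ∈ N, 1 / (n : ℝ)
      = ∑ x ∈ N.image (fun n => (A n, B n)), 1 / (x.1 : ℝ) * (1 / (x.2 : ℝ) ^ 2) := by
    rw [Finset.sum_image]
    · refine Finset.sum_congr rfl fun n _ => ?_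
      simp only
      conv_lhs => rw [← hAB n]
      push_cast
      rw [one_div_mul_one_div, mul_comm]
    · intro n _ m _ hnm
      simp only [Prod.mk.injEq] at hnm
      rw [← hAB n, ← hAB m, hnm.1, hnm.2]
  rw [h1]
  have h2 : N.image (fun n => (A n, B n)) ⊆ sD p D ×ˢ Icc 1 D := by
    intro x hx
    obtain ⟨n, hn, rfl⟩ := Finset.mem_image.1 hx
    rw [hN, mem_filter, mem_Icc] at hn
    have hn0 : n ≠ 0 := by omega
    have hA0 : A n ≠ 0 := by
      intro h
      have := hAB n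
      rw [h, mul_zero] at this
      omega
    have hB0 : B n ≠ 0 := by
      intro h
      have := hAB n
      rw [h] at this
      simp at this
      omega
    have hAd : A n ∣ n := ⟨B n ^ 2, by rw [mul_comm]; exact (hAB n).symm⟩
    have hBd : B n ∣ n := (dvd_pow_self (B n) (by norm_num)).trans ⟨A n, (hAB n).symm⟩
    rw [mem_product, mem_sD, mem_Icc]
    refine ⟨⟨⟨Nat.one_le_iff_ne_zero.2 hA0, (Nat.le_of_dvd (by omega) hAd).trans hn.1.2⟩, hA n,
      Nat.Coprime.coprime_dvd_left hAd hn.2⟩, Nat.one_le_iff_ne_zero.2 hB0,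
      (Nat.le_of_dvd (by omega) hBd).trans hn.1.2⟩
  refine (Finset.sum_le_sum_of_subset_of_nonneg h2 (fun _ _ _ => by positivity)).trans ?_
  rw [Finset.sum_product]
  simp only
  simp_rw [← Finset.mul_sum]
  rw [← Finset.sum_mul, mul_comm]
  have h3 : 0 ≤ ∑ d ∈ sD p D, 1 / (d : ℝ) := Finset.sum_nonneg fun _ _ => by positivity
  exact mul_le_mul_of_nonneg_right (sum_inv_sq_le D) h3

lemma sum_coprime_ge (p D : ℕ) (hp : p.Prime) :
    (1 / 2) * Real.log (D + 1) ≤ ∑ n ∈ (Icc 1 D).filter (fun n => n.Coprime p), 1 / (n : ℝ) := by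
  classical
  have h0 : Real.log (D + 1) ≤ ∑ n ∈ Icc 1 D, 1 / (n : ℝ) := by
    rw [← harmonic_eq_sum_Icc_real]
    have := log_add_one_le_harmonic D
    push_cast at this
    exact this
  have h1 := Finset.sum_filter_add_sum_filter_not (Icc 1 D) (fun n => n.Coprime p)
    (fun n : ℕ => 1 / (n : ℝ))
  have h2 : ∑ n ∈ (Icc 1 D).filter (fun n => ¬ n.Coprime p), 1 / (n : ℝ)
      ≤ (1 / 2) * ∑ n ∈ Icc 1 D, 1 / (n : ℝ) := by
    have h3 : (Icc 1 D).filter (fun n => ¬ n.Coprime p) ⊆ (Icc 1 D).image (fun m => p * m) := by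
      intro n hn
      rw [mem_filter, mem_Icc] at hn
      have h4 : p ∣ n := by
        by_contra h
        exact hn.2 ((Nat.Prime.coprime_iff_not_dvd hp).2 h).symm
      obtain ⟨m, rfl⟩ := h4
      have hm0 : 0 < m := by
        rcases Nat.eq_zero_or_pos m with h | h
        · simp [h] at hn
        · exact h
      exact mem_image.2 ⟨m, mem_Icc.2 ⟨hm0, (Nat.le_mul_of_pos_left m hp.pos).trans hn.1.2⟩, rfl⟩
    refine (Finset.sum_le_sum_of_subset_of_nonneg h3 (fun _ _ _ => by positivity)).trans ?_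
    rw [Finset.sum_image (fun a _ b _ hab => Nat.eq_of_mul_eq_mul_left hp.pos hab), Finset.mul_sum]
    refine Finset.sum_le_sum fun m hm => ?_
    have hp2 : (2 : ℝ) ≤ p := by exact_mod_cast hp.two_le
    have hm0 : (0 : ℝ) < m := by exact_mod_cast (mem_Icc.1 hm).1
    push_cast
    rw [one_div_mul_one_div, one_div_le_one_div (by positivity) (by positivity)]
    exact mul_le_mul_of_nonneg_right hp2 hm0.le
  linarith

/-- Lower bound for the Selberg sum. -/
lemma sS_ge (p D : ℕ) (hp : p.Prime) : (1 / 4) * Real.log (D + 1) ≤ sS p D := by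
  have h1 := sum_coprime_le p D
  have h2 := sum_coprime_ge p D hp
  have h3 : ∑ d ∈ sD p D, 1 / (d : ℝ) ≤ sS p D := by
    unfold sS
    refine Finset.sum_le_sum fun d hd => ?_
    have hd1 := (mem_sD p D).1 hd
    have hpos : (0 : ℝ) < d.totient := by
      exact_mod_cast Nat.totient_pos.2 (by omega)
    exact one_div_le_one_div_of_le hpos (by exact_mod_cast Nat.totient_le d)
  linarith

open Classical in
/-- Selberg's sieve with explicit constants. -/
theorem selberg_ap' (p D X Y : ℕ) (hp : p.Prime) (hD : 2 ≤ D) :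
    (((Ioc X (X + Y)).filter (fun j => Rough p D j)).card : ℝ)
      ≤ 4 * Y / Real.log D + (D : ℝ) ^ 4 := by
  have h1 := selberg_ap p D X Y (by omega)
  have h2 := sS_ge p D hp
  have hD2 : (2 : ℝ) ≤ D := by exact_mod_cast hD
  have h3 : 0 < Real.log D := Real.log_pos (by linarith)
  have h4 : Real.log D ≤ Real.log (D + 1) := Real.log_le_log (by linarith) (by linarith)
  have h5 : (Y : ℝ) / sS p D ≤ 4 * Y / Real.log D := by
    have h6 : (1 / 4) * Real.log D ≤ sS p D := by linarith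
    calc (Y : ℝ) / sS p D ≤ Y / ((1 / 4) * Real.log D) := by
          apply div_le_div_of_nonneg_left (Nat.cast_nonneg Y) (by positivity) h6
      _ = 4 * Y / Real.log D := by field_simp
  linarith

end Pool.Agent.Cyclic
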