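import Mathlib
import Pool.Agent.Cyclic.Crt
import Pool.Agent.Cyclic.SelbergS

set_option autoImplicit false

namespace Pool.Agent.Cyclic

open Finset Filter Topology

lemma block_card (i : ℕ) :
    i * ((pr (2 ^ (i + 1))).filter (fun l => 2 ^ i < l)).card ≤ 2 ^ (i + 2) := by
  set T := (pr (2 ^ (i + 1))).filter (fun l => 2 ^ i < l) with hT
  have h1 : (2 ^ i) ^ T.card ≤ ∏ l ∈ T, l := by
    rw [← Finset.prod_const]
    apply Finset.prod_le_prod'
    intro l hl
    exact (mem_filter.1 hl).2.le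
  have h2 : ∏ l ∈ T, l ≤ ∏ l ∈ pr (2 ^ (i + 1)), l := by
    apply Finset.prod_le_prod_of_subset_of_one_le' (Finset.filter_subset _ _)
    intro l hl _
    exact (mem_pr.1 hl).2.one_lt.le
  have h3 := (h1.trans h2).trans (prod_pr_le (2 ^ (i + 1)))
  rw [← pow_mul, show (4 : ℕ) = 2 ^ 2 by norm_num, ← pow_mul] at h3
  have h4 := (Nat.pow_le_pow_iff_right (by norm_num : 1 < 2)).1 h3
  rw [pow_succ' 2 (i + 1)]
  exact h4

lemma block_sum (i : ℕ) (hi : 1 ≤ i) :
    ∑ l ∈ (pr (2 ^ (i + 1))).filter (fun l => 2 ^ i < l), 1 / (l : ℝ) ≤ 4 / i := by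
  have hi0 : (0 : ℝ) < i := by exact_mod_cast hi
  have h1 : ∀ l ∈ (pr (2 ^ (i + 1))).filter (fun l => 2 ^ i < l), 1 / (l : ℝ) ≤ 1 / 2 ^ i := by
    intro l hl
    apply one_div_le_one_div_of_le (by positivity)
    exact_mod_cast (mem_filter.1 hl).2.le
  refine (Finset.sum_le_card_nsmul _ _ _ h1).trans ?_
  rw [nsmul_eq_mul, mul_one_div, div_le_div_iff₀ (by positivity) hi0]
  have h2 := block_card i
  have h3 : (i : ℝ) * (((pr (2 ^ (i + 1))).filter (fun l => 2 ^ i < l)).card : ℝ) ≤ 2 ^ (i + 2) := by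
    exact_mod_cast h2
  calc _ = (i : ℝ) * (((pr (2 ^ (i + 1))).filter (fun l => 2 ^ i < l)).card : ℝ) := by ring
    _ ≤ 2 ^ (i + 2) := h3
    _ = 4 * 2 ^ i := by ring

lemma pr_mono {a b : ℕ} (h : a ≤ b) : pr a ⊆ pr b := by
  intro l hl
  rw [mem_pr] at hl ⊢
  exact ⟨hl.1.trans h, hl.2⟩

lemma sum_split (a i : ℕ) (hai : a ≤ i) :
    ∑ l ∈ (pr (2 ^ (i + 1))).filter (fun l => 2 ^ a < l), 1 / (l : ℝ)
      = ∑ l ∈ (pr (2 ^ i)).filter (fun l => 2 ^ a < l), 1 / (l : ℝ)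
        + ∑ l ∈ (pr (2 ^ (i + 1))).filter (fun l => 2 ^ i < l), 1 / (l : ℝ) := by
  have h1 : (pr (2 ^ (i + 1))).filter (fun l => 2 ^ a < l)
      = (pr (2 ^ i)).filter (fun l => 2 ^ a < l) ∪ (pr (2 ^ (i + 1))).filter (fun l => 2 ^ i < l) := by
    ext l
    simp only [mem_union, mem_filter, mem_pr]
    have h2 : 2 ^ a ≤ 2 ^ i := Nat.pow_le_pow_right (by norm_num) hai
    have h3 : 2 ^ i ≤ 2 ^ (i + 1) := Nat.pow_le_pow_right (by norm_num) (by omega)
    constructor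
    · rintro ⟨⟨h4, h5⟩, h6⟩
      by_cases h7 : l ≤ 2 ^ i
      · left; exact ⟨⟨h7, h5⟩, h6⟩
      · right; exact ⟨⟨h4, h5⟩, by omega⟩
    · rintro (⟨⟨h4, h5⟩, h6⟩ | ⟨⟨h4, h5⟩, h6⟩)
      · exact ⟨⟨h4.trans h3, h5⟩, h6⟩
      · exact ⟨⟨h4, h5⟩, by omega⟩
  rw [h1, Finset.sum_union]
  rw [Finset.disjoint_left]
  intro l hl hl'
  rw [mem_filter, mem_pr] at hl hl'
  omega

lemma sum_between (a b : ℕ) (ha : 1 ≤ a) (hab : a ≤ b) :
    ∑ l ∈ (pr (2 ^ b)).filter (fun l => 2 ^ a < l), 1 / (l : ℝ) ≤ 4 * (b - a) / a := by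
  have ha0 : (0 : ℝ) < a := by exact_mod_cast ha
  induction b, hab using Nat.le_induction with
  | base =>
    have h1 : (pr (2 ^ a)).filter (fun l => 2 ^ a < l) = ∅ := by
      apply Finset.filter_eq_empty_iff.2
      intro l hl
      rw [mem_pr] at hl
      omega
    rw [h1, Finset.sum_empty]
    simp
  | succ b hab ih =>
    rw [sum_split a b hab]
    have h1 := block_sum b (ha.trans hab)
    have h2 : (4 : ℝ) / b ≤ 4 / a := by
      apply div_le_div_of_nonneg_left (by norm_num) ha0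
      exact_mod_cast hab
    have h3 : 4 * (((b + 1 : ℕ) : ℝ) - a) / a = 4 * (b - a) / a + 4 / a := by
      push_cast; ring
    rw [h3]
    linarith

lemma sum_upto (b : ℕ) (hb : 1 ≤ b) :
    ∑ l ∈ pr (2 ^ b), 1 / (l : ℝ) ≤ 5 + 4 * Real.log b := by
  have h : ∀ b : ℕ, ∑ l ∈ pr (2 ^ (b + 1)), 1 / (l : ℝ) ≤ 1 / 2 + 4 * ∑ i ∈ Icc 1 b, 1 / (i : ℝ) := by
    intro b
    induction b with
    | zero =>
      have : pr (2 ^ (0 + 1)) = {2} := by decide
      rw [this]
      simp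
    | succ b ih =>
      have h1 : pr (2 ^ (b + 1 + 1)) = pr (2 ^ (b + 1)) ∪
          (pr (2 ^ (b + 1 + 1))).filter (fun l => 2 ^ (b + 1) < l) := by
        ext l
        simp only [mem_union, mem_filter, mem_pr]
        have h3 : 2 ^ (b + 1) ≤ 2 ^ (b + 1 + 1) := Nat.pow_le_pow_right (by norm_num) (by omega)
        constructor
        · rintro ⟨h4, h5⟩
          by_cases h7 : l ≤ 2 ^ (b + 1)
          · left; exact ⟨h7, h5⟩
          · right; exact ⟨⟨h4, h5⟩, by omega⟩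
        · rintro (⟨h4, h5⟩ | ⟨h4, _⟩)
          · exact ⟨h4.trans h3, h5⟩
          · exact h4
      rw [h1, Finset.sum_union]
      · have h2 := block_sum (b + 1) (by omega)
        rw [Finset.sum_Icc_succ_top (by omega), mul_add]
        have h3 : (4 : ℝ) * (1 / ((b + 1 : ℕ) : ℝ)) = 4 / ((b + 1 : ℕ) : ℝ) := by ring
        rw [h3]
        linarith
      · rw [Finset.disjoint_left]
        intro l hl hl'
        rw [mem_pr] at hl
        rw [mem_filter] at hl'
        omega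
  obtain ⟨b, rfl⟩ : ∃ c, b = c + 1 := ⟨b - 1, by omega⟩
  have h1 := h b
  have h2 : ∑ i ∈ Icc 1 b, 1 / (i : ℝ) ≤ ∑ i ∈ Icc 1 (b + 1), 1 / (i : ℝ) :=
    Finset.sum_le_sum_of_subset_of_nonneg (Finset.Icc_subset_Icc_right (by omega))
      (fun _ _ _ => by positivity)
  have h3 : ∑ i ∈ Icc 1 (b + 1), 1 / (i : ℝ) ≤ 1 + Real.log ((b + 1 : ℕ) : ℝ) := by
    rw [← harmonic_eq_sum_Icc_real]
    exact harmonic_le_one_add_log _
  linarith

/-- the pair pattern -/
def Pat (g : ℕ) : Finset ℕ := {0, g}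

lemma nu_pat_le (g l : ℕ) : nu (Pat g) l ≤ 2 := by
  unfold nu Pat
  exact Finset.card_image_le.trans (Finset.card_le_two)

lemma nu_pat_two (g : ℕ) (hg : 2 ∣ g) : nu (Pat g) 2 = 1 := by
  unfold nu Pat
  have : g % 2 = 0 := Nat.dvd_iff_mod_eq_zero.1 hg
  simp [this]

lemma exp_factor {x : ℝ} (hx0 : 0 ≤ x) (hx : x ≤ 1 / 2) : Real.exp (-(2 * x)) ≤ 1 - x := by
  have h1 : 0 < 1 - x := by linarith
  have h2 : 1 + x / (1 - x) ≤ Real.exp (x / (1 - x)) := by
    have := Real.add_one_le_exp (x / (1 - x))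
    linarith
  have h3 : 1 + x / (1 - x) = (1 - x)⁻¹ := by field_simp; ring
  have h4 : x / (1 - x) ≤ 2 * x := by
    rw [div_le_iff₀ h1]
    nlinarith
  rw [h3] at h2
  have h5 : (1 - x)⁻¹ ≤ Real.exp (2 * x) := h2.trans (Real.exp_le_exp.2 h4)
  rw [Real.exp_neg]
  exact inv_le_of_inv_le₀ h1 h5

lemma factor_bound (g l : ℕ) (hg : 2 ∣ g) (hl : l.Prime) :
    Real.exp (-(4 * (1 / (l : ℝ)))) ≤ 1 - (nu (Pat g) l : ℝ) / l := by
  have hl0 : (0 : ℝ) < l := by exact_mod_cast hl.pos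
  rcases Nat.lt_or_ge l 4 with h4 | h4
  · have h2 := hl.two_le
    have h23 : l = 2 ∨ l = 3 := by omega
    rcases h23 with rfl | rfl
    · rw [nu_pat_two g hg]
      have h5 := exp_factor (x := 1 / 2) (by norm_num) (by norm_num)
      have h6 : Real.exp (-(4 * (1 / ((2 : ℕ) : ℝ)))) ≤ Real.exp (-(2 * (1 / 2))) := by
        apply Real.exp_le_exp.2
        norm_num
      push_cast at h6 ⊢
      linarith
    · have h5 : (nu (Pat g) 3 : ℝ) ≤ 2 := by exact_mod_cast nu_pat_le g 3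
      have h6 := Real.quadratic_le_exp_of_nonneg (x := 4 / 3) (by norm_num)
      have h7 : (3 : ℝ) ≤ Real.exp (4 / 3) := by
        refine le_trans ?_ h6
        norm_num
      have h8 : Real.exp (-(4 * (1 / ((3 : ℕ) : ℝ)))) ≤ 1 / 3 := by
        have : -(4 * (1 / ((3 : ℕ) : ℝ))) = -(4 / 3 : ℝ) := by push_cast; ring
        rw [this, Real.exp_neg, inv_eq_one_div]
        exact one_div_le_one_div_of_le (by norm_num) h7
      push_cast at h8 ⊢
      linarith
  · have h5 : (nu (Pat g) l : ℝ) ≤ 2 := by exact_mod_cast nu_pat_le g l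
    have h4' : (4 : ℝ) ≤ l := by exact_mod_cast h4
    have h6 := exp_factor (x := 2 / l) (by positivity) (by
      rw [div_le_div_iff₀ hl0 (by norm_num)]; linarith)
    have h7 : -(4 * (1 / (l : ℝ))) = -(2 * (2 / l)) := by ring
    rw [h7]
    refine h6.trans ?_
    have : (nu (Pat g) l : ℝ) / l ≤ 2 / l := div_le_div_of_nonneg_right h5 hl0.le
    linarith

lemma factor_pos (g l : ℕ) (hg : 2 ∣ g) (hl : l.Prime) : 0 < 1 - (nu (Pat g) l : ℝ) / l :=
  lt_of_lt_of_le (Real.exp_pos _) (factor_bound g l hg hl)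

lemma factor_le_one (S : Finset ℕ) (l : ℕ) : 1 - (nu S l : ℝ) / l ≤ 1 := by
  have : 0 ≤ (nu S l : ℝ) / l := by positivity
  linarith

lemma del_pos (g y : ℕ) (hg : 2 ∣ g) : 0 < del (Pat g) y :=
  Finset.prod_pos fun l hl => factor_pos g l hg (mem_pr.1 hl).2

lemma prod_exp_le (g : ℕ) (hg : 2 ∣ g) (T : Finset ℕ) (hT : ∀ l ∈ T, l.Prime) :
    Real.exp (-(4 * ∑ l ∈ T, 1 / (l : ℝ))) ≤ ∏ l ∈ T, (1 - (nu (Pat g) l : ℝ) / l) := by
  have h1 : -(4 * ∑ l ∈ T, 1 / (l : ℝ)) = ∑ l ∈ T, -(4 * (1 / (l : ℝ))) := by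
    rw [Finset.mul_sum, Finset.sum_neg_distrib]
  rw [h1, Real.exp_sum]
  apply Finset.prod_le_prod
  · intro l _; exact (Real.exp_pos _).le
  · intro l hl
    exact factor_bound g l hg (hT l hl)

lemma del_lower (g y b : ℕ) (hg : 2 ∣ g) (hb : 1 ≤ b) (hy : y ≤ 2 ^ b) :
    Real.exp (-(20 + 16 * Real.log b)) ≤ del (Pat g) y := by
  have h1 := prod_exp_le g hg (pr y) (fun l hl => (mem_pr.1 hl).2)
  refine le_trans ?_ h1
  apply Real.exp_le_exp.2
  have h2 : ∑ l ∈ pr y, 1 / (l : ℝ) ≤ ∑ l ∈ pr (2 ^ b), 1 / (l : ℝ) :=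
    Finset.sum_le_sum_of_subset_of_nonneg (pr_mono hy) (fun _ _ _ => by positivity)
  have h3 := sum_upto b hb
  linarith

lemma del_anti (g : ℕ) (hg : 2 ∣ g) {y y' : ℕ} (h : y ≤ y') : del (Pat g) y' ≤ del (Pat g) y := by
  unfold del
  rw [← Finset.prod_sdiff (pr_mono h)]
  have h1 : ∏ l ∈ pr y' \ pr y, (1 - (nu (Pat g) l : ℝ) / l) ≤ 1 := by
    apply Finset.prod_le_one
    · intro l hl
      exact (factor_pos g l hg (mem_pr.1 (Finset.mem_sdiff.1 hl).1).2).le
    · intro l _; exact factor_le_one _ l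
  have h2 := del_pos g y hg
  unfold del at h2
  nlinarith

lemma del_ratio (g : ℕ) (hg : 2 ∣ g) {y y' a b : ℕ} (h : y ≤ y') (ha : 1 ≤ a) (hab : a ≤ b)
    (hy : 2 ^ a ≤ y) (hy' : y' ≤ 2 ^ b) :
    del (Pat g) y * Real.exp (-(16 * (b - a) / a)) ≤ del (Pat g) y' := by
  unfold del
  rw [← Finset.prod_sdiff (pr_mono h), mul_comm]
  have h2 := del_pos g y hg
  unfold del at h2
  apply mul_le_mul_of_nonneg_right _ h2.le
  have h3 := prod_exp_le g hg (pr y' \ pr y) (fun l hl => (mem_pr.1 (Finset.mem_sdiff.1 hl).1).2)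
  refine le_trans ?_ h3
  apply Real.exp_le_exp.2
  have h4 : ∑ l ∈ pr y' \ pr y, 1 / (l : ℝ) ≤
      ∑ l ∈ (pr (2 ^ b)).filter (fun l => 2 ^ a < l), 1 / (l : ℝ) := by
    apply Finset.sum_le_sum_of_subset_of_nonneg
    · intro l hl
      rw [Finset.mem_sdiff, mem_pr, mem_pr] at hl
      rw [mem_filter, mem_pr]
      obtain ⟨⟨h5, h6⟩, h7⟩ := hl
      have h8 : ¬ l ≤ y := fun h9 => h7 ⟨h9, h6⟩
      exact ⟨⟨h5.trans hy', h6⟩, by omega⟩
    · intro _ _ _; positivity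
  have h5 := sum_between a b ha hab
  have h6 : 16 * ((b : ℝ) - a) / a = 4 * (4 * (b - a) / a) := by ring
  rw [h6]
  linarith

/-- the triple pattern -/
def Pat3 (i g : ℕ) : Finset ℕ := {0, i, g}

lemma nu_le_self (S : Finset ℕ) (l : ℕ) (hl : 0 < l) : nu S l ≤ l := by
  unfold nu
  have : S.image (fun h => h % l) ⊆ range l := by
    intro x hx
    rw [mem_image] at hx
    obtain ⟨h, -, rfl⟩ := hx
    exact mem_range.2 (Nat.mod_lt _ hl)
  exact (Finset.card_le_card this).trans (by rw [card_range])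

/-- the product over large primes tends to zero -/
noncomputable def psi (y : ℕ) : ℝ := Real.exp (-∑ l ∈ (pr y).filter (fun l => 7 ≤ l), 1 / (l : ℝ))

lemma nu_triple {i g l : ℕ} (h1 : 0 < i) (h2 : i < g) (h3 : g < l) : nu (Pat3 i g) l = 3 := by
  unfold nu Pat3
  have e1 : i % l = i := Nat.mod_eq_of_lt (by omega)
  have e2 : g % l = g := Nat.mod_eq_of_lt h3
  rw [Finset.image_insert, Finset.image_insert, Finset.image_singleton, e1, e2, Nat.zero_mod]
  rw [Finset.card_eq_three]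
  exact ⟨0, i, g, by omega, by omega, by omega, rfl⟩

lemma del_triple {i g : ℕ} (hg : 2 ∣ g) (h1 : 0 < i) (h2 : i < g) (h6 : g ≤ 6) (y : ℕ) :
    del (Pat3 i g) y ≤ del (Pat g) y * psi y := by
  have hpsi : psi y = ∏ l ∈ pr y, (if 7 ≤ l then Real.exp (-(1 / (l : ℝ))) else 1) := by
    unfold psi
    rw [← Finset.prod_filter, ← Finset.sum_neg_distrib, Real.exp_sum]
  rw [hpsi]
  unfold del
  rw [← Finset.prod_mul_distrib]
  apply Finset.prod_le_prod
  · intro l hl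
    rw [mem_pr] at hl
    have hl0 : (0 : ℝ) < l := by exact_mod_cast hl.2.pos
    have : (nu (Pat3 i g) l : ℝ) / l ≤ 1 := by
      rw [div_le_one hl0]
      exact_mod_cast nu_le_self _ l hl.2.pos
    linarith
  · intro l hl
    rw [mem_pr] at hl
    have hl0 : (0 : ℝ) < l := by exact_mod_cast hl.2.pos
    split_ifs with h7
    · rw [nu_triple h1 h2 (by omega)]
      have h8 : (nu (Pat g) l : ℝ) ≤ 2 := by exact_mod_cast nu_pat_le g l
      have h9 : 1 - 1 / (l : ℝ) ≤ Real.exp (-(1 / (l : ℝ))) := by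
        have := Real.add_one_le_exp (-(1 / (l : ℝ)))
        linarith
      have h10 : 1 - 2 / (l : ℝ) ≤ 1 - (nu (Pat g) l : ℝ) / l := by
        have := div_le_div_of_nonneg_right h8 hl0.le
        linarith
      have h7' : (7 : ℝ) ≤ l := by exact_mod_cast h7
      have h11 : 0 ≤ 1 - 2 / (l : ℝ) := by
        rw [sub_nonneg, div_le_one hl0]; linarith
      have h12 : 0 ≤ 1 - 1 / (l : ℝ) := by
        rw [sub_nonneg, div_le_one hl0]; linarith
      calc 1 - ((3 : ℕ) : ℝ) / l ≤ (1 - 2 / (l : ℝ)) * (1 - 1 / (l : ℝ)) := by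
            have : (1 - 2 / (l : ℝ)) * (1 - 1 / (l : ℝ)) = 1 - ((3 : ℕ) : ℝ) / l + 2 / l ^ 2 := by
              push_cast; field_simp; ring
            rw [this]
            have : 0 ≤ 2 / (l : ℝ) ^ 2 := by positivity
            linarith
        _ ≤ _ := mul_le_mul h10 h9 h12 (h11.trans h10)
    · rw [mul_one]
      have h8 : nu (Pat g) l ≤ nu (Pat3 i g) l := by
        unfold nu
        apply Finset.card_le_card
        apply Finset.image_subset_image
        unfold Pat Pat3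
        intro x hx
        simp only [mem_insert, mem_singleton] at hx ⊢
        tauto
      have h9 : (nu (Pat g) l : ℝ) / l ≤ (nu (Pat3 i g) l : ℝ) / l := by
        apply div_le_div_of_nonneg_right _ hl0.le
        exact_mod_cast h8
      linarith

lemma psi_tendsto : Tendsto psi atTop (𝓝 0) := by
  unfold psi
  apply Real.tendsto_exp_neg_atTop_nhds_zero.comp
  have h1 := not_summable_one_div_on_primes
  set f : ℕ → ℝ := fun n => if 7 ≤ n then ({p | Nat.Prime p}.indicator (fun n => 1 / (n : ℝ))) n else 0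
    with hf
  have hf0 : ∀ n, 0 ≤ f n := by
    intro n
    rw [hf]
    simp only
    split_ifs
    · apply Set.indicator_nonneg
      intro _ _; positivity
    · exact le_rfl
  have hns : ¬ Summable f := by
    intro hs
    apply h1
    rw [← summable_nat_add_iff 7] at hs ⊢
    refine hs.congr ?_
    intro n
    rw [hf]
    simp only
    rw [if_pos (by omega)]
  have h2 := (not_summable_iff_tendsto_nat_atTop_of_nonneg hf0).1 hns
  have h3 := h2.comp (tendsto_add_atTop_nat 1)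
  refine h3.congr ?_
  intro y
  simp only [Function.comp]
  rw [hf]
  simp only
  unfold pr
  rw [Finset.filter_filter, Finset.sum_filter]
  apply Finset.sum_congr rfl
  intro l _
  by_cases h7 : 7 ≤ l
  · by_cases hp : l.Prime
    · simp [h7, hp]
    · simp [hp]
  · simp [h7]

end Pool.Agent.Cyclic
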