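import Mathlib

set_option autoImplicit false

namespace Pool.Agent.Cyclic

open Finset

/-- Summation by parts bound. -/
lemma abel_bound (c : ℕ → ℂ) (B : ℝ) (hB : ∀ n, ‖∑ i ∈ range n, c i‖ ≤ B) (g : ℕ → ℝ) (V : ℝ)
    (hV : ∀ n, |g n| + ∑ i ∈ range n, |g (i + 1) - g i| ≤ V) (n : ℕ) :
    ‖∑ i ∈ range n, (g i : ℂ) * c i‖ ≤ B * V := by
  have hB0 : 0 ≤ B := (norm_nonneg _).trans (hB 0)
  have h := Finset.sum_range_by_parts (fun i => (g i : ℂ)) c n
  simp only [smul_eq_mul] at h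
  rw [h]
  refine (norm_sub_le _ _).trans ?_
  have h1 : ‖(g (n - 1) : ℂ) * ∑ i ∈ range n, c i‖ ≤ B * |g (n - 1)| := by
    rw [norm_mul, Complex.norm_real, Real.norm_eq_abs, mul_comm]
    exact mul_le_mul_of_nonneg_right (hB n) (abs_nonneg _)
  have h2 : ‖∑ i ∈ range (n - 1), ((g (i + 1) : ℂ) - (g i : ℂ)) * ∑ j ∈ range (i + 1), c j‖
      ≤ B * ∑ i ∈ range (n - 1), |g (i + 1) - g i| := by
    refine (norm_sum_le _ _).trans ?_
    rw [Finset.mul_sum]
    refine Finset.sum_le_sum fun i _ => ?_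
    rw [norm_mul, ← Complex.ofReal_sub, Complex.norm_real, Real.norm_eq_abs, mul_comm]
    exact mul_le_mul_of_nonneg_right (hB (i + 1)) (abs_nonneg _)
  have h3 := mul_le_mul_of_nonneg_left (hV (n - 1)) hB0
  linarith

/-- variation of `(i+1)^(-s)` -/
lemma var_rpow (s : ℝ) (hs : 0 ≤ s) (n : ℕ) :
    |((n : ℝ) + 1) ^ (-s)| + ∑ i ∈ range n, |(((i + 1 : ℕ) : ℝ) + 1) ^ (-s) - ((i : ℝ) + 1) ^ (-s)|
      ≤ 1 := by
  have h1 : ∀ i : ℕ, |(((i + 1 : ℕ) : ℝ) + 1) ^ (-s) - ((i : ℝ) + 1) ^ (-s)|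
      = ((i : ℝ) + 1) ^ (-s) - (((i + 1 : ℕ) : ℝ) + 1) ^ (-s) := by
    intro i
    rw [abs_sub_comm, abs_of_nonneg]
    rw [sub_nonneg]
    apply Real.rpow_le_rpow_of_nonpos (by positivity)
    · push_cast; linarith
    · linarith
  rw [Finset.sum_congr rfl fun i _ => h1 i]
  rw [Finset.sum_range_sub' (fun i : ℕ => ((i : ℝ) + 1) ^ (-s)) n]
  rw [abs_of_nonneg (by positivity)]
  simp

/-- variation of `(i+1)^(-s) - (i+1)^(-(s+δ))` -/
lemma var_rpow_sub (s δ : ℝ) (hs : 1 ≤ s) (hδ : 0 ≤ δ) (n : ℕ) :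
    |((n : ℝ) + 1) ^ (-s) - ((n : ℝ) + 1) ^ (-(s + δ))|
      + ∑ i ∈ range n, |((((i + 1 : ℕ) : ℝ) + 1) ^ (-s) - (((i + 1 : ℕ) : ℝ) + 1) ^ (-(s + δ)))
        - (((i : ℝ) + 1) ^ (-s) - ((i : ℝ) + 1) ^ (-(s + δ)))|
      ≤ 2 * δ := by
  set a : ℕ → ℝ := fun i => ((i : ℝ) + 1) ^ (-s) with ha
  set b : ℕ → ℝ := fun i => 1 - ((i : ℝ) + 1) ^ (-δ) with hb
  set g : ℕ → ℝ := fun i => ((i : ℝ) + 1) ^ (-s) - ((i : ℝ) + 1) ^ (-(s + δ)) with hg
  have hgab : ∀ i, g i = a i * b i := by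
    intro i
    have hi : (0 : ℝ) < (i : ℝ) + 1 := by positivity
    simp only [hg, ha, hb]
    rw [mul_sub, mul_one, ← Real.rpow_add hi]
    congr 2
    ring
  have ha0 : ∀ i, 0 ≤ a i := fun i => by simp only [ha]; positivity
  have hanti : ∀ i, a (i + 1) ≤ a i := by
    intro i
    simp only [ha]
    apply Real.rpow_le_rpow_of_nonpos (by positivity)
    · push_cast; linarith
    · linarith
  have hb0 : ∀ i, 0 ≤ b i := by
    intro i
    simp only [hb]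
    rw [sub_nonneg]
    apply Real.rpow_le_one_of_one_le_of_nonpos
    · have : (0 : ℝ) ≤ i := Nat.cast_nonneg i
      linarith
    · linarith
  have hmono : ∀ i, b i ≤ b (i + 1) := by
    intro i
    simp only [hb]
    have : (((i + 1 : ℕ) : ℝ) + 1) ^ (-δ) ≤ ((i : ℝ) + 1) ^ (-δ) := by
      apply Real.rpow_le_rpow_of_nonpos (by positivity)
      · push_cast; linarith
      · linarith
    linarith
  have hdiff : ∀ i, b (i + 1) - b i ≤ δ / ((i : ℝ) + 1) := by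
    intro i
    have hi : (0 : ℝ) < (i : ℝ) + 1 := by positivity
    have hi2 : (0 : ℝ) < (i : ℝ) + 1 + 1 := by positivity
    simp only [hb]
    push_cast
    have h1 : ((i : ℝ) + 1 + 1) ^ (-δ) = ((i : ℝ) + 1) ^ (-δ) * (1 + 1 / ((i : ℝ) + 1)) ^ (-δ) := by
      rw [← Real.mul_rpow hi.le (by positivity)]
      congr 1
      field_simp
    have h2 : 1 - δ / ((i : ℝ) + 1) ≤ (1 + 1 / ((i : ℝ) + 1)) ^ (-δ) := by
      rw [Real.rpow_def_of_pos (by positivity)]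
      have h3 : Real.log (1 + 1 / ((i : ℝ) + 1)) ≤ 1 / ((i : ℝ) + 1) := by
        have := Real.log_le_sub_one_of_pos (show (0 : ℝ) < 1 + 1 / ((i : ℝ) + 1) by positivity)
        linarith
      have h4 := Real.add_one_le_exp (Real.log (1 + 1 / ((i : ℝ) + 1)) * -δ)
      have h5 : Real.log (1 + 1 / ((i : ℝ) + 1)) * δ ≤ 1 / ((i : ℝ) + 1) * δ :=
        mul_le_mul_of_nonneg_right h3 hδ
      have h6 : 1 / ((i : ℝ) + 1) * δ = δ / ((i : ℝ) + 1) := by ring
      linarith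
    have h7 : ((i : ℝ) + 1) ^ (-δ) ≤ 1 := by
      apply Real.rpow_le_one_of_one_le_of_nonpos
      · have : (0 : ℝ) ≤ i := Nat.cast_nonneg i
        linarith
      · linarith
    have h8 : 0 ≤ ((i : ℝ) + 1) ^ (-δ) := by positivity
    have h9 : 0 ≤ δ / ((i : ℝ) + 1) := by positivity
    rw [h1]
    nlinarith
  have ha1 : ∀ i, a (i + 1) ≤ 1 / ((i : ℝ) + 1 + 1) := by
    intro i
    simp only [ha]
    push_cast
    rw [Real.rpow_neg (by positivity), one_div]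
    apply inv_anti₀ (by positivity)
    calc (i : ℝ) + 1 + 1 = ((i : ℝ) + 1 + 1) ^ (1 : ℝ) := (Real.rpow_one _).symm
      _ ≤ ((i : ℝ) + 1 + 1) ^ s := by
          apply Real.rpow_le_rpow_of_exponent_le _ hs
          have : (0 : ℝ) ≤ i := Nat.cast_nonneg i
          linarith
  have hterm : ∀ i, |g (i + 1) - g i| ≤ 2 * (a (i + 1) * (b (i + 1) - b i)) - (g (i + 1) - g i) := by
    intro i
    have h1 : g (i + 1) - g i = a (i + 1) * (b (i + 1) - b i) - (a i - a (i + 1)) * b i := by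
      rw [hgab, hgab]; ring
    have h2 : 0 ≤ a (i + 1) * (b (i + 1) - b i) := mul_nonneg (ha0 _) (sub_nonneg.2 (hmono i))
    have h3 : 0 ≤ (a i - a (i + 1)) * b i := mul_nonneg (sub_nonneg.2 (hanti i)) (hb0 i)
    rw [h1, abs_le]
    constructor <;> linarith
  have hterm2 : ∀ i : ℕ, a (i + 1) * (b (i + 1) - b i)
      ≤ δ * (1 / ((i : ℝ) + 1) - 1 / (((i + 1 : ℕ) : ℝ) + 1)) := by
    intro i
    have h1 : a (i + 1) * (b (i + 1) - b i) ≤ 1 / ((i : ℝ) + 1 + 1) * (δ / ((i : ℝ) + 1)) :=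
      mul_le_mul (ha1 i) (hdiff i) (sub_nonneg.2 (hmono i)) (by positivity)
    refine h1.trans (le_of_eq ?_)
    push_cast
    field_simp
    ring
  have hsum : ∑ i ∈ range n, |g (i + 1) - g i| ≤ 2 * δ - g n := by
    calc ∑ i ∈ range n, |g (i + 1) - g i|
        ≤ ∑ i ∈ range n, (2 * (δ * (1 / ((i : ℝ) + 1) - 1 / (((i + 1 : ℕ) : ℝ) + 1)))
          - (g (i + 1) - g i)) := by
          refine Finset.sum_le_sum fun i _ => ?_
          have h1 := hterm i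
          have h2 := hterm2 i
          linarith
      _ = 2 * (δ * ∑ i ∈ range n, (1 / ((i : ℝ) + 1) - 1 / (((i + 1 : ℕ) : ℝ) + 1)))
          - ∑ i ∈ range n, (g (i + 1) - g i) := by
          rw [Finset.sum_sub_distrib, ← Finset.mul_sum, ← Finset.mul_sum]
      _ = 2 * (δ * (1 - 1 / ((n : ℝ) + 1))) - (g n - g 0) := by
          rw [Finset.sum_range_sub' (fun i : ℕ => 1 / ((i : ℝ) + 1)) n, Finset.sum_range_sub]
          simp
      _ ≤ 2 * δ - g n := by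
          have h0 : g 0 = 0 := by simp [hg]
          have h1 : 0 ≤ δ * (1 / ((n : ℝ) + 1)) := by positivity
          rw [h0]
          linarith
  have hgn : 0 ≤ g n := by rw [hgab]; exact mul_nonneg (ha0 n) (hb0 n)
  have e1 : |g n| = g n := abs_of_nonneg hgn
  have : |g n| + ∑ i ∈ range n, |g (i + 1) - g i| ≤ 2 * δ := by rw [e1]; linarith
  exact this

end Pool.Agent.Cyclic
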