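import Mathlib
import Pool.Agent.Cyclic.Abel

set_option autoImplicit false

namespace Pool.Agent.Cyclic

open Finset

variable {p : ℕ} [Fact p.Prime]

lemma sum_range_eq_sum_zmod (f : ZMod p → ℂ) :
    ∑ m ∈ range p, f (m : ZMod p) = ∑ a : ZMod p, f a := by
  have hp0 : 0 < p := (Fact.out : p.Prime).pos
  have _ : NeZero p := ⟨hp0.ne'⟩
  refine Finset.sum_nbij' (fun m => (m : ZMod p)) ZMod.val ?_ ?_ ?_ ?_ ?_
  · intro m _; exact mem_univ _
  · intro a _; exact mem_range.2 (ZMod.val_lt a)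
  · intro m hm; exact ZMod.val_cast_of_lt (mem_range.1 hm)
  · intro a _; exact ZMod.natCast_zmod_val a
  · intro m _; rfl

lemma norm_sum_range_le (χ : DirichletCharacter ℂ p) (hχ : χ ≠ 1) (n : ℕ) :
    ‖∑ m ∈ range n, χ (m : ZMod p)‖ ≤ p := by
  have hp0 : 0 < p := (Fact.out : p.Prime).pos
  have hzero : ∀ k : ℕ, ∑ m ∈ range (p * k), χ (m : ZMod p) = 0 := by
    intro k
    induction k with
    | zero => simp
    | succ k ih =>
      rw [Nat.mul_succ, Finset.sum_range_add, ih, zero_add]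
      have : ∀ m ∈ range p, χ ((p * k + m : ℕ) : ZMod p) = χ (m : ZMod p) := by
        intro m _
        congr 1
        push_cast
        simp
      rw [Finset.sum_congr rfl this, sum_range_eq_sum_zmod (fun a => χ a)]
      exact MulChar.sum_eq_zero_of_ne_one hχ
  rw [← Nat.div_add_mod n p, Finset.sum_range_add, hzero, zero_add]
  refine (norm_sum_le _ _).trans ?_
  calc ∑ x ∈ range (n % p), ‖χ ((p * (n / p) + x : ℕ) : ZMod p)‖
      ≤ ∑ _x ∈ range (n % p), (1 : ℝ) := Finset.sum_le_sum fun x _ => χ.norm_le_one _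
    _ = (n % p : ℕ) := by simp
    _ ≤ p := by exact_mod_cast (Nat.mod_lt n hp0).le

/-- shifted character values -/
noncomputable def cs (χ : DirichletCharacter ℂ p) (i : ℕ) : ℂ := χ ((i + 1 : ℕ) : ZMod p)

lemma norm_cs_le (χ : DirichletCharacter ℂ p) (i : ℕ) : ‖cs χ i‖ ≤ 1 := χ.norm_le_one _

lemma norm_sum_cs_le (χ : DirichletCharacter ℂ p) (hχ : χ ≠ 1) (n : ℕ) :
    ‖∑ i ∈ range n, cs χ i‖ ≤ p := by
  have h := norm_sum_range_le χ hχ (n + 1)
  rw [Finset.sum_range_succ'] at h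
  have h0 : χ ((0 : ℕ) : ZMod p) = 0 := by
    rw [Nat.cast_zero]
    exact MulChar.map_zero χ
  rw [h0, add_zero] at h
  exact h

/-- The Dirichlet `L`-series at a real point. -/
noncomputable def Lser (χ : DirichletCharacter ℂ p) (s : ℝ) : ℂ :=
  ∑' i : ℕ, ((((i : ℝ) + 1) ^ (-s) : ℝ) : ℂ) * cs χ i

lemma summable_rpow_shift {s : ℝ} (hs : 1 < s) : Summable fun i : ℕ => ((i : ℝ) + 1) ^ (-s) := by
  have h := Real.summable_nat_rpow.2 (show -s < -1 by linarith)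
  have h2 := (summable_nat_add_iff 1).2 h
  refine h2.congr fun i => ?_
  push_cast
  rfl

lemma summable_Lser (χ : DirichletCharacter ℂ p) {s : ℝ} (hs : 1 < s) :
    Summable fun i : ℕ => ((((i : ℝ) + 1) ^ (-s) : ℝ) : ℂ) * cs χ i := by
  refine Summable.of_norm_bounded (summable_rpow_shift hs) fun i => ?_
  rw [norm_mul, Complex.norm_real, Real.norm_of_nonneg (by positivity)]
  exact mul_le_of_le_one_right (by positivity) (norm_cs_le χ i)

lemma Lser_eq_LSeries (χ : DirichletCharacter ℂ p) {s : ℝ} (hs : 1 < s) :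
    LSeries (fun n : ℕ => χ (n : ZMod p)) (s : ℂ) = Lser χ s := by
  have hsum : LSeriesSummable (fun n : ℕ => χ (n : ZMod p)) (s : ℂ) :=
    DirichletCharacter.LSeriesSummable_of_one_lt_re χ (by simpa using hs)
  unfold LSeries Lser
  unfold LSeriesSummable at hsum
  rw [hsum.tsum_eq_zero_add, LSeries.term_zero, zero_add]
  refine tsum_congr fun i => ?_
  rw [LSeries.term_of_ne_zero (Nat.succ_ne_zero i)]
  have h1 : (((i + 1 : ℕ) : ℂ) ^ (s : ℂ)) = ((((i : ℝ) + 1) ^ s : ℝ) : ℂ) := by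
    rw [Complex.ofReal_cpow (by positivity)]
    push_cast
    rfl
  rw [h1, Real.rpow_neg (by positivity), Complex.ofReal_inv, div_eq_mul_inv, mul_comm]
  rfl

/-- passing to the limit in the summation by parts bound -/
lemma norm_tsum_le (χ : DirichletCharacter ℂ p) (hχ : χ ≠ 1) (g : ℕ → ℝ) (V : ℝ)
    (hs : Summable fun i : ℕ => (g i : ℂ) * cs χ i)
    (hV : ∀ n, |g n| + ∑ i ∈ range n, |g (i + 1) - g i| ≤ V) :
    ‖∑' i : ℕ, (g i : ℂ) * cs χ i‖ ≤ p * V := by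
  have h1 := hs.hasSum.tendsto_sum_nat.norm
  exact le_of_tendsto' h1 fun n => abel_bound (cs χ) p (norm_sum_cs_le χ hχ) g V hV n

lemma norm_Lser_le (χ : DirichletCharacter ℂ p) (hχ : χ ≠ 1) {s : ℝ} (hs : 1 < s) :
    ‖Lser χ s‖ ≤ p := by
  have h := norm_tsum_le χ hχ (fun i : ℕ => ((i : ℝ) + 1) ^ (-s)) 1 (summable_Lser χ hs)
    (var_rpow s (by linarith))
  rw [mul_one] at h
  exact h

lemma norm_Lser_sub_le (χ : DirichletCharacter ℂ p) (hχ : χ ≠ 1) {s s' : ℝ} (hs : 1 < s)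
    (hss : s ≤ s') : ‖Lser χ s - Lser χ s'‖ ≤ 2 * p * (s' - s) := by
  have hs' : 1 < s' := by linarith
  have h1 : Lser χ s - Lser χ s'
      = ∑' i : ℕ, ((((i : ℝ) + 1) ^ (-s) - ((i : ℝ) + 1) ^ (-(s + (s' - s))) : ℝ) : ℂ) * cs χ i := by
    unfold Lser
    rw [← (summable_Lser χ hs).tsum_sub (summable_Lser χ hs')]
    refine tsum_congr fun i => ?_
    rw [show s + (s' - s) = s' by ring]
    push_cast
    ring
  have h2 : Summable fun i : ℕ =>
      ((((i : ℝ) + 1) ^ (-s) - ((i : ℝ) + 1) ^ (-(s + (s' - s))) : ℝ) : ℂ) * cs χ i := by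
    refine ((summable_Lser χ hs).sub (summable_Lser χ hs')).congr fun i => ?_
    rw [show s + (s' - s) = s' by ring]
    push_cast
    ring
  rw [h1]
  have h3 := norm_tsum_le χ hχ _ (2 * (s' - s)) h2
    (var_rpow_sub s (s' - s) hs.le (by linarith))
  refine h3.trans (le_of_eq ?_)
  ring

/-- zeta-like upper bound: `∑ (i+1)^(-s) ≤ 1 + 1/(s-1)` -/
lemma rpow_step (η : ℝ) (hη : 0 < η) (n : ℕ) (hn : 1 ≤ n) :
    ((n : ℝ) + 1) ^ (-(1 + η)) ≤ ((n : ℝ) ^ (-η) - ((n : ℝ) + 1) ^ (-η)) / η := by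
  have hn0 : (0 : ℝ) < n := by exact_mod_cast hn
  have hn1 : (0 : ℝ) < (n : ℝ) + 1 := by positivity
  rw [le_div_iff₀ hη]
  have h1 : (n : ℝ) ^ (-η) = ((n : ℝ) + 1) ^ (-η) * (1 + 1 / (n : ℝ)) ^ η := by
    have h2 : (n : ℝ) + 1 = n * (1 + 1 / (n : ℝ)) := by field_simp
    rw [h2, Real.mul_rpow hn0.le (by positivity), mul_assoc, ← Real.rpow_add (by positivity)]
    simp
  have h2 : 1 + η / ((n : ℝ) + 1) ≤ (1 + 1 / (n : ℝ)) ^ η := by
    rw [Real.rpow_def_of_pos (by positivity)]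
    have h3 : 1 / ((n : ℝ) + 1) ≤ Real.log (1 + 1 / (n : ℝ)) := by
      have h4 := Real.one_sub_inv_le_log_of_pos (show (0 : ℝ) < 1 + 1 / (n : ℝ) by positivity)
      refine le_trans (le_of_eq ?_) h4
      field_simp
      ring
    have h4 := Real.add_one_le_exp (Real.log (1 + 1 / (n : ℝ)) * η)
    have h5 : 1 / ((n : ℝ) + 1) * η ≤ Real.log (1 + 1 / (n : ℝ)) * η :=
      mul_le_mul_of_nonneg_right h3 hη.le
    have h6 : 1 / ((n : ℝ) + 1) * η = η / ((n : ℝ) + 1) := by ring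
    linarith
  have h3 : ((n : ℝ) + 1) ^ (-(1 + η)) = ((n : ℝ) + 1) ^ (-η) * (1 / ((n : ℝ) + 1)) := by
    rw [show -(1 + η) = -η + -1 by ring, Real.rpow_add hn1, Real.rpow_neg hn1.le 1, Real.rpow_one,
      one_div]
  have h4 : 0 < ((n : ℝ) + 1) ^ (-η) := by positivity
  rw [h1, h3]
  calc ((n : ℝ) + 1) ^ (-η) * (1 / ((n : ℝ) + 1)) * η
      = ((n : ℝ) + 1) ^ (-η) * (1 + η / ((n : ℝ) + 1)) - ((n : ℝ) + 1) ^ (-η) := by ring
    _ ≤ _ := by
        have := mul_le_mul_of_nonneg_left h2 h4.le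
        linarith

/-- tail bound -/
lemma tail_bound (η : ℝ) (hη : 0 < η) (N : ℕ) (hN : 1 ≤ N) :
    ∑' i : ℕ, (((i + N : ℕ) : ℝ) + 1) ^ (-(1 + η)) ≤ (N : ℝ) ^ (-η) / η := by
  have hN0 : (0 : ℝ) < N := by exact_mod_cast hN
  apply Real.tsum_le_of_sum_range_le
  · intro i; positivity
  · intro n
    have h1 : ∀ i ∈ range n, (((i + N : ℕ) : ℝ) + 1) ^ (-(1 + η))
        ≤ (((i + N : ℕ) : ℝ) ^ (-η) / η - ((i + 1 + N : ℕ) : ℝ) ^ (-η) / η) := by
      intro i _
      have := rpow_step η hη (i + N) (by omega)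
      rw [sub_div] at this
      refine this.trans (le_of_eq ?_)
      congr 3
      push_cast
      ring
    refine (Finset.sum_le_sum h1).trans ?_
    rw [Finset.sum_range_sub' (fun i : ℕ => ((i + N : ℕ) : ℝ) ^ (-η) / η) n]
    have h2 : 0 ≤ ((n + N : ℕ) : ℝ) ^ (-η) / η := by positivity
    simp only [zero_add]
    linarith

lemma tsum_rpow_le (η : ℝ) (hη : 0 < η) : ∑' i : ℕ, ((i : ℝ) + 1) ^ (-(1 + η)) ≤ 1 + 1 / η := by
  have hs := summable_rpow_shift (show 1 < 1 + η by linarith)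
  rw [hs.tsum_eq_zero_add]
  have h1 := tail_bound η hη 1 le_rfl
  simp only [Nat.cast_zero, zero_add, Real.one_rpow]
  have h2 : ∑' i : ℕ, (((i + 1 : ℕ) : ℝ) + 1) ^ (-(1 + η)) ≤ 1 / η := by
    simpa using h1
  linarith

lemma norm_Lser_one_le {η : ℝ} (hη : 0 < η) (χ : DirichletCharacter ℂ p) :
    ‖Lser χ (1 + η)‖ ≤ 1 + 1 / η := by
  refine (norm_tsum_le_tsum_norm (summable_Lser χ (by linarith)).norm).trans ?_
  refine le_trans ?_ (tsum_rpow_le η hη)
  refine Summable.tsum_le_tsum ?_ (summable_Lser χ (by linarith)).norm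
    (summable_rpow_shift (by linarith))
  intro i
  rw [norm_mul, Complex.norm_real, Real.norm_of_nonneg (by positivity)]
  exact mul_le_of_le_one_right (by positivity) (norm_cs_le χ i)

/-- 3-4-1 inequality at the real point. -/
lemma three_four_one (χ : DirichletCharacter ℂ p) {η : ℝ} (hη : 0 < η) :
    1 ≤ ‖Lser (1 : DirichletCharacter ℂ p) (1 + η)‖ ^ 3 * ‖Lser χ (1 + η)‖ ^ 4
      * ‖Lser (χ ^ 2) (1 + η)‖ := by
  have h := DirichletCharacter.norm_LSeries_product_ge_one χ hη 0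
  simp only [Complex.ofReal_zero, mul_zero, add_zero] at h
  have h1 : (1 + (η : ℂ)) = ((1 + η : ℝ) : ℂ) := by push_cast; rfl
  rw [h1, Lser_eq_LSeries _ (by linarith), Lser_eq_LSeries _ (by linarith),
    Lser_eq_LSeries _ (by linarith), norm_mul, norm_mul, norm_pow, norm_pow] at h
  exact h

/-- Lower bound for complex characters. -/
lemma Lser_lower_complex (χ : DirichletCharacter ℂ p) (hχ : χ ^ 2 ≠ 1) {η : ℝ} (hη : 0 < η)
    (hη1 : η ≤ 1) : 1 / (1024 * (p : ℝ) ^ 4) ≤ ‖Lser χ (1 + η)‖ := by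
  have hχ1 : χ ≠ 1 := by rintro rfl; exact hχ (one_pow 2)
  have hp1 : (1 : ℝ) ≤ p := by exact_mod_cast (Fact.out : p.Prime).one_lt.le
  have hp0 : (0 : ℝ) < p := by linarith
  set κ : ℝ := 1 / (2048 * (p : ℝ) ^ 5) with hκ
  have hκ0 : 0 < κ := by positivity
  have h2pk : 2 * p * κ = 1 / (1024 * (p : ℝ) ^ 4) := by rw [hκ]; field_simp; norm_num
  -- lower bound at points ≥ 1 + κ
  have hbig : ∀ t : ℝ, κ ≤ t → t ≤ 1 → 4 * p * κ ≤ ‖Lser χ (1 + t)‖ := by
    intro t ht ht1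
    have ht0 : 0 < t := by linarith
    have h1 := three_four_one χ ht0
    have h2 := norm_Lser_one_le ht0 (1 : DirichletCharacter ℂ p)
    have h3 := norm_Lser_le (χ ^ 2) hχ (show 1 < 1 + t by linarith)
    have h4 : ‖Lser (1 : DirichletCharacter ℂ p) (1 + t)‖ ≤ 2 / t := by
      refine h2.trans ?_
      rw [le_div_iff₀ ht0]
      field_simp
      linarith
    set X := ‖Lser χ (1 + t)‖ with hX
    have hX0 : 0 ≤ X := norm_nonneg _
    have h5 : 1 ≤ (2 / t) ^ 3 * X ^ 4 * p := by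
      refine h1.trans ?_
      gcongr
    by_contra hcon
    push Not at hcon
    have h6 : X ^ 4 < (4 * p * κ) ^ 4 := pow_lt_pow_left₀ hcon hX0 (by norm_num)
    have h7 : (4 * p * κ) ^ 4 = κ ^ 3 / (8 * p) := by
      rw [hκ]; field_simp; norm_num
    have h8 : κ ^ 3 ≤ t ^ 3 := pow_le_pow_left₀ hκ0.le ht 3
    have h9 : (2 / t) ^ 3 * X ^ 4 * p < (2 / t) ^ 3 * (t ^ 3 / (8 * p)) * p := by
      have : X ^ 4 < t ^ 3 / (8 * p) := by
        refine h6.trans_le ?_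
        rw [h7]
        gcongr
      gcongr
    have h10 : (2 / t) ^ 3 * (t ^ 3 / (8 * p)) * p = 1 := by field_simp; norm_num
    linarith
  by_cases h : κ ≤ η
  · have := hbig η h hη1
    rw [← h2pk]
    have : 0 < p * κ := by positivity
    linarith
  · push Not at h
    have hκ1 : κ ≤ 1 := by
      rw [hκ, div_le_one (by positivity)]
      have : (1 : ℝ) ≤ p ^ 5 := one_le_pow₀ hp1
      linarith
    have h1 := hbig κ le_rfl hκ1
    have h2 := norm_Lser_sub_le χ hχ1 (show 1 < 1 + η by linarith) (show 1 + η ≤ 1 + κ by linarith)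
    have h3 : ‖Lser χ (1 + κ)‖ - ‖Lser χ (1 + η)‖ ≤ ‖Lser χ (1 + η) - Lser χ (1 + κ)‖ := by
      rw [norm_sub_rev]
      exact norm_sub_norm_le _ _
    have h4 : 2 * p * (1 + κ - (1 + η)) ≤ 2 * p * κ := by
      have : 0 ≤ 2 * p * η := by positivity
      nlinarith
    rw [← h2pk]
    linarith

end Pool.Agent.Cyclic
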