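import Mathlib
import Pool.Agent.Cyclic.LFun

set_option autoImplicit false

namespace Pool.Agent.Cyclic

open Finset

/-- geometric partial sums -/
lemma geom_sum_ge (u : ℝ) (n : ℕ) :
    (n : ℝ) * u ^ (n - 1) ≤ ∑ i ∈ range n, (u ^ 2) ^ i := by
  have h1 : ∑ i ∈ range n, (u ^ 2) ^ (n - 1 - i) = ∑ i ∈ range n, (u ^ 2) ^ i :=
    Finset.sum_range_reflect (fun i => (u ^ 2) ^ i) n
  have h2 : ∀ i ∈ range n, 2 * u ^ (n - 1) ≤ (u ^ 2) ^ i + (u ^ 2) ^ (n - 1 - i) := by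
    intro i hi
    rw [mem_range] at hi
    have h3 : u ^ (n - 1) = u ^ i * u ^ (n - 1 - i) := by
      rw [← pow_add]; congr 1; omega
    rw [h3, ← pow_mul, ← pow_mul, mul_comm 2 i, mul_comm 2 (n - 1 - i), pow_mul, pow_mul]
    nlinarith [sq_nonneg (u ^ i - u ^ (n - 1 - i))]
  have h3 := Finset.sum_le_sum h2
  rw [Finset.sum_add_distrib, h1, Finset.sum_const, card_range, nsmul_eq_mul] at h3
  linarith

/-- Monsky's sequence `b_n = 1/(n(1-t)) - t^n/(1-t^n)` (index `n = i + 1`). -/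
noncomputable def mb (t : ℝ) (i : ℕ) : ℝ :=
  1 / (((i : ℝ) + 1) * (1 - t)) - t ^ (i + 1) / (1 - t ^ (i + 1))

lemma one_sub_pow_eq (t : ℝ) (n : ℕ) : 1 - t ^ n = (1 - t) * ∑ i ∈ range n, t ^ i := by
  have := mul_neg_geom_sum t n
  linarith

lemma mb_nonneg {t : ℝ} (ht0 : 0 < t) (ht1 : t < 1) (i : ℕ) : 0 ≤ mb t i := by
  unfold mb
  have h1t : 0 < 1 - t := by linarith
  rw [sub_nonneg, one_sub_pow_eq]
  have hS : ((i : ℝ) + 1) * t ^ (i + 1) ≤ ∑ j ∈ range (i + 1), t ^ j := by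
    have h1 : ∀ j ∈ range (i + 1), t ^ (i + 1) ≤ t ^ j := by
      intro j hj
      rw [mem_range] at hj
      exact pow_le_pow_of_le_one ht0.le ht1.le (by omega)
    have h2 := Finset.sum_le_sum h1
    rw [Finset.sum_const, card_range, nsmul_eq_mul] at h2
    push_cast at h2
    exact h2
  have hS0 : 0 < ∑ j ∈ range (i + 1), t ^ j := by
    refine lt_of_lt_of_le ?_ hS
    positivity
  rw [div_le_div_iff₀ (by positivity) (by positivity)]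
  nlinarith

lemma mb_anti {t : ℝ} (ht0 : 0 < t) (ht1 : t < 1) (i : ℕ) : mb t (i + 1) ≤ mb t i := by
  have h1t : 0 < 1 - t := by linarith
  set u := Real.sqrt t with hu
  have hu0 : 0 ≤ u := Real.sqrt_nonneg t
  have hut : u ^ 2 = t := Real.sq_sqrt ht0.le
  have hu1 : u ≤ 1 := by
    rw [hu]; exact Real.sqrt_le_one.2 ht1.le
  set S : ℝ := ∑ j ∈ range (i + 1), t ^ j with hS
  have hS' : ∑ j ∈ range (i + 1 + 1), t ^ j = S + t ^ (i + 1) := Finset.sum_range_succ _ _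
  have hSt : S + t ^ (i + 1) = 1 + t * S := by
    rw [← hS', Finset.sum_range_succ', hS, Finset.mul_sum]
    simp only [pow_zero]
    rw [add_comm]
    congr 1
    exact Finset.sum_congr rfl fun j _ => by ring
  have g1 := geom_sum_ge u (i + 1)
  have g2 := geom_sum_ge u (i + 1 + 1)
  rw [hut] at g1 g2
  rw [← hS] at g1
  rw [hS'] at g2
  simp only [Nat.add_sub_cancel] at g1 g2
  push_cast at g1 g2
  have hui : 0 ≤ u ^ i := pow_nonneg hu0 i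
  have hui1 : 0 ≤ u ^ (i + 1) := pow_nonneg hu0 _
  have hprod : ((i : ℝ) + 1) * ((i : ℝ) + 1 + 1) * t ^ (i + 1) ≤ S * (S + t ^ (i + 1)) := by
    have h1 : ((i : ℝ) + 1) * u ^ i * (((i : ℝ) + 1 + 1) * u ^ (i + 1)) ≤ S * (S + t ^ (i + 1)) :=
      mul_le_mul g1 g2 (by positivity) (le_trans (by positivity) g1)
    have h2 : t ^ (i + 1) ≤ u ^ i * u ^ (i + 1) := by
      rw [← hut, ← pow_mul, ← pow_add]
      exact pow_le_pow_of_le_one hu0 hu1 (by omega)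
    calc ((i : ℝ) + 1) * ((i : ℝ) + 1 + 1) * t ^ (i + 1)
        ≤ ((i : ℝ) + 1) * ((i : ℝ) + 1 + 1) * (u ^ i * u ^ (i + 1)) := by gcongr
      _ = ((i : ℝ) + 1) * u ^ i * (((i : ℝ) + 1 + 1) * u ^ (i + 1)) := by ring
      _ ≤ _ := h1
  have hS0 : 0 < S := by
    rw [hS]
    exact Finset.sum_pos (fun j _ => pow_pos ht0 j) ⟨0, by simp⟩
  have htp : 0 < t ^ (i + 1) := pow_pos ht0 _
  unfold mb
  rw [one_sub_pow_eq, one_sub_pow_eq, ← hS, hS']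
  push_cast
  have e1 : 1 / (((i : ℝ) + 1) * (1 - t)) - 1 / (((i : ℝ) + 1 + 1) * (1 - t))
      = 1 / (1 - t) * (1 / (((i : ℝ) + 1) * ((i : ℝ) + 1 + 1))) := by
    field_simp
    ring
  have e2 : t ^ (i + 1) / ((1 - t) * S) - t ^ (i + 1 + 1) / ((1 - t) * (S + t ^ (i + 1)))
      = 1 / (1 - t) * (t ^ (i + 1) / (S * (S + t ^ (i + 1)))) := by
    have h3 : t ^ (i + 1) / ((1 - t) * S) - t ^ (i + 1 + 1) / ((1 - t) * (S + t ^ (i + 1)))
        = (t ^ (i + 1) * (S + t ^ (i + 1) - t * S)) / ((1 - t) * S * (S + t ^ (i + 1))) := by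
      field_simp
      ring
    rw [h3, hSt]
    field_simp
    ring
  have e3 : t ^ (i + 1) / (S * (S + t ^ (i + 1))) ≤ 1 / (((i : ℝ) + 1) * ((i : ℝ) + 1 + 1)) := by
    rw [div_le_div_iff₀ (by positivity) (by positivity)]
    linarith
  have e4 : 1 / (1 - t) * (t ^ (i + 1) / (S * (S + t ^ (i + 1))))
      ≤ 1 / (1 - t) * (1 / (((i : ℝ) + 1) * ((i : ℝ) + 1 + 1))) :=
    mul_le_mul_of_nonneg_left e3 (by positivity)
  linarith

lemma mb_zero {t : ℝ} (ht1 : t < 1) : mb t 0 = 1 := by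
  unfold mb
  have h1t : 1 - t ≠ 0 := by linarith
  simp only [Nat.cast_zero, zero_add, one_mul, pow_one]
  field_simp

lemma mb_var {t : ℝ} (ht0 : 0 < t) (ht1 : t < 1) (n : ℕ) :
    |mb t n| + ∑ i ∈ range n, |mb t (i + 1) - mb t i| ≤ 1 := by
  have h1 : ∀ i ∈ range n, |mb t (i + 1) - mb t i| = mb t i - mb t (i + 1) := by
    intro i _
    rw [abs_sub_comm, abs_of_nonneg (sub_nonneg.2 (mb_anti ht0 ht1 i))]
  rw [Finset.sum_congr rfl h1, Finset.sum_range_sub', abs_of_nonneg (mb_nonneg ht0 ht1 n),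
    mb_zero ht1]
  linarith

variable {p : ℕ} [Fact p.Prime]

/-- the Lambert series -/
noncomputable def lam (χ : DirichletCharacter ℂ p) (t : ℝ) : ℂ :=
  ∑' c : ℕ+ × ℕ+, χ ((c.1 : ℕ) : ZMod p) * ((t ^ ((c.1 : ℕ) * (c.2 : ℕ)) : ℝ) : ℂ)

lemma summable_lam (χ : DirichletCharacter ℂ p) {t : ℝ} (ht0 : 0 < t) (ht1 : t < 1) :
    Summable fun c : ℕ+ × ℕ+ =>
      χ ((c.1 : ℕ) : ZMod p) * ((t ^ ((c.1 : ℕ) * (c.2 : ℕ)) : ℝ) : ℂ) := by
  have h : Summable fun c : ℕ+ × ℕ+ => t ^ ((c.1 : ℕ) * (c.2 : ℕ)) := by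
    have := summable_prod_mul_pow (𝕜 := ℝ) 0 (r := t)
      (by rw [Real.norm_of_nonneg ht0.le]; exact ht1)
    refine this.congr fun c => ?_
    simp
  refine Summable.of_norm_bounded h fun c => ?_
  rw [norm_mul, Complex.norm_real, Real.norm_of_nonneg (by positivity)]
  exact mul_le_of_le_one_left (by positivity) (χ.norm_le_one _)

lemma hasSum_lam (χ : DirichletCharacter ℂ p) {t : ℝ} (ht0 : 0 < t) (ht1 : t < 1) :
    HasSum (fun i : ℕ => ((t ^ (i + 1) / (1 - t ^ (i + 1)) : ℝ) : ℂ) * cs χ i) (lam χ t) := by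
  have h1 := (summable_lam χ ht0 ht1).hasSum
  have h2 : ∀ n : ℕ+, HasSum (fun k : ℕ+ =>
      χ ((n : ℕ) : ZMod p) * ((t ^ ((n : ℕ) * (k : ℕ)) : ℝ) : ℂ))
      (χ ((n : ℕ) : ZMod p) * ((t ^ (n : ℕ) / (1 - t ^ (n : ℕ)) : ℝ) : ℂ)) := by
    intro n
    refine HasSum.mul_left _ ?_
    rw [Complex.hasSum_ofReal]
    have htn : t ^ (n : ℕ) < 1 := pow_lt_one₀ ht0.le ht1 n.pos.ne'
    have h3 := (hasSum_geometric_of_lt_one (pow_nonneg ht0.le (n : ℕ)) htn).mul_left (t ^ (n : ℕ))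
    rw [← Equiv.pnatEquivNat.symm.hasSum_iff]
    have e1 : ((fun k : ℕ+ => t ^ ((n : ℕ) * (k : ℕ))) ∘ ⇑Equiv.pnatEquivNat.symm)
        = fun i : ℕ => t ^ (n : ℕ) * (t ^ (n : ℕ)) ^ i := by
      ext i
      simp only [Function.comp_apply, Equiv.pnatEquivNat_symm_apply, Nat.succPNat_coe]
      rw [pow_mul, Nat.succ_eq_add_one, pow_succ]
      ring
    rw [e1, div_eq_mul_inv]
    exact h3
  have h3 := h1.prod_fiberwise h2
  rw [← Equiv.pnatEquivNat.symm.hasSum_iff] at h3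
  have e1 : (fun i : ℕ => ((t ^ (i + 1) / (1 - t ^ (i + 1)) : ℝ) : ℂ) * cs χ i)
      = ((fun b : ℕ+ => χ ((b : ℕ) : ZMod p) * ((t ^ (b : ℕ) / (1 - t ^ (b : ℕ)) : ℝ) : ℂ))
        ∘ ⇑Equiv.pnatEquivNat.symm) := by
    ext i
    simp only [Function.comp_apply, Equiv.pnatEquivNat_symm_apply, Nat.succPNat_coe]
    rw [mul_comm]
    rfl
  rw [e1]
  exact h3

/-- the divisor sum `∑_{ab = n} χ(a)` -/
noncomputable def dch (χ : DirichletCharacter ℂ p) (n : ℕ) : ℂ :=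
  ∑ x ∈ n.divisorsAntidiagonal, χ ((x.1 : ℕ) : ZMod p)

lemma hasSum_dch (χ : DirichletCharacter ℂ p) {t : ℝ} (ht0 : 0 < t) (ht1 : t < 1) :
    HasSum (fun n : ℕ+ => dch χ n * ((t ^ (n : ℕ) : ℝ) : ℂ)) (lam χ t) := by
  have h1 := (summable_lam χ ht0 ht1).hasSum
  rw [← sigmaAntidiagonalEquivProd.hasSum_iff] at h1
  have h2 := h1.sigma (g := fun n : ℕ+ => dch χ n * ((t ^ (n : ℕ) : ℝ) : ℂ)) ?_
  · exact h2
  · intro n
    have h3 := hasSum_fintype (fun c : (n : ℕ).divisorsAntidiagonal =>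
      ((fun c : ℕ+ × ℕ+ => χ ((c.1 : ℕ) : ZMod p) * ((t ^ ((c.1 : ℕ) * (c.2 : ℕ)) : ℝ) : ℂ))
        ∘ sigmaAntidiagonalEquivProd) ⟨n, c⟩)
    have h4 : ∑ c : (n : ℕ).divisorsAntidiagonal,
      ((fun c : ℕ+ × ℕ+ => χ ((c.1 : ℕ) : ZMod p) * ((t ^ ((c.1 : ℕ) * (c.2 : ℕ)) : ℝ) : ℂ))
        ∘ sigmaAntidiagonalEquivProd) ⟨n, c⟩ = dch χ n * ((t ^ (n : ℕ) : ℝ) : ℂ) := by
      have h8 : ∀ c : (n : ℕ).divisorsAntidiagonal,
          ((fun c : ℕ+ × ℕ+ => χ ((c.1 : ℕ) : ZMod p) * ((t ^ ((c.1 : ℕ) * (c.2 : ℕ)) : ℝ) : ℂ))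
            ∘ sigmaAntidiagonalEquivProd) ⟨n, c⟩
          = χ ((c.1.1 : ℕ) : ZMod p) * ((t ^ (n : ℕ) : ℝ) : ℂ) := by
        intro c
        have h5 := (Nat.mem_divisorsAntidiagonal.1 c.2).1
        simp only [Function.comp_apply]
        have h6 : ((sigmaAntidiagonalEquivProd ⟨n, c⟩).1 : ℕ) = c.1.1 := rfl
        have h7 : ((sigmaAntidiagonalEquivProd ⟨n, c⟩).2 : ℕ) = c.1.2 := rfl
        rw [h6, h7, h5]
      rw [Finset.sum_congr rfl fun c _ => h8 c, Finset.univ_eq_attach,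
        Finset.sum_attach ((n : ℕ).divisorsAntidiagonal)
          (fun x : ℕ × ℕ => χ ((x.1 : ℕ) : ZMod p) * ((t ^ (n : ℕ) : ℝ) : ℂ))]
      unfold dch
      rw [Finset.sum_mul]
    rw [← h4]
    exact h3

end Pool.Agent.Cyclic
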