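import Mathlib
import Pool.Agent.Cyclic.LReal

set_option autoImplicit false

namespace Pool.Agent.Cyclic

open Finset

variable {p : ℕ} [Fact p.Prime]

lemma dch_eq_sum (χ : DirichletCharacter ℂ p) (n : ℕ) :
    dch χ n = ∑ d ∈ n.divisors, χ ((d : ℕ) : ZMod p) := by
  unfold dch
  exact Nat.sum_divisorsAntidiagonal (fun a _ => χ ((a : ℕ) : ZMod p))

lemma dch_eq_zetaMul (χ : DirichletCharacter ℂ p) (n : ℕ) :
    dch χ n = χ.zetaMul n := by
  rw [dch_eq_sum]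
  unfold DirichletCharacter.zetaMul
  rw [ArithmeticFunction.coe_zeta_mul_apply]
  refine Finset.sum_congr rfl fun d hd => ?_
  have hd0 : d ≠ 0 := (Nat.pos_of_mem_divisors hd).ne'
  simp [toArithmeticFunction, hd0]

lemma dch_re_nonneg (χ : DirichletCharacter ℂ p) (hχ : χ ^ 2 = 1) (n : ℕ) : 0 ≤ (dch χ n).re := by
  rw [dch_eq_zetaMul]
  have h := DirichletCharacter.zetaMul_nonneg hχ n
  rw [Complex.le_def] at h
  exact h.1

lemma dch_re_pow_ge (χ : DirichletCharacter ℂ p) (hχ : χ ^ 2 = 1) (k : ℕ) :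
    1 ≤ (dch χ (4 ^ k)).re := by
  have h4 : (4 : ℕ) ^ k = 2 ^ (2 * k) := by rw [pow_mul]; norm_num
  rw [dch_eq_sum, h4, Nat.sum_divisors_prime_pow Nat.prime_two]
  have h1 : ∀ i ∈ range (2 * k + 1), χ (((2 ^ i : ℕ)) : ZMod p) = (χ ((2 : ℕ) : ZMod p)) ^ i := by
    intro i _
    rw [Nat.cast_pow, map_pow]
  rw [Finset.sum_congr rfl h1]
  rcases MulChar.isQuadratic_iff_sq_eq_one.mpr hχ ((2 : ℕ) : ZMod p) with h | h | h
  · rw [h, Finset.sum_range_succ']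
    simp
  · rw [h]
    simp
  · rw [h, neg_one_geom_sum, if_neg]
    · simp
    · rw [Nat.even_add_one]
      simp

lemma lam_re_ge (χ : DirichletCharacter ℂ p) (hχ : χ ^ 2 = 1) {t : ℝ} (ht0 : 0 < t) (ht1 : t < 1)
    (K : ℕ) : ∑ k ∈ range K, t ^ (4 ^ k) ≤ (lam χ t).re := by
  have h1 := Complex.hasSum_re (hasSum_dch χ ht0 ht1)
  have h2 : ∀ n : ℕ+, (dch χ n * ((t ^ (n : ℕ) : ℝ) : ℂ)).re = (dch χ n).re * t ^ (n : ℕ) := by
    intro n
    rw [Complex.mul_re, Complex.ofReal_re, Complex.ofReal_im]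
    ring
  simp_rw [h2] at h1
  let e : ℕ → ℕ+ := fun k => ⟨4 ^ k, by positivity⟩
  have he : Function.Injective e := by
    intro a b hab
    have : 4 ^ a = 4 ^ b := congrArg (fun x : ℕ+ => (x : ℕ)) hab
    exact Nat.pow_right_injective (le_refl 2 |>.trans (by norm_num)) this
  have h3 := sum_le_hasSum ((range K).image e)
    (fun n _ => mul_nonneg (dch_re_nonneg χ hχ n) (pow_nonneg ht0.le _)) h1
  rw [Finset.sum_image (fun a _ b _ hab => he hab)] at h3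
  refine le_trans (Finset.sum_le_sum fun k _ => ?_) h3
  have h4 : ((e k : ℕ+) : ℕ) = 4 ^ k := rfl
  rw [h4]
  exact le_mul_of_one_le_left (pow_nonneg ht0.le _) (dch_re_pow_ge χ hχ k)

lemma quarter_le (y : ℕ) (hy : 1 ≤ y) :
    (1 / 4 : ℝ) ≤ (1 - 1 / ((2 * y : ℕ) : ℝ)) ^ (2 * y) := by
  have hy0 : (0 : ℝ) < y := by exact_mod_cast hy
  have hy1 : (1 : ℝ) ≤ y := by exact_mod_cast hy
  have h1 : (1 : ℝ) / 2 ≤ (1 - 1 / ((2 * y : ℕ) : ℝ)) ^ y := by
    have h2 := one_add_mul_le_pow (a := -(1 / ((2 * y : ℕ) : ℝ))) (by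
      push_cast
      have : 1 / (2 * (y : ℝ)) ≤ 1 := by
        rw [div_le_one (by positivity)]; linarith
      linarith) y
    have h3 : 1 + (y : ℝ) * -(1 / ((2 * y : ℕ) : ℝ)) = 1 / 2 := by
      push_cast; field_simp; norm_num
    rw [h3] at h2
    rw [sub_eq_add_neg]
    exact h2
  calc (1 / 4 : ℝ) = (1 / 2) ^ 2 := by norm_num
    _ ≤ ((1 - 1 / ((2 * y : ℕ) : ℝ)) ^ y) ^ 2 := pow_le_pow_left₀ (by norm_num) h1 2
    _ = _ := by rw [← pow_mul, mul_comm y 2]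

/-- Lower bound for the real character. -/
lemma Lser_lower_real (χ : DirichletCharacter ℂ p) (hχ1 : χ ≠ 1) (hχ : χ ^ 2 = 1) {η : ℝ}
    (hη : 0 < η) (hη1 : 2 * p * η ≤ (1 / 4 : ℝ) ^ (4 * (p + 2))) :
    (1 / 4 : ℝ) ^ (4 * (p + 2)) ≤ ‖Lser χ (1 + η)‖ := by
  set K : ℕ := 4 * (p + 2) with hK
  have hK1 : 1 ≤ K := by omega
  set y : ℕ := 2 * 4 ^ (K - 1) with hy
  have hx : 2 * y = 4 ^ K := by
    rw [hy, ← mul_assoc]
    norm_num
    rw [← pow_succ']
    congr 1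
  have hy1 : 1 ≤ y := by rw [hy]; have : 0 < 4 ^ (K - 1) := by positivity
                         omega
  set t : ℝ := 1 - 1 / ((2 * y : ℕ) : ℝ) with ht
  have hx0 : (0 : ℝ) < ((2 * y : ℕ) : ℝ) := by exact_mod_cast (by omega : 0 < 2 * y)
  have hx1 : (1 : ℝ) < ((2 * y : ℕ) : ℝ) := by exact_mod_cast (by omega : 1 < 2 * y)
  have ht1 : t < 1 := by
    have : 0 < 1 / ((2 * y : ℕ) : ℝ) := by positivity
    linarith
  have ht0 : 0 < t := by
    have : 1 / ((2 * y : ℕ) : ℝ) < 1 := by rw [div_lt_one hx0]; exact hx1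
    linarith
  have h1t : 1 - t = (1 / 4 : ℝ) ^ K := by
    rw [ht, hx]
    push_cast
    rw [one_div_pow]
    norm_num
  have hlam : (p : ℝ) + 2 ≤ (lam χ t).re := by
    refine le_trans ?_ (lam_re_ge χ hχ ht0 ht1 K)
    have h1 : ∀ k ∈ range K, (1 / 4 : ℝ) ≤ t ^ (4 ^ k) := by
      intro k hk
      rw [mem_range] at hk
      calc (1 / 4 : ℝ) ≤ t ^ (2 * y) := quarter_le y hy1
        _ = t ^ (4 ^ K) := by rw [hx]
        _ ≤ t ^ (4 ^ k) := pow_le_pow_of_le_one ht0.le ht1.le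
            (Nat.pow_le_pow_right (by norm_num) hk.le)
    have h2 := Finset.sum_le_sum h1
    rw [Finset.sum_const, card_range, nsmul_eq_mul] at h2
    refine le_trans (le_of_eq ?_) h2
    rw [hK]
    push_cast
    ring
  have h1t0 : 0 < 1 - t := by linarith
  -- finite inequality
  have hfin : ∀ M : ℕ, (1 - t) * ((∑ i ∈ range M,
      ((t ^ (i + 1) / (1 - t ^ (i + 1)) : ℝ) : ℂ) * cs χ i).re - p) - p * (2 * η)
      ≤ (∑ i ∈ range M, ((((i : ℝ) + 1) ^ (-(1 + η)) : ℝ) : ℂ) * cs χ i).re := by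
    intro M
    have e1 := abel_bound (cs χ) p (norm_sum_cs_le χ hχ1) (mb t) 1 (mb_var ht0 ht1) M
    have e2 := abel_bound (cs χ) p (norm_sum_cs_le χ hχ1) _ (2 * η)
      (var_rpow_sub 1 η le_rfl hη.le) M
    have f1 : ∑ i ∈ range M, (mb t i : ℂ) * cs χ i
        = (∑ i ∈ range M, ((1 / ((i : ℝ) + 1) : ℝ) : ℂ) * cs χ i) * ((1 / (1 - t) : ℝ) : ℂ)
          - ∑ i ∈ range M, ((t ^ (i + 1) / (1 - t ^ (i + 1)) : ℝ) : ℂ) * cs χ i := by
      rw [Finset.sum_mul, ← Finset.sum_sub_distrib]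
      refine Finset.sum_congr rfl fun i _ => ?_
      have : mb t i = 1 / ((i : ℝ) + 1) * (1 / (1 - t)) - t ^ (i + 1) / (1 - t ^ (i + 1)) := by
        unfold mb
        rw [one_div_mul_one_div]
      rw [this]
      push_cast
      ring
    have f2 : ∑ i ∈ range M,
        ((((i : ℝ) + 1) ^ (-(1 : ℝ)) - ((i : ℝ) + 1) ^ (-(1 + η)) : ℝ) : ℂ) * cs χ i
        = (∑ i ∈ range M, ((1 / ((i : ℝ) + 1) : ℝ) : ℂ) * cs χ i)
          - ∑ i ∈ range M, ((((i : ℝ) + 1) ^ (-(1 + η)) : ℝ) : ℂ) * cs χ i := by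
      rw [← Finset.sum_sub_distrib]
      refine Finset.sum_congr rfl fun i _ => ?_
      rw [Real.rpow_neg (by positivity) 1, Real.rpow_one, one_div]
      push_cast
      ring
    rw [f1] at e1
    rw [f2] at e2
    set A : ℂ := ∑ i ∈ range M, ((1 / ((i : ℝ) + 1) : ℝ) : ℂ) * cs χ i with hA
    set B : ℂ := ∑ i ∈ range M, ((t ^ (i + 1) / (1 - t ^ (i + 1)) : ℝ) : ℂ) * cs χ i with hB
    set C : ℂ := ∑ i ∈ range M, ((((i : ℝ) + 1) ^ (-(1 + η)) : ℝ) : ℂ) * cs χ i with hC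
    have g1 : -(p : ℝ) ≤ A.re * (1 / (1 - t)) - B.re := by
      have h1 := Complex.abs_re_le_norm (A * ((1 / (1 - t) : ℝ) : ℂ) - B)
      have h2 : (A * ((1 / (1 - t) : ℝ) : ℂ) - B).re = A.re * (1 / (1 - t)) - B.re := by
        rw [Complex.sub_re, Complex.mul_re, Complex.ofReal_re, Complex.ofReal_im]
        ring
      rw [h2] at h1
      have h3 := neg_abs_le (A.re * (1 / (1 - t)) - B.re)
      linarith
    have g2 : A.re - C.re ≤ p * (2 * η) := by
      have h1 := Complex.abs_re_le_norm (A - C)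
      rw [Complex.sub_re] at h1
      have h3 := le_abs_self (A.re - C.re)
      linarith
    have g3 : (1 - t) * (B.re - p) ≤ A.re := by
      have h1 : B.re - p ≤ A.re / (1 - t) := by
        have : A.re * (1 / (1 - t)) = A.re / (1 - t) := by ring
        linarith
      rw [le_div_iff₀ h1t0] at h1
      linarith
    linarith
  have hB := ((Complex.hasSum_re (hasSum_lam χ ht0 ht1))).tendsto_sum_nat
  have hC := ((Complex.hasSum_re (summable_Lser χ (show 1 < 1 + η by linarith)).hasSum)).tendsto_sum_nat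
  simp_rw [← Complex.re_sum] at hB hC
  have hlim := le_of_tendsto_of_tendsto'
    (((hB.sub_const (p : ℝ)).const_mul (1 - t)).sub_const (p * (2 * η))) hC hfin
  have hre : (Lser χ (1 + η)).re ≤ ‖Lser χ (1 + η)‖ := Complex.re_le_norm _
  have hL : (∑' i : ℕ, ((((i : ℝ) + 1) ^ (-(1 + η)) : ℝ) : ℂ) * cs χ i) = Lser χ (1 + η) := rfl
  rw [hL] at hlim
  have h2 : (1 - t) * 2 ≤ (1 - t) * ((lam χ t).re - p) :=
    mul_le_mul_of_nonneg_left (by linarith) h1t0.le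
  rw [h1t] at h2 hlim
  have h3 : (p : ℝ) * (2 * η) = 2 * p * η := by ring
  linarith

end Pool.Agent.Cyclic
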