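import Mathlib
import Pool.Agent.Cyclic.LReal2

set_option autoImplicit false

namespace Pool.Agent.Cyclic

open Finset

variable {p : ℕ} [Fact p.Prime]

/-- Lower bound of the zeta sum. -/
lemma tsum_rpow_ge (η : ℝ) (hη : 0 < η) : 1 / η ≤ ∑' i : ℕ, ((i : ℝ) + 1) ^ (-(1 + η)) := by
  have hs := summable_rpow_shift (show 1 < 1 + η by linarith)
  have hterm : ∀ i : ℕ, (((i : ℝ) + 1) ^ (-η) / η - (((i + 1 : ℕ) : ℝ) + 1) ^ (-η) / η)
      ≤ ((i : ℝ) + 1) ^ (-(1 + η)) := by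
    intro i
    have hi : (0 : ℝ) < (i : ℝ) + 1 := by positivity
    have h1 : ((i : ℝ) + 1 + 1) ^ (-η) = ((i : ℝ) + 1) ^ (-η) * (1 + 1 / ((i : ℝ) + 1)) ^ (-η) := by
      rw [← Real.mul_rpow hi.le (by positivity)]
      congr 1
      field_simp
    have h2 : 1 - η / ((i : ℝ) + 1) ≤ (1 + 1 / ((i : ℝ) + 1)) ^ (-η) := by
      rw [Real.rpow_def_of_pos (by positivity)]
      have h3 : Real.log (1 + 1 / ((i : ℝ) + 1)) ≤ 1 / ((i : ℝ) + 1) := by
        have := Real.log_le_sub_one_of_pos (show (0 : ℝ) < 1 + 1 / ((i : ℝ) + 1) by positivity)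
        linarith
      have h4 := Real.add_one_le_exp (Real.log (1 + 1 / ((i : ℝ) + 1)) * -η)
      have h5 : Real.log (1 + 1 / ((i : ℝ) + 1)) * η ≤ 1 / ((i : ℝ) + 1) * η :=
        mul_le_mul_of_nonneg_right h3 hη.le
      have h6 : 1 / ((i : ℝ) + 1) * η = η / ((i : ℝ) + 1) := by ring
      linarith
    have h3 : ((i : ℝ) + 1) ^ (-(1 + η)) = ((i : ℝ) + 1) ^ (-η) * (1 / ((i : ℝ) + 1)) := by
      rw [show -(1 + η) = -η + -1 by ring, Real.rpow_add hi, Real.rpow_neg hi.le 1, Real.rpow_one,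
        one_div]
    have h4 : 0 < ((i : ℝ) + 1) ^ (-η) := by positivity
    rw [← sub_div, div_le_iff₀ hη, h3]
    push_cast
    rw [h1]
    have h5 := mul_le_mul_of_nonneg_left h2 h4.le
    have h6 : ((i : ℝ) + 1) ^ (-η) * (1 - η / ((i : ℝ) + 1))
        = ((i : ℝ) + 1) ^ (-η) - ((i : ℝ) + 1) ^ (-η) * (1 / ((i : ℝ) + 1)) * η := by ring
    linarith
  have hpart : ∀ M : ℕ, 1 / η - ((M : ℝ) + 1) ^ (-η) / η
      ≤ ∑ i ∈ range M, ((i : ℝ) + 1) ^ (-(1 + η)) := by
    intro M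
    refine le_trans (le_of_eq ?_) (Finset.sum_le_sum fun i _ => hterm i)
    rw [Finset.sum_range_sub' (fun i : ℕ => ((i : ℝ) + 1) ^ (-η) / η) M]
    simp
  have hlim : Filter.Tendsto (fun M : ℕ => 1 / η - ((M : ℝ) + 1) ^ (-η) / η) Filter.atTop
      (nhds (1 / η - 0 / η)) := by
    refine Filter.Tendsto.const_sub _ (Filter.Tendsto.div_const ?_ _)
    have h1 := tendsto_rpow_neg_atTop hη
    have h2 : Filter.Tendsto (fun M : ℕ => (M : ℝ) + 1) Filter.atTop Filter.atTop :=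
      Filter.tendsto_atTop_add_const_right _ _ tendsto_natCast_atTop_atTop
    exact h1.comp h2
  rw [zero_div, sub_zero] at hlim
  exact le_of_tendsto_of_tendsto' hlim hs.hasSum.tendsto_sum_nat hpart

/-- Lower bound for the principal character. -/
lemma Lser_one_lower {η : ℝ} (hη : 0 < η) :
    1 / (2 * η) ≤ ‖Lser (1 : DirichletCharacter ℂ p) (1 + η)‖ := by
  classical
  have hp : p.Prime := Fact.out
  have hp0 : 0 < p := hp.pos
  have hs1 : 1 < 1 + η := by linarith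
  have hs := summable_rpow_shift hs1
  set Z : ℝ := ∑' i : ℕ, ((i : ℝ) + 1) ^ (-(1 + η)) with hZ
  have hcs : ∀ i : ℕ, cs (1 : DirichletCharacter ℂ p) i = if p ∣ i + 1 then 0 else 1 := by
    intro i
    unfold cs
    by_cases h : p ∣ i + 1
    · rw [if_pos h]
      have : ((i + 1 : ℕ) : ZMod p) = 0 := (ZMod.natCast_eq_zero_iff _ _).2 h
      rw [this]
      exact MulChar.map_zero _
    · rw [if_neg h]
      have : ((i + 1 : ℕ) : ZMod p) ≠ 0 := fun h' => h ((ZMod.natCast_eq_zero_iff _ _).1 h')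
      exact MulChar.one_apply (Ne.isUnit this)
  have h1 : Lser (1 : DirichletCharacter ℂ p) (1 + η)
      = ((Z - ∑' i : ℕ, (if p ∣ i + 1 then ((i : ℝ) + 1) ^ (-(1 + η)) else 0) : ℝ) : ℂ) := by
    unfold Lser
    rw [hZ, ← hs.tsum_sub, Complex.ofReal_tsum]
    · refine tsum_congr fun i => ?_
      rw [hcs i]
      split_ifs <;> simp
    · refine Summable.of_nonneg_of_le (fun i => ?_) (fun i => ?_) hs
      · split_ifs <;> positivity
      · split_ifs
        · exact le_rfl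
        · positivity
  have h2 : ∑' i : ℕ, (if p ∣ i + 1 then ((i : ℝ) + 1) ^ (-(1 + η)) else 0)
      = (p : ℝ) ^ (-(1 + η)) * Z := by
    have hinj : Function.Injective (fun j : ℕ => p * (j + 1) - 1) := by
      intro a b hab
      simp only at hab
      have ha : 0 < p * (a + 1) := by positivity
      have hb : 0 < p * (b + 1) := by positivity
      have : p * (a + 1) = p * (b + 1) := by omega
      have := Nat.eq_of_mul_eq_mul_left hp0 this
      omega
    rw [← hinj.tsum_eq]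
    · rw [hZ, ← tsum_mul_left]
      refine tsum_congr fun j => ?_
      have hj : p * (j + 1) - 1 + 1 = p * (j + 1) := by
        have : 0 < p * (j + 1) := by positivity
        omega
      rw [if_pos (by rw [hj]; exact Nat.dvd_mul_right p _)]
      have h3 : ((p * (j + 1) - 1 : ℕ) : ℝ) + 1 = p * ((j : ℝ) + 1) := by
        have : (((p * (j + 1) - 1 + 1 : ℕ)) : ℝ) = ((p * (j + 1) : ℕ) : ℝ) := by rw [hj]
        push_cast at this ⊢
        exact this
      rw [h3, Real.mul_rpow (by positivity) (by positivity)]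
    · intro i hi
      rw [Function.mem_support] at hi
      by_cases h : p ∣ i + 1
      · obtain ⟨m, hm⟩ := h
        have hm0 : 0 < m := by
          rcases Nat.eq_zero_or_pos m with h0 | h0
          · rw [h0, mul_zero] at hm; omega
          · exact h0
        refine ⟨m - 1, ?_⟩
        simp only
        rw [Nat.sub_add_cancel hm0, ← hm]
        omega
      · exact absurd (if_neg h) hi
  rw [h1, h2, Complex.norm_real, Real.norm_eq_abs]
  refine le_trans ?_ (le_abs_self _)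
  have hZ1 := tsum_rpow_ge η hη
  rw [← hZ] at hZ1
  have h3 : (p : ℝ) ^ (-(1 + η)) ≤ 1 / 2 := by
    have hp2 : (2 : ℝ) ≤ p := by exact_mod_cast hp.two_le
    rw [Real.rpow_neg (by positivity), one_div]
    apply inv_anti₀ (by norm_num)
    calc (2 : ℝ) ≤ p := hp2
      _ = (p : ℝ) ^ (1 : ℝ) := (Real.rpow_one _).symm
      _ ≤ (p : ℝ) ^ (1 + η) := Real.rpow_le_rpow_of_exponent_le (by linarith) (by linarith)
  have hZ0 : 0 ≤ Z := le_trans (by positivity) hZ1
  have h4 : (p : ℝ) ^ (-(1 + η)) * Z ≤ 1 / 2 * Z := mul_le_mul_of_nonneg_right h3 hZ0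
  have h5 : 1 / (2 * η) = 1 / 2 * (1 / η) := by field_simp
  rw [h5]
  linarith

/-- `log ‖L‖` as a sum over primes. -/
lemma log_norm_Lser (χ : DirichletCharacter ℂ p) {s : ℝ} (hs : 1 < s) :
    Real.log ‖Lser χ s‖
      = ∑' q : Nat.Primes, (-Complex.log (1 - χ ((q : ℕ) : ZMod p) * ((q : ℕ) : ℂ) ^ (-(s : ℂ)))).re := by
  have hs' : 1 < ((s : ℂ)).re := by simpa using hs
  have h1 := DirichletCharacter.LSeries_eulerProduct_exp_log χ hs'
  rw [← Lser_eq_LSeries χ hs, ← h1, Complex.norm_exp, Real.log_exp,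
    Complex.re_tsum (DirichletCharacter.summable_neg_log_one_sub_mul_prime_cpow χ hs')]

lemma norm_prime_term (χ : DirichletCharacter ℂ p) (s : ℝ) (q : Nat.Primes) :
    ‖χ ((q : ℕ) : ZMod p) * ((q : ℕ) : ℂ) ^ (-(s : ℂ))‖ ≤ ((q : ℕ) : ℝ) ^ (-s) := by
  rw [norm_mul, Complex.norm_natCast_cpow_of_pos q.2.pos]
  simp only [Complex.neg_re, Complex.ofReal_re]
  exact mul_le_of_le_one_left (by positivity) (χ.norm_le_one _)

lemma prime_rpow_le_half {s : ℝ} (hs : 1 < s) (q : Nat.Primes) :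
    ((q : ℕ) : ℝ) ^ (-s) ≤ 1 / 2 := by
  have hq2 : (2 : ℝ) ≤ (q : ℕ) := by exact_mod_cast q.2.two_le
  rw [Real.rpow_neg (by positivity), one_div]
  apply inv_anti₀ (by norm_num)
  calc (2 : ℝ) ≤ (q : ℕ) := hq2
    _ = ((q : ℕ) : ℝ) ^ (1 : ℝ) := (Real.rpow_one _).symm
    _ ≤ ((q : ℕ) : ℝ) ^ s := Real.rpow_le_rpow_of_exponent_le (by linarith) hs.le

lemma re_neg_log_le (w : ℂ) (hw : ‖w‖ ≤ 1 / 2) :
    (-Complex.log (1 - w)).re ≤ w.re + ‖w‖ ^ 2 := by
  have h1 := Complex.norm_log_one_add_sub_self_le (z := -w) (by rw [norm_neg]; linarith)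
  rw [norm_neg] at h1
  have h2 : ‖w‖ ^ 2 * (1 - ‖w‖)⁻¹ / 2 ≤ ‖w‖ ^ 2 := by
    have h3 : (1 - ‖w‖)⁻¹ ≤ 2 := by
      rw [inv_le_comm₀ (by linarith) (by norm_num)]
      linarith
    have h4 : 0 ≤ ‖w‖ ^ 2 := sq_nonneg _
    nlinarith
  have h3 := Complex.abs_re_le_norm (Complex.log (1 + -w) - -w)
  rw [Complex.sub_re, Complex.neg_re] at h3
  have h4 := neg_abs_le ((Complex.log (1 + -w)).re - -w.re)
  rw [Complex.neg_re, sub_eq_add_neg 1 w]
  linarith

lemma summable_primes_rpow {s : ℝ} (hs : 1 < s) :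
    Summable fun q : Nat.Primes => ((q : ℕ) : ℝ) ^ (-s) :=
  Nat.Primes.summable_rpow.2 (by linarith)

lemma tsum_primes_sq_le {s : ℝ} (hs : 1 < s) :
    ∑' q : Nat.Primes, (((q : ℕ) : ℝ) ^ (-s)) ^ 2 ≤ 1 := by
  have h1 := tail_bound 1 one_pos 1 le_rfl
  simp only [Nat.cast_one, Real.one_rpow, div_one] at h1
  have h2 : Summable fun i : ℕ => (((i + 1 : ℕ) : ℝ) + 1) ^ (-(1 + 1 : ℝ)) := by
    have := summable_rpow_shift (show (1 : ℝ) < 1 + 1 by norm_num)
    exact (summable_nat_add_iff (f := fun i : ℕ => ((i : ℝ) + 1) ^ (-(1 + 1 : ℝ))) 1).2 this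
  refine le_trans ?_ h1
  have hinj : Function.Injective (fun q : Nat.Primes => (q : ℕ) - 2) := by
    intro a b hab
    have ha := a.2.two_le
    have hb := b.2.two_le
    apply Subtype.ext
    simp only at hab
    omega
  refine Summable.tsum_le_tsum_of_inj (fun q : Nat.Primes => (q : ℕ) - 2) hinj
    (fun i _ => by positivity) (fun q => ?_) ?_ h2
  · have hq := q.2.two_le
    have h3 : (((q : ℕ) - 2 + 1 : ℕ) : ℝ) + 1 = (q : ℕ) := by
      have : ((q : ℕ) - 2 + 1 + 1 : ℕ) = (q : ℕ) := by omega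
      exact_mod_cast this
    rw [h3, ← Real.rpow_natCast, ← Real.rpow_mul (by positivity)]
    apply Real.rpow_le_rpow_of_exponent_le
    · exact_mod_cast q.2.one_lt.le
    · push_cast; linarith
  · refine Summable.of_nonneg_of_le (fun q => sq_nonneg _) (fun q => ?_) (summable_primes_rpow hs)
    have h3 := prime_rpow_le_half hs q
    have h4 : 0 ≤ ((q : ℕ) : ℝ) ^ (-s) := by positivity
    nlinarith

open Classical in
/-- sum over primes `≡ 1` -/
noncomputable def P1 (p : ℕ) (s : ℝ) : ℝ :=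
  ∑' q : Nat.Primes, if ((q : ℕ) : ZMod p) = 1 then ((q : ℕ) : ℝ) ^ (-s) else 0

lemma sum_log_norm_le {s : ℝ} (hs : 1 < s) :
    ∑ χ : DirichletCharacter ℂ p, Real.log ‖Lser χ s‖ ≤ (p - 1 : ℕ) * (P1 p s + 1) := by
  classical
  have hp : p.Prime := Fact.out
  have _ : NeZero p := ⟨hp.ne_zero⟩
  have hs' : 1 < ((s : ℂ)).re := by simpa using hs
  have h1 : ∀ χ : DirichletCharacter ℂ p, Real.log ‖Lser χ s‖
      ≤ ∑' q : Nat.Primes, ((χ ((q : ℕ) : ZMod p)).re * ((q : ℕ) : ℝ) ^ (-s)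
        + (((q : ℕ) : ℝ) ^ (-s)) ^ 2) := by
    intro χ
    rw [log_norm_Lser χ hs]
    have hsum1 := (Complex.hasSum_re
      (DirichletCharacter.summable_neg_log_one_sub_mul_prime_cpow χ hs').hasSum).summable
    refine hsum1.tsum_le_tsum (fun q => ?_) ?_
    · have h2 := norm_prime_term χ s q
      have h3 := prime_rpow_le_half hs q
      refine (re_neg_log_le _ (h2.trans h3)).trans ?_
      have h4 : (χ ((q : ℕ) : ZMod p) * ((q : ℕ) : ℂ) ^ (-(s : ℂ))).re
          = (χ ((q : ℕ) : ZMod p)).re * ((q : ℕ) : ℝ) ^ (-s) := by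
        have h5 : ((q : ℕ) : ℂ) ^ (-(s : ℂ)) = ((((q : ℕ) : ℝ) ^ (-s) : ℝ) : ℂ) := by
          rw [Complex.ofReal_cpow (by positivity)]
          push_cast
          rfl
        rw [h5, Complex.mul_re, Complex.ofReal_re, Complex.ofReal_im]
        ring
      rw [h4]
      have h6 : ‖χ ((q : ℕ) : ZMod p) * ((q : ℕ) : ℂ) ^ (-(s : ℂ))‖ ^ 2
          ≤ (((q : ℕ) : ℝ) ^ (-s)) ^ 2 := pow_le_pow_left₀ (norm_nonneg _) h2 2
      linarith
    · refine Summable.of_norm_bounded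
        (g := fun q : Nat.Primes => ((q : ℕ) : ℝ) ^ (-s) + ((q : ℕ) : ℝ) ^ (-s))
        ((summable_primes_rpow hs).add (summable_primes_rpow hs)) fun q => ?_
      have h3 := prime_rpow_le_half hs q
      have h4 : 0 ≤ ((q : ℕ) : ℝ) ^ (-s) := by positivity
      have h5 : |(χ ((q : ℕ) : ZMod p)).re| ≤ 1 :=
        (Complex.abs_re_le_norm _).trans (χ.norm_le_one _)
      refine (norm_add_le _ _).trans ?_
      rw [norm_mul, Real.norm_eq_abs, Real.norm_of_nonneg h4, Real.norm_of_nonneg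
        (sq_nonneg (((q : ℕ) : ℝ) ^ (-s)))]
      have h6 : |(χ ((q : ℕ) : ZMod p)).re| * ((q : ℕ) : ℝ) ^ (-s) ≤ ((q : ℕ) : ℝ) ^ (-s) :=
        mul_le_of_le_one_left h4 h5
      nlinarith
  refine (Finset.sum_le_sum fun χ _ => h1 χ).trans ?_
  rw [← Summable.tsum_finsetSum]
  · have h2 : ∀ q : Nat.Primes, ∑ χ : DirichletCharacter ℂ p,
        ((χ ((q : ℕ) : ZMod p)).re * ((q : ℕ) : ℝ) ^ (-s) + (((q : ℕ) : ℝ) ^ (-s)) ^ 2)
        = (p - 1 : ℕ) * ((if ((q : ℕ) : ZMod p) = 1 then ((q : ℕ) : ℝ) ^ (-s) else 0)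
          + (((q : ℕ) : ℝ) ^ (-s)) ^ 2) := by
      intro q
      rw [Finset.sum_add_distrib, ← Finset.sum_mul, ← Complex.re_sum,
        DirichletCharacter.sum_characters_eq, Finset.sum_const, card_univ, nsmul_eq_mul]
      have hcard : Fintype.card (DirichletCharacter ℂ p) = p - 1 := by
        rw [← Nat.card_eq_fintype_card,
          DirichletCharacter.card_eq_totient_of_hasEnoughRootsOfUnity ℂ p, Nat.totient_prime hp]
      rw [hcard, Nat.totient_prime hp]
      split_ifs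
      · rw [Complex.natCast_re]; ring
      · rw [Complex.zero_re]; ring
    rw [tsum_congr h2, tsum_mul_left]
    have h3 : Summable fun q : Nat.Primes =>
        (if ((q : ℕ) : ZMod p) = 1 then ((q : ℕ) : ℝ) ^ (-s) else 0) := by
      refine Summable.of_nonneg_of_le (fun q => ?_) (fun q => ?_) (summable_primes_rpow hs)
      · split_ifs <;> positivity
      · split_ifs
        · exact le_rfl
        · positivity
    have h4 : Summable fun q : Nat.Primes => (((q : ℕ) : ℝ) ^ (-s)) ^ 2 := by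
      refine Summable.of_nonneg_of_le (fun q => sq_nonneg _) (fun q => ?_) (summable_primes_rpow hs)
      have h3 := prime_rpow_le_half hs q
      have h4 : 0 ≤ ((q : ℕ) : ℝ) ^ (-s) := by positivity
      nlinarith
    rw [h3.tsum_add h4]
    have h5 := tsum_primes_sq_le hs
    have h6 : ∑' q : Nat.Primes, (if ((q : ℕ) : ZMod p) = 1 then ((q : ℕ) : ℝ) ^ (-s) else 0)
        = P1 p s := by
      unfold P1
      rfl
    rw [h6]
    gcongr
  · intro χ _
    refine Summable.of_norm_bounded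
        (g := fun q : Nat.Primes => ((q : ℕ) : ℝ) ^ (-s) + ((q : ℕ) : ℝ) ^ (-s))
        ((summable_primes_rpow hs).add (summable_primes_rpow hs)) fun q => ?_
    have h3 := prime_rpow_le_half hs q
    have h4 : 0 ≤ ((q : ℕ) : ℝ) ^ (-s) := by positivity
    have h5 : |(χ ((q : ℕ) : ZMod p)).re| ≤ 1 :=
      (Complex.abs_re_le_norm _).trans (χ.norm_le_one _)
    refine (norm_add_le _ _).trans ?_
    rw [norm_mul, Real.norm_eq_abs, Real.norm_of_nonneg h4, Real.norm_of_nonneg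
      (sq_nonneg (((q : ℕ) : ℝ) ^ (-s)))]
    have h6 : |(χ ((q : ℕ) : ZMod p)).re| * ((q : ℕ) : ℝ) ^ (-s) ≤ ((q : ℕ) : ℝ) ^ (-s) :=
      mul_le_of_le_one_left h4 h5
    nlinarith

end Pool.Agent.Cyclic
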