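import Mathlib
import Pool.Agent.Cyclic.PrimeSum

set_option autoImplicit false

namespace Pool.Agent.Cyclic

open Finset

/-- reciprocal sum of primes `q ≤ z`, `q ≡ 1 mod p` -/
noncomputable def Mrec (p z : ℕ) : ℝ :=
  ∑ q ∈ (range (z + 1)).filter (fun q => q.Prime ∧ q % p = 1), 1 / (q : ℝ)

lemma P1_le (p z : ℕ) (hp : 1 < p) (hz : 1 ≤ z) {η : ℝ} (hη : 0 < η) :
    P1 p (1 + η) ≤ Mrec p z + (z : ℝ) ^ (-η) / η := by
  classical
  set f : ℕ → ℝ := fun n => if n.Prime ∧ n % p = 1 then (n : ℝ) ^ (-(1 + η)) else 0 with hf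
  have hmod : ∀ n : ℕ, ((n : ZMod p) = 1 ↔ n % p = 1) := by
    intro n
    have := ZMod.natCast_eq_natCast_iff' n 1 p
    rw [Nat.cast_one, Nat.mod_eq_of_lt hp] at this
    exact this
  have h1 : P1 p (1 + η) = ∑' n : ℕ, f n := by
    unfold P1
    have h2 := tsum_subtype {n : ℕ | n.Prime}
      (fun n : ℕ => if ((n : ℕ) : ZMod p) = 1 then ((n : ℕ) : ℝ) ^ (-(1 + η)) else 0)
    refine Eq.trans h2 (tsum_congr fun n => ?_)
    by_cases hn : n.Prime
    · rw [Set.indicator_of_mem (by exact hn)]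
      simp only [hf, hn, true_and, hmod]
    · rw [Set.indicator_of_notMem (by exact hn)]
      simp only [hf, hn, false_and, if_false]
  have hsR : Summable fun n : ℕ => (n : ℝ) ^ (-(1 + η)) :=
    Real.summable_nat_rpow.2 (by linarith)
  have hs : Summable f := by
    refine Summable.of_nonneg_of_le (fun n => ?_) (fun n => ?_) hsR
    · simp only [hf]; split_ifs <;> positivity
    · simp only [hf]
      split_ifs
      · exact le_rfl
      · positivity
  rw [h1, ← hs.sum_add_tsum_nat_add (z + 1)]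
  have h2 : ∑ i ∈ range (z + 1), f i ≤ Mrec p z := by
    unfold Mrec
    rw [Finset.sum_filter]
    refine Finset.sum_le_sum fun n _ => ?_
    simp only [hf]
    split_ifs with h
    · have hn : (1 : ℝ) ≤ n := by exact_mod_cast h.1.one_lt.le
      rw [Real.rpow_neg (by positivity), one_div]
      apply inv_anti₀ (by positivity)
      calc (n : ℝ) = (n : ℝ) ^ (1 : ℝ) := (Real.rpow_one _).symm
        _ ≤ (n : ℝ) ^ (1 + η) := Real.rpow_le_rpow_of_exponent_le hn (by linarith)
    · exact le_rfl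
  have h3 : ∑' i : ℕ, f (i + (z + 1)) ≤ (z : ℝ) ^ (-η) / η := by
    refine le_trans ?_ (tail_bound η hη z hz)
    have hs2 : Summable fun i : ℕ => (((i + z : ℕ) : ℝ) + 1) ^ (-(1 + η)) := by
      have := (summable_nat_add_iff (z + 1)).2 hsR
      refine this.congr fun i => ?_
      congr 1
      push_cast
      ring
    refine Summable.tsum_le_tsum (fun i => ?_) ((summable_nat_add_iff (z + 1)).2 hs) hs2
    simp only [hf]
    split_ifs
    · apply le_of_eq
      congr 1
      push_cast
      ring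
    · positivity
  linarith

section
variable {p : ℕ} [Fact p.Prime]

lemma quad_unique (χ₁ χ₂ : DirichletCharacter ℂ p) (h1 : χ₁ ^ 2 = 1) (h1' : χ₁ ≠ 1)
    (h2 : χ₂ ^ 2 = 1) (h2' : χ₂ ≠ 1) : χ₁ = χ₂ := by
  obtain ⟨g, hg⟩ := IsCyclic.exists_generator (α := (ZMod p)ˣ)
  have key : ∀ χ : DirichletCharacter ℂ p, χ ^ 2 = 1 → χ ≠ 1 → χ (g : ZMod p) = -1 := by
    intro χ h h'
    rcases MulChar.isQuadratic_iff_sq_eq_one.mpr h (g : ZMod p) with h3 | h3 | h3
    · exact absurd h3 (IsUnit.ne_zero (g.isUnit.map χ))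
    · exfalso
      apply h'
      apply (MulChar.eq_iff hg χ 1).2
      rw [h3, MulChar.one_apply_coe]
    · exact h3
  apply (MulChar.eq_iff hg χ₁ χ₂).2
  rw [key χ₁ h1 h1', key χ₂ h2 h2']

lemma P1_lower {η : ℝ} (hη : 0 < η) (hη1 : 2 * p * η ≤ (1 / 4 : ℝ) ^ (4 * (p + 2))) :
    Real.log (1 / (2 * η)) - (p - 1 : ℕ) * Real.log (1024 * (p : ℝ) ^ 4)
      - 4 * (p + 2) * Real.log 4 ≤ (p - 1 : ℕ) * (P1 p (1 + η) + 1) := by
  classical
  have hp : p.Prime := Fact.out
  have hp1 : (1 : ℝ) ≤ p := by exact_mod_cast hp.one_lt.le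
  have hηle : η ≤ 1 := by
    have h1 : (1 / 4 : ℝ) ^ (4 * (p + 2)) ≤ 1 := pow_le_one₀ (by norm_num) (by norm_num)
    nlinarith
  refine le_trans ?_ (sum_log_norm_le (p := p) (show 1 < 1 + η by linarith))
  rw [← Finset.add_sum_erase _ _ (mem_univ (1 : DirichletCharacter ℂ p))]
  have h1 : Real.log (1 / (2 * η)) ≤ Real.log ‖Lser (1 : DirichletCharacter ℂ p) (1 + η)‖ :=
    Real.log_le_log (by positivity) (Lser_one_lower hη)
  have hlog0 : 0 ≤ Real.log (1024 * (p : ℝ) ^ 4) := Real.log_nonneg (by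
    have : (1 : ℝ) ≤ (p : ℝ) ^ 4 := one_le_pow₀ hp1
    linarith)
  have hlog4 : 0 ≤ Real.log 4 := Real.log_nonneg (by norm_num)
  set E : Finset (DirichletCharacter ℂ p) := univ.erase 1 with hE
  have h2 : ∀ χ ∈ E, -Real.log (1024 * (p : ℝ) ^ 4)
      - (if χ ^ 2 = 1 then 4 * (p + 2) * Real.log 4 else 0) ≤ Real.log ‖Lser χ (1 + η)‖ := by
    intro χ hχ
    have hχ1 : χ ≠ 1 := Finset.ne_of_mem_erase hχ
    by_cases h : χ ^ 2 = 1
    · rw [if_pos h]
      have h3 := Lser_lower_real χ hχ1 h hη hη1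
      have h4 := Real.log_le_log (by positivity) h3
      rw [Real.log_pow, one_div, Real.log_inv] at h4
      push_cast at h4
      linarith
    · rw [if_neg h]
      have h3 := Lser_lower_complex χ h hη hηle
      have h4 := Real.log_le_log (by positivity) h3
      rw [one_div, Real.log_inv] at h4
      linarith
  have h3 := Finset.sum_le_sum h2
  rw [Finset.sum_sub_distrib, Finset.sum_const, nsmul_eq_mul, ← Finset.sum_filter,
    Finset.sum_const, nsmul_eq_mul] at h3
  have hcardE : (E.card : ℝ) ≤ (p - 1 : ℕ) := by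
    have hcard : Fintype.card (DirichletCharacter ℂ p) = p - 1 := by
      have _ : NeZero p := ⟨hp.ne_zero⟩
      rw [← Nat.card_eq_fintype_card,
        DirichletCharacter.card_eq_totient_of_hasEnoughRootsOfUnity ℂ p, Nat.totient_prime hp]
    have : E.card ≤ p - 1 := by
      rw [hE, ← hcard]
      exact (Finset.card_le_univ _)
    exact_mod_cast this
  have hcardQ : ((E.filter (fun χ => χ ^ 2 = 1)).card : ℝ) ≤ 1 := by
    have : (E.filter (fun χ => χ ^ 2 = 1)).card ≤ 1 := by
      rw [Finset.card_le_one]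
      intro a ha b hb
      rw [mem_filter] at ha hb
      exact quad_unique a b ha.2 (Finset.ne_of_mem_erase ha.1) hb.2 (Finset.ne_of_mem_erase hb.1)
    exact_mod_cast this
  have h4 : (E.card : ℝ) * Real.log (1024 * (p : ℝ) ^ 4)
      ≤ (p - 1 : ℕ) * Real.log (1024 * (p : ℝ) ^ 4) := mul_le_mul_of_nonneg_right hcardE hlog0
  have h5 : ((E.filter (fun χ => χ ^ 2 = 1)).card : ℝ) * (4 * (p + 2) * Real.log 4)
      ≤ 1 * (4 * (p + 2) * Real.log 4) := mul_le_mul_of_nonneg_right hcardQ (by positivity)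
  linarith

end

/-- **Uniform lower bound** for the reciprocal sum of primes `≡ 1 mod p`. -/
theorem recip_lower (p z : ℕ) (hp : p.Prime) (hp3 : 3 ≤ p)
    (h : 100 * p * Real.log p ≤ Real.log (Real.log z)) :
    Real.log (Real.log z) / (2 * p) ≤ Mrec p z := by
  have _ : Fact p.Prime := ⟨hp⟩
  have hp3' : (3 : ℝ) ≤ p := by exact_mod_cast hp3
  have hlogp : 1 ≤ Real.log p := by
    have h1 : Real.exp 1 ≤ p := by
      have := Real.exp_one_lt_d9
      linarith
    have h2 := Real.log_le_log (Real.exp_pos 1) h1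
    rwa [Real.log_exp] at h2
  set ℓ : ℝ := Real.log (Real.log z) with hℓ
  have hℓ300 : 300 ≤ ℓ := by nlinarith
  have hlogz : 0 < Real.log z := by
    by_contra hcon
    push Not at hcon
    -- log z ≤ 0 with z natural means log z = 0
    have h1 : Real.log z = 0 := le_antisymm hcon (Real.log_natCast_nonneg z)
    rw [hℓ, h1, Real.log_zero] at hℓ300
    linarith
  have hz1 : 1 ≤ z := by
    rcases Nat.eq_zero_or_pos z with h0 | h0
    · rw [h0] at hlogz; simp at hlogz
    · exact h0
  have hexpℓ : Real.exp ℓ = Real.log z := Real.exp_log hlogz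
  set η : ℝ := 2 * ℓ / Real.log z with hη
  have hℓ0 : 0 < ℓ := by linarith
  have hη0 : 0 < η := by positivity
  -- the condition for the real character
  have hcond : 2 * p * η ≤ (1 / 4 : ℝ) ^ (4 * (p + 2)) := by
    have h1 : Real.log (2 * p * η) ≤ Real.log ((1 / 4 : ℝ) ^ (4 * (p + 2))) := by
      rw [Real.log_pow, one_div, Real.log_inv, hη, ← hexpℓ]
      have h2 : Real.log (2 * p * (2 * ℓ / Real.exp ℓ)) = Real.log 4 + Real.log p + Real.log ℓ - ℓ := by
        rw [show 2 * (p : ℝ) * (2 * ℓ / Real.exp ℓ) = 4 * p * ℓ / Real.exp ℓ by ring,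
          Real.log_div (by positivity) (Real.exp_pos _).ne', Real.log_exp,
          Real.log_mul (by positivity) hℓ0.ne', Real.log_mul (by norm_num) (by positivity)]
      rw [h2]
      have h4 : Real.log 4 ≤ 2 := by
        have : Real.log 4 ≤ Real.log (Real.exp 2) := by
          apply Real.log_le_log (by norm_num)
          have := Real.exp_one_gt_d9
          have h5 : Real.exp 2 = Real.exp 1 * Real.exp 1 := by rw [← Real.exp_add]; norm_num
          rw [h5]
          nlinarith
        rwa [Real.log_exp] at this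
      have h4' : 0 ≤ Real.log 4 := Real.log_nonneg (by norm_num)
      have h5 : Real.log ℓ ≤ ℓ / 4 := by
        have h6 : Real.log (ℓ / 8) ≤ ℓ / 8 - 1 := Real.log_le_sub_one_of_pos (by positivity)
        rw [Real.log_div hℓ0.ne' (by norm_num)] at h6
        have h7 : Real.log 8 ≤ 3 := by
          have : Real.log 8 ≤ Real.log (Real.exp 3) := by
            apply Real.log_le_log (by norm_num)
            have := Real.exp_one_gt_d9
            have h5 : Real.exp 3 = Real.exp 1 * Real.exp 1 * Real.exp 1 := by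
              rw [← Real.exp_add, ← Real.exp_add]; norm_num
            rw [h5]
            nlinarith [mul_pos (Real.exp_pos 1) (Real.exp_pos 1)]
          rwa [Real.log_exp] at this
        linarith
      push_cast
      have h6 : (p : ℝ) ≤ p * Real.log p := by nlinarith
      have h7 : Real.log p ≤ p * Real.log p := by nlinarith
      nlinarith [mul_nonneg (show (0 : ℝ) ≤ p by linarith) (sub_nonneg.2 h4)]
    exact (Real.log_le_log_iff (by positivity) (by positivity)).1 h1
  have h1 := P1_lower (p := p) hη0 hcond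
  have h2 := P1_le p z hp.one_lt hz1 hη0
  -- tail term
  have htail : (z : ℝ) ^ (-η) / η ≤ 1 := by
    have hz0 : (0 : ℝ) < z := by exact_mod_cast hz1
    have h3 : (z : ℝ) ^ (-η) = Real.exp (-2 * ℓ) := by
      rw [Real.rpow_def_of_pos hz0, hη]
      congr 1
      field_simp
    rw [div_le_one hη0, h3, hη, ← hexpℓ, le_div_iff₀ (Real.exp_pos _), ← Real.exp_add]
    have h4 : Real.exp (-2 * ℓ + ℓ) ≤ 1 := Real.exp_le_one_iff.2 (by linarith)
    linarith
  have h3 : Real.log (1 / (2 * η)) = ℓ - Real.log (4 * ℓ) := by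
    rw [hη, ← hexpℓ]
    rw [show 1 / (2 * (2 * ℓ / Real.exp ℓ)) = Real.exp ℓ / (4 * ℓ) by field_simp; norm_num]
    rw [Real.log_div (Real.exp_pos _).ne' (by positivity), Real.log_exp]
  rw [h3] at h1
  have hp0 : (0 : ℝ) < p := by linarith
  have hpn : ((p - 1 : ℕ) : ℝ) = p - 1 := by
    rw [Nat.cast_sub (by omega), Nat.cast_one]
  rw [hpn] at h1
  have hlog1024 : Real.log (1024 * (p : ℝ) ^ 4) ≤ 7 + 4 * Real.log p := by
    rw [Real.log_mul (by norm_num) (by positivity), Real.log_pow]
    have h4 : Real.log 1024 ≤ 7 := by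
      have h5 : Real.log 1024 = 10 * Real.log 2 := by
        rw [show (1024 : ℝ) = 2 ^ 10 by norm_num, Real.log_pow]; norm_num
      rw [h5]
      have := Real.log_two_lt_d9
      linarith
    push_cast
    linarith
  have h4 : Real.log 4 ≤ 1.4 := by
    have h5 : Real.log 4 = 2 * Real.log 2 := by
      rw [show (4 : ℝ) = 2 ^ 2 by norm_num, Real.log_pow]; norm_num
    rw [h5]
    have := Real.log_two_lt_d9
    linarith
  have h5 : Real.log (4 * ℓ) ≤ ℓ / 8 := by
    have h6 : Real.log (4 * ℓ / 100) ≤ 4 * ℓ / 100 - 1 := Real.log_le_sub_one_of_pos (by positivity)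
    rw [Real.log_div (by positivity) (by norm_num)] at h6
    have h7 : Real.log 100 ≤ 7 := by
      have h8 : Real.log 100 ≤ Real.log 1024 := Real.log_le_log (by norm_num) (by norm_num)
      have h5 : Real.log 1024 = 10 * Real.log 2 := by
        rw [show (1024 : ℝ) = 2 ^ 10 by norm_num, Real.log_pow]; norm_num
      have := Real.log_two_lt_d9
      linarith
    linarith
  -- final computation
  have hM : P1 p (1 + η) ≤ Mrec p z + 1 := by linarith
  have h6 : (p - 1) * (P1 p (1 + η) + 1) ≤ (p - 1) * (Mrec p z + 2) := by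
    apply mul_le_mul_of_nonneg_left _ (by linarith)
    linarith
  have h7 : (p - 1) * Real.log (1024 * (p : ℝ) ^ 4) ≤ p * (7 + 4 * Real.log p) := by
    have h8 : 0 ≤ 7 + 4 * Real.log p := by linarith
    calc (p - 1) * Real.log (1024 * (p : ℝ) ^ 4) ≤ (p - 1) * (7 + 4 * Real.log p) :=
          mul_le_mul_of_nonneg_left hlog1024 (by linarith)
      _ ≤ p * (7 + 4 * Real.log p) := by nlinarith
  have h8 : 4 * ((p : ℝ) + 2) * Real.log 4 ≤ 4 * (p + 2) * 1.4 :=
    mul_le_mul_of_nonneg_left h4 (by positivity)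
  have hM0 : 0 ≤ Mrec p z := Finset.sum_nonneg fun _ _ => by positivity
  have h9 : (p - 1) * (Mrec p z + 2) ≤ p * (Mrec p z + 2) := by nlinarith
  have h10 : ℓ / 2 ≤ p * Mrec p z := by
    have hpl : (p : ℝ) ≤ p * Real.log p := by nlinarith
    nlinarith
  rw [div_le_iff₀ (by positivity)]
  linarith

end Pool.Agent.Cyclic
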