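import Mathlib
import Pool.Agent.Cyclic.SelbergS
import Pool.Agent.Cyclic.RecipLower

set_option autoImplicit false

namespace Pool.Agent.Cyclic

open Finset

/-- Brun–Titchmarsh type bound -/
theorem bt (p D X Y : ℕ) (hp : p.Prime) (hD : 2 ≤ D) :
    (((Ioc X (X + Y)).filter (fun j => (p * j + 1).Prime)).card : ℝ)
      ≤ 4 * Y / Real.log D + (D : ℝ) ^ 4 + D := by
  classical
  have h1 : (Ioc X (X + Y)).filter (fun j => (p * j + 1).Prime)
      ⊆ (Ioc X (X + Y)).filter (fun j => Rough p D j) ∪ Icc 1 D := by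
    intro j hj
    rw [mem_filter, mem_Ioc] at hj
    rw [mem_union, mem_filter, mem_Ioc, mem_Icc]
    by_cases h : p * j + 1 ≤ D
    · right
      have : j ≤ p * j := Nat.le_mul_of_pos_left j hp.pos
      omega
    · left
      refine ⟨hj.1, ?_⟩
      intro l hl hlD _ hdv
      have := (Nat.prime_dvd_prime_iff_eq hl hj.2).1 hdv
      omega
  have h2 := Finset.card_le_card h1
  have h3 := (h2.trans (Finset.card_union_le _ _))
  have h4 := selberg_ap' p D X Y hp hD
  have h5 : (Icc 1 D).card = D := by simp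
  rw [h5] at h3
  have h6 : (((Ioc X (X + Y)).filter (fun j => (p * j + 1).Prime)).card : ℝ)
      ≤ (((Ioc X (X + Y)).filter (fun j => Rough p D j)).card : ℝ) + D := by exact_mod_cast h3
  linarith

/-- dyadic block bound -/
lemma bt_dyadic (p i : ℕ) (hp : p.Prime) :
    (((Ioc (2 ^ i) (2 ^ i + 2 ^ i)).filter (fun j => (p * j + 1).Prime)).card : ℝ)
      ≤ 130 * 2 ^ i / ((i : ℝ) + 1) := by
  have hi0 : (0 : ℝ) < (i : ℝ) + 1 := by positivity
  by_cases hi : i < 8
  · have h1 : (((Ioc (2 ^ i) (2 ^ i + 2 ^ i)).filter (fun j => (p * j + 1).Prime)).card : ℝ)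
        ≤ 2 ^ i := by
      have : ((Ioc (2 ^ i) (2 ^ i + 2 ^ i)).filter (fun j => (p * j + 1).Prime)).card ≤ 2 ^ i := by
        refine (Finset.card_filter_le _ _).trans ?_
        simp
      exact_mod_cast this
    refine h1.trans ?_
    rw [le_div_iff₀ hi0]
    have h2 : (i : ℝ) + 1 ≤ 8 := by
      have : i + 1 ≤ 8 := by omega
      exact_mod_cast this
    have h3 : (0 : ℝ) < 2 ^ i := by positivity
    nlinarith
  · push Not at hi
    set k : ℕ := i / 8 with hk
    have hk1 : 1 ≤ k := by omega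
    have hki : 8 * k ≤ i := by omega
    have hik : i + 1 ≤ 16 * k := by omega
    have h1 := bt p (2 ^ k) (2 ^ i) (2 ^ i) hp (by
      calc 2 = 2 ^ 1 := by norm_num
        _ ≤ 2 ^ k := Nat.pow_le_pow_right (by norm_num) hk1)
    refine h1.trans ?_
    push_cast
    rw [Real.log_pow]
    have hk0 : (0 : ℝ) < k := by exact_mod_cast hk1
    have hik' : (i : ℝ) + 1 ≤ 16 * k := by exact_mod_cast hik
    have hlog2 : (0.69 : ℝ) ≤ Real.log 2 := by
      have := Real.log_two_gt_d9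
      linarith
    have e1 : 4 * (2 : ℝ) ^ i / (k * Real.log 2) ≤ 95 * 2 ^ i / ((i : ℝ) + 1) := by
      rw [div_le_div_iff₀ (by positivity) hi0]
      have h2i : (0 : ℝ) < 2 ^ i := by positivity
      have h3 : 4 * ((i : ℝ) + 1) ≤ 95 * (k * Real.log 2) := by nlinarith
      nlinarith
    have e2 : ((2 : ℝ) ^ k) ^ 4 + 2 ^ k ≤ 35 * 2 ^ i / ((i : ℝ) + 1) := by
      rw [le_div_iff₀ hi0]
      have h3 : (k : ℝ) ≤ 2 ^ k := by exact_mod_cast (Nat.lt_two_pow_self).le
      have h4 : (2 : ℝ) ^ k ≤ (2 ^ k) ^ 4 := by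
        have : (1 : ℝ) ≤ 2 ^ k := one_le_pow₀ (by norm_num)
        calc (2 : ℝ) ^ k = (2 ^ k) ^ 1 := (pow_one _).symm
          _ ≤ (2 ^ k) ^ 4 := pow_le_pow_right₀ this (by norm_num)
      have h5 : ((2 : ℝ) ^ k) ^ 4 * 2 ^ k ≤ 2 ^ i := by
        rw [← pow_mul, ← pow_add]
        exact pow_le_pow_right₀ (by norm_num) (by omega)
      have h6 : (0 : ℝ) < (2 ^ k) ^ 4 := by positivity
      calc (((2 : ℝ) ^ k) ^ 4 + 2 ^ k) * ((i : ℝ) + 1)
          ≤ (2 * (2 ^ k) ^ 4) * (16 * 2 ^ k) := by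
            apply mul_le_mul _ _ hi0.le (by positivity)
            · linarith
            · linarith
        _ = 32 * ((2 ^ k) ^ 4 * 2 ^ k) := by ring
        _ ≤ 35 * 2 ^ i := by nlinarith
    have e3 : 130 * (2 : ℝ) ^ i / ((i : ℝ) + 1)
        = 95 * 2 ^ i / ((i : ℝ) + 1) + 35 * 2 ^ i / ((i : ℝ) + 1) := by ring
    rw [e3]
    linarith

/-- the sum over `j` -/
noncomputable def Bsum (p N : ℕ) : ℝ :=
  ∑ j ∈ (Icc 1 N).filter (fun j => (p * j + 1).Prime), 1 / ((p : ℝ) * j)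

lemma Bsum_dyadic (p : ℕ) (hp : p.Prime) (I : ℕ) :
    Bsum p (2 ^ I) ≤ (1 + 130 * ∑ i ∈ range I, 1 / ((i : ℝ) + 1)) / p := by
  have hp0 : (0 : ℝ) < p := by exact_mod_cast hp.pos
  induction I with
  | zero =>
    unfold Bsum
    simp only [pow_zero, range_zero, sum_empty, mul_zero, add_zero]
    calc ∑ j ∈ (Icc 1 1).filter (fun j => (p * j + 1).Prime), 1 / ((p : ℝ) * (j : ℕ))
        ≤ ∑ j ∈ (Icc 1 1 : Finset ℕ), 1 / ((p : ℝ) * (j : ℕ)) :=
          Finset.sum_le_sum_of_subset_of_nonneg (Finset.filter_subset _ _)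
            (fun _ _ _ => by positivity)
      _ = 1 / p := by simp
  | succ I ih =>
    have h1 : (Icc 1 (2 ^ (I + 1))).filter (fun j => (p * j + 1).Prime)
        = (Icc 1 (2 ^ I)).filter (fun j => (p * j + 1).Prime) ∪
          (Ioc (2 ^ I) (2 ^ I + 2 ^ I)).filter (fun j => (p * j + 1).Prime) := by
      rw [← Finset.filter_union]
      congr 1
      ext j
      rw [mem_union, mem_Icc, mem_Icc, mem_Ioc, pow_succ]
      have : 0 < 2 ^ I := by positivity
      omega
    have h2 : Bsum p (2 ^ (I + 1)) ≤ Bsum p (2 ^ I) +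
        ∑ j ∈ (Ioc (2 ^ I) (2 ^ I + 2 ^ I)).filter (fun j => (p * j + 1).Prime), 1 / ((p : ℝ) * j) := by
      unfold Bsum
      rw [h1]
      have hd : Disjoint ((Icc 1 (2 ^ I)).filter (fun j => (p * j + 1).Prime))
          ((Ioc (2 ^ I) (2 ^ I + 2 ^ I)).filter (fun j => (p * j + 1).Prime)) := by
        rw [Finset.disjoint_left]
        intro j hj hj'
        rw [mem_filter, mem_Icc] at hj
        rw [mem_filter, mem_Ioc] at hj'
        omega
      rw [Finset.sum_union hd]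
    have h3 : ∑ j ∈ (Ioc (2 ^ I) (2 ^ I + 2 ^ I)).filter (fun j => (p * j + 1).Prime),
        1 / ((p : ℝ) * j) ≤ 130 * (1 / ((I : ℝ) + 1)) / p := by
      have h4 : ∀ j ∈ (Ioc (2 ^ I) (2 ^ I + 2 ^ I)).filter (fun j => (p * j + 1).Prime),
          1 / ((p : ℝ) * j) ≤ 1 / ((p : ℝ) * 2 ^ I) := by
        intro j hj
        rw [mem_filter, mem_Ioc] at hj
        apply one_div_le_one_div_of_le (by positivity)
        apply mul_le_mul_of_nonneg_left _ hp0.le
        exact_mod_cast hj.1.1.le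
      refine (Finset.sum_le_card_nsmul _ _ _ h4).trans ?_
      rw [nsmul_eq_mul]
      calc (((Ioc (2 ^ I) (2 ^ I + 2 ^ I)).filter (fun j => (p * j + 1).Prime)).card : ℝ)
            * (1 / ((p : ℝ) * 2 ^ I))
          ≤ (130 * 2 ^ I / ((I : ℝ) + 1)) * (1 / ((p : ℝ) * 2 ^ I)) := by
            apply mul_le_mul_of_nonneg_right (bt_dyadic p I hp) (by positivity)
        _ = 130 * (1 / ((I : ℝ) + 1)) / p := by field_simp
    rw [Finset.sum_range_succ]
    refine h2.trans ((add_le_add ih h3).trans (le_of_eq ?_))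
    field_simp
    ring

/-- uniform upper bound for the sum over `j ≤ 2^I` -/
lemma Bsum_le (p : ℕ) (hp : p.Prime) (I : ℕ) :
    Bsum p (2 ^ I) ≤ (131 + 130 * Real.log I) / p := by
  refine (Bsum_dyadic p hp I).trans ?_
  have hp0 : (0 : ℝ) < p := by exact_mod_cast hp.pos
  apply div_le_div_of_nonneg_right _ hp0.le
  have h1 : ∑ i ∈ range I, 1 / ((i : ℝ) + 1) = ((harmonic I : ℚ) : ℝ) := by
    unfold harmonic
    push_cast
    exact Finset.sum_congr rfl fun i _ => by rw [one_div]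
  have h2 := harmonic_le_one_add_log I
  rw [h1]
  linarith

lemma Bsum_mono (p : ℕ) {M N : ℕ} (h : M ≤ N) : Bsum p M ≤ Bsum p N := by
  unfold Bsum
  apply Finset.sum_le_sum_of_subset_of_nonneg
  · apply Finset.filter_subset_filter
    exact Finset.Icc_subset_Icc_right h
  · intro _ _ _; positivity

end Pool.Agent.Cyclic
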