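import Mathlib
import Pool.Agent.Cyclic.Selberg
import Pool.Agent.Cyclic.RecipLower

set_option autoImplicit false

namespace Pool.Agent.Cyclic

open Finset

/-- number of multiples of `d` in an interval -/
lemma count_mult (X Y d : ℕ) (hd : 0 < d) :
    |(((Ioc X (X + Y)).filter (fun m => d ∣ m)).card : ℝ) - Y / d| ≤ 1 := by
  have h := count_class X Y d 0 hd
  have h2 : (Ioc X (X + Y)).filter (fun m => m ≡ 0 [MOD d])
      = (Ioc X (X + Y)).filter (fun m => d ∣ m) := by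
    apply Finset.filter_congr
    intro m _
    rw [Nat.modEq_zero_iff_dvd]
  rw [h2] at h
  exact h

lemma count_mult_le (X Y d : ℕ) (hd : 0 < d) :
    (((Ioc X (X + Y)).filter (fun m => d ∣ m)).card : ℝ) ≤ Y / d + 1 := by
  have := (abs_le.1 (count_mult X Y d hd)).2
  linarith

/-- Turán's variance inequality, sifted form -/
lemma turan (Q : Finset ℕ) (hQ : ∀ q ∈ Q, q.Prime) (X Y : ℕ) :
    (((Ioc X (X + Y)).filter (fun m => ∀ q ∈ Q, ¬ q ∣ m)).card : ℝ)
        * (∑ q ∈ Q, 1 / (q : ℝ)) ^ 2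
      ≤ Y * (∑ q ∈ Q, 1 / (q : ℝ)) + 3 * (Q.card : ℝ) ^ 2 := by
  classical
  set M : ℝ := ∑ q ∈ Q, 1 / (q : ℝ) with hM
  set J := Ioc X (X + Y) with hJ
  set w : ℕ → ℝ := fun m => ∑ q ∈ Q, if q ∣ m then (1 : ℝ) else 0 with hw
  have hM0 : 0 ≤ M := Finset.sum_nonneg fun _ _ => by positivity
  have hMQ : M ≤ Q.card := by
    rw [hM, Finset.card_eq_sum_ones]
    push_cast
    apply Finset.sum_le_sum
    intro q hq
    have : (1 : ℝ) ≤ q := by exact_mod_cast (hQ q hq).one_lt.le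
    rw [div_le_one (by linarith)]
    exact this
  -- first moment
  have hfirst : (Y : ℝ) * M - Q.card ≤ ∑ m ∈ J, w m := by
    rw [hw, Finset.sum_comm]
    have h1 : ∀ q ∈ Q, (Y : ℝ) * (1 / (q : ℝ)) - 1 ≤ ∑ m ∈ J, (if q ∣ m then (1 : ℝ) else 0) := by
      intro q hq
      rw [← Finset.sum_filter, Finset.sum_const, nsmul_eq_mul, mul_one]
      have := (abs_le.1 (count_mult X Y q (hQ q hq).pos)).1
      rw [mul_one_div]
      linarith
    have h2 := Finset.sum_le_sum h1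
    rw [Finset.sum_sub_distrib, ← Finset.mul_sum, ← hM, Finset.sum_const, nsmul_eq_mul, mul_one] at h2
    exact h2
  -- second moment
  have hsecond : ∑ m ∈ J, (w m) ^ 2 ≤ (Y : ℝ) * M ^ 2 + Y * M + (Q.card : ℝ) ^ 2 := by
    have h1 : ∀ m, (w m) ^ 2 = ∑ q ∈ Q, ∑ q' ∈ Q, (if q ∣ m ∧ q' ∣ m then (1 : ℝ) else 0) := by
      intro m
      rw [hw, sq, Finset.sum_mul_sum]
      refine Finset.sum_congr rfl fun q _ => Finset.sum_congr rfl fun q' _ => ?_
      by_cases h : q ∣ m <;> by_cases h' : q' ∣ m <;> simp [h, h']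
    rw [Finset.sum_congr rfl (fun m _ => h1 m), Finset.sum_comm]
    have h2 : ∀ q ∈ Q, ∑ m ∈ J, ∑ q' ∈ Q, (if q ∣ m ∧ q' ∣ m then (1 : ℝ) else 0)
        ≤ ∑ q' ∈ Q, ((Y : ℝ) * (1 / q * (1 / q')) + (if q = q' then (Y : ℝ) * (1 / q) else 0) + 1) := by
      intro q hq
      rw [Finset.sum_comm]
      apply Finset.sum_le_sum
      intro q' hq'
      rw [← Finset.sum_filter, Finset.sum_const, nsmul_eq_mul, mul_one]
      have hq0 : (0 : ℝ) < q := by exact_mod_cast (hQ q hq).pos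
      have hq'0 : (0 : ℝ) < q' := by exact_mod_cast (hQ q' hq').pos
      by_cases hqq : q = q'
      · subst hqq
        have h3 : J.filter (fun m => q ∣ m ∧ q ∣ m) = J.filter (fun m => q ∣ m) := by
          apply Finset.filter_congr; intro m _; exact and_self_iff
        rw [h3]
        have := count_mult_le X Y q (hQ q hq).pos
        rw [if_pos rfl]
        have h4 : 0 ≤ (Y : ℝ) * (1 / q * (1 / q)) := by positivity
        have h5 : (Y : ℝ) / q = Y * (1 / q) := by ring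
        rw [h5] at this
        linarith
      · have h3 : J.filter (fun m => q ∣ m ∧ q' ∣ m) = J.filter (fun m => q * q' ∣ m) := by
          apply Finset.filter_congr
          intro m _
          have hc : Nat.Coprime q q' := (Nat.coprime_primes (hQ q hq) (hQ q' hq')).2 hqq
          exact ⟨fun h => Nat.Coprime.mul_dvd_of_dvd_of_dvd hc h.1 h.2,
            fun h => ⟨(Nat.dvd_mul_right q q').trans h, (Nat.dvd_mul_left q' q).trans h⟩⟩
        rw [h3, if_neg hqq]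
        have := count_mult_le X Y (q * q') (Nat.mul_pos (hQ q hq).pos (hQ q' hq').pos)
        push_cast at this
        have h5 : (Y : ℝ) * (1 / q * (1 / q')) = Y / (q * q') := by field_simp
        rw [h5]
        linarith
    refine (Finset.sum_le_sum h2).trans (le_of_eq ?_)
    have h3 : ∀ q ∈ Q, ∑ q' ∈ Q, ((Y : ℝ) * (1 / q * (1 / q')) +
        (if q = q' then (Y : ℝ) * (1 / q) else 0) + 1)
        = (Y : ℝ) * (1 / q * M) + Y * (1 / q) + Q.card := by
      intro q hq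
      rw [Finset.sum_add_distrib, Finset.sum_add_distrib, ← Finset.mul_sum, ← Finset.mul_sum, ← hM,
        Finset.sum_ite_eq Q q, if_pos hq, Finset.sum_const, nsmul_eq_mul, mul_one]
    rw [Finset.sum_congr rfl h3, Finset.sum_add_distrib, Finset.sum_add_distrib, ← Finset.mul_sum,
      ← Finset.sum_mul, ← Finset.mul_sum, ← hM, Finset.sum_const, nsmul_eq_mul]
    ring
  -- variance
  have hvar : ∑ m ∈ J, (w m - M) ^ 2 ≤ Y * M + 3 * (Q.card : ℝ) ^ 2 := by
    have h1 : ∑ m ∈ J, (w m - M) ^ 2 = ∑ m ∈ J, (w m) ^ 2 - 2 * M * ∑ m ∈ J, w m + Y * M ^ 2 := by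
      have h2 : ∀ m ∈ J, (w m - M) ^ 2 = (w m) ^ 2 - 2 * M * w m + M ^ 2 := fun m _ => by ring
      rw [Finset.sum_congr rfl h2, Finset.sum_add_distrib, Finset.sum_sub_distrib, ← Finset.mul_sum,
        Finset.sum_const, nsmul_eq_mul]
      simp [hJ]
    rw [h1]
    have hQ0 : (0 : ℝ) ≤ Q.card := Nat.cast_nonneg _
    nlinarith
  refine le_trans ?_ hvar
  have h1 : ∀ m ∈ J.filter (fun m => ∀ q ∈ Q, ¬ q ∣ m), (w m - M) ^ 2 = M ^ 2 := by
    intro m hm
    rw [mem_filter] at hm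
    have : w m = 0 := by
      apply Finset.sum_eq_zero
      intro q hq
      rw [if_neg (hm.2 q hq)]
    rw [this]; ring
  calc ((J.filter (fun m => ∀ q ∈ Q, ¬ q ∣ m)).card : ℝ) * M ^ 2
      = ∑ m ∈ J.filter (fun m => ∀ q ∈ Q, ¬ q ∣ m), (w m - M) ^ 2 := by
        rw [Finset.sum_congr rfl h1, Finset.sum_const, nsmul_eq_mul]
    _ ≤ ∑ m ∈ J, (w m - M) ^ 2 :=
        Finset.sum_le_sum_of_subset_of_nonneg (Finset.filter_subset _ _)
          (fun _ _ _ => sq_nonneg _)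

/-- multiples of `p` without prime factors `q ≡ 1 mod p`, `q ≤ z` -/
lemma count_p (A H p z : ℕ) (hp : p.Prime) (hp3 : 3 ≤ p) (hℓ : 0 < Real.log (Real.log z))
    (h : 100 * p * Real.log p ≤ Real.log (Real.log z)) :
    (((Ioc A (A + H)).filter (fun m => p ∣ m ∧ ∀ q ≤ z, q.Prime → q % p = 1 → ¬ q ∣ m)).card : ℝ)
      ≤ 2 * (H + p) / Real.log (Real.log z) + 12 * ((z : ℝ) + 1) ^ 2 * p ^ 2 /
        (Real.log (Real.log z)) ^ 2 := by
  classical
  set ℓ : ℝ := Real.log (Real.log z) with hℓdef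
  set Q : Finset ℕ := (range (z + 1)).filter (fun q => q.Prime ∧ q % p = 1) with hQdef
  have hQ : ∀ q ∈ Q, q.Prime := fun q hq => (mem_filter.1 hq).2.1
  have hM := recip_lower p z hp hp3 h
  have hMdef : Mrec p z = ∑ q ∈ Q, 1 / (q : ℝ) := rfl
  have hp0 : (0 : ℝ) < p := by exact_mod_cast hp.pos
  -- map to the quotient
  have h1 : ((Ioc A (A + H)).filter (fun m => p ∣ m ∧ ∀ q ≤ z, q.Prime → q % p = 1 → ¬ q ∣ m)).card
      ≤ ((Ioc (A / p) (A / p + (H / p + 1))).filter (fun m => ∀ q ∈ Q, ¬ q ∣ m)).card := by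
    apply Finset.card_le_card_of_injOn (fun m => m / p)
    · intro m hm
      rw [mem_coe, mem_filter, mem_Ioc] at hm
      obtain ⟨⟨hm1, hm2⟩, ⟨k, rfl⟩, hm4⟩ := hm
      simp only [Nat.mul_div_cancel_left _ hp.pos]
      rw [mem_coe, mem_filter, mem_Ioc]
      refine ⟨⟨?_, ?_⟩, ?_⟩
      · rw [Nat.div_lt_iff_lt_mul hp.pos]
        rw [mul_comm]; exact hm1
      · have h2 : k ≤ (A + H) / p := by
          rw [Nat.le_div_iff_mul_le hp.pos, mul_comm]; exact hm2
        have h3 : (A + H) / p ≤ A / p + H / p + 1 := by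
          have := Nat.add_div (a := A) (b := H) hp.pos
          rw [this]
          split_ifs <;> omega
        omega
      · intro q hq hdv
        rw [hQdef, mem_filter, mem_range] at hq
        exact hm4 q (by omega) hq.2.1 hq.2.2 (hdv.mul_left p)
    · intro m hm m' hm' hmm
      rw [mem_coe, mem_filter] at hm hm'
      obtain ⟨-, ⟨k, rfl⟩, -⟩ := hm
      obtain ⟨-, ⟨k', rfl⟩, -⟩ := hm'
      simp only [Nat.mul_div_cancel_left _ hp.pos] at hmm
      rw [hmm]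
  have h2 := turan Q hQ (A / p) (H / p + 1)
  rw [← hMdef] at h2
  set M := Mrec p z with hMM
  have hMpos : 0 < M := lt_of_lt_of_le (by positivity) hM
  set N : ℝ := (((Ioc (A / p) (A / p + (H / p + 1))).filter (fun m => ∀ q ∈ Q, ¬ q ∣ m)).card : ℝ)
    with hN
  have hQc : (Q.card : ℝ) ≤ (z : ℝ) + 1 := by
    have : Q.card ≤ z + 1 := by
      rw [hQdef]
      refine (Finset.card_filter_le _ _).trans ?_
      rw [card_range]
    exact_mod_cast this
  have h3 : N ≤ ((H / p + 1 : ℕ) : ℝ) / M + 3 * ((z : ℝ) + 1) ^ 2 / M ^ 2 := by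
    have h4 : N * M ^ 2 ≤ ((H / p + 1 : ℕ) : ℝ) * M + 3 * ((z : ℝ) + 1) ^ 2 := by
      refine h2.trans ?_
      have : (Q.card : ℝ) ^ 2 ≤ ((z : ℝ) + 1) ^ 2 := by
        apply pow_le_pow_left₀ (Nat.cast_nonneg _) hQc
      linarith
    have h5 : N = N * M ^ 2 / M ^ 2 := by field_simp
    rw [h5]
    have h6 : ((H / p + 1 : ℕ) : ℝ) / M + 3 * ((z : ℝ) + 1) ^ 2 / M ^ 2
        = (((H / p + 1 : ℕ) : ℝ) * M + 3 * ((z : ℝ) + 1) ^ 2) / M ^ 2 := by
      field_simp
    rw [h6]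
    exact div_le_div_of_nonneg_right h4 (by positivity)
  have hHp : ((H / p + 1 : ℕ) : ℝ) ≤ (H + p) / p := by
    push_cast
    have : ((H / p : ℕ) : ℝ) ≤ (H : ℝ) / p := Nat.cast_div_le
    rw [add_div, div_self hp0.ne']
    linarith
  have hinv : 1 / M ≤ 2 * p / ℓ := by
    rw [div_le_div_iff₀ hMpos hℓ]
    rw [div_le_iff₀ (by positivity)] at hM
    linarith
  have h1' : (((Ioc A (A + H)).filter
      (fun m => p ∣ m ∧ ∀ q ≤ z, q.Prime → q % p = 1 → ¬ q ∣ m)).card : ℝ) ≤ N := by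
    rw [hN]; exact_mod_cast h1
  refine h1'.trans (h3.trans ?_)
  have e1 : ((H / p + 1 : ℕ) : ℝ) / M ≤ 2 * (H + p) / ℓ := by
    calc ((H / p + 1 : ℕ) : ℝ) / M = ((H / p + 1 : ℕ) : ℝ) * (1 / M) := by ring
      _ ≤ ((H + p) / p) * (2 * p / ℓ) :=
          mul_le_mul hHp hinv (by positivity) (by positivity)
      _ = 2 * (H + p) / ℓ := by field_simp
  have e2 : 3 * ((z : ℝ) + 1) ^ 2 / M ^ 2 ≤ 12 * ((z : ℝ) + 1) ^ 2 * p ^ 2 / ℓ ^ 2 := by
    calc 3 * ((z : ℝ) + 1) ^ 2 / M ^ 2 = 3 * ((z : ℝ) + 1) ^ 2 * (1 / M) ^ 2 := by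
          rw [one_div, inv_pow]; ring
      _ ≤ 3 * ((z : ℝ) + 1) ^ 2 * (2 * p / ℓ) ^ 2 := by
          apply mul_le_mul_of_nonneg_left _ (by positivity)
          exact pow_le_pow_left₀ (by positivity) hinv 2
      _ = 12 * ((z : ℝ) + 1) ^ 2 * p ^ 2 / ℓ ^ 2 := by rw [div_pow]; ring
  linarith

end Pool.Agent.Cyclic
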