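import Mathlib
import Pool.Agent.Cyclic.Turan

set_option autoImplicit false

namespace Pool.Agent.Cyclic

open Finset

/-- cyclic numbers: `gcd(m, φ(m)) = 1` -/
def Cyc (m : ℕ) : Prop := 0 < m ∧ Nat.gcd m (Nat.totient m) = 1

lemma cyc_no_pq {m p q : ℕ} (hm : Cyc m) (hp : p.Prime) (hq : q.Prime) (hpm : p ∣ m) (hqm : q ∣ m)
    (hqp : q % p = 1) : False := by
  have h1 : Nat.totient q ∣ Nat.totient m := Nat.totient_dvd_of_dvd hqm
  rw [Nat.totient_prime hq] at h1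
  have h2 : p ∣ q - 1 := (Nat.modEq_iff_dvd' hq.one_lt.le).1 (by
    show 1 % p = q % p
    rw [hqp, Nat.mod_eq_of_lt hp.one_lt])
  have h3 : p ∣ Nat.gcd m (Nat.totient m) := Nat.dvd_gcd hpm (h2.trans h1)
  rw [hm.2] at h3
  exact hp.one_lt.ne' (Nat.dvd_one.1 h3)

lemma cyc_not_even {m : ℕ} (hm : Cyc m) (h2 : 2 < m) : ¬ 2 ∣ m := by
  intro h
  have h1 := (Nat.totient_even h2).two_dvd
  have h3 : 2 ∣ Nat.gcd m (Nat.totient m) := Nat.dvd_gcd h h1
  rw [hm.2] at h3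
  omega

lemma exists_of_prime_dvd_totient {m p : ℕ} (hm : 0 < m) (hp : p.Prime) (h : p ∣ Nat.totient m) :
    p ^ 2 ∣ m ∨ ∃ q, q.Prime ∧ q ∣ m ∧ q % p = 1 := by
  rw [Nat.totient_eq_prod_factorization hm.ne', Finsupp.prod, hp.prime.dvd_finsetProd_iff] at h
  obtain ⟨q, hq, hpq⟩ := h
  rw [Nat.support_factorization, Nat.mem_primeFactors] at hq
  rcases (Nat.Prime.dvd_mul hp).1 hpq with h1 | h1
  · left
    have h2 : p ∣ q := hp.dvd_of_dvd_pow h1
    have h3 : p = q := (Nat.prime_dvd_prime_iff_eq hp hq.1).1 h2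
    subst h3
    have h4 : 2 ≤ m.factorization p := by
      by_contra h5
      have h6 : m.factorization p - 1 = 0 := by omega
      rw [h6, pow_zero] at h1
      exact hp.one_lt.ne' (Nat.dvd_one.1 h1)
    exact (Nat.Prime.pow_dvd_iff_le_factorization hp hm.ne').2 h4
  · right
    refine ⟨q, hq.1, hq.2.1, ?_⟩
    obtain ⟨t, ht⟩ := h1
    have h2 : q = 1 + p * t := by
      have := hq.1.one_lt
      omega
    rw [h2, Nat.add_mul_mod_self_left, Nat.mod_eq_of_lt hp.one_lt]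

lemma exists_of_not_cyc {m : ℕ} (hm : 0 < m) (h : ¬ Cyc m) :
    ∃ p, p.Prime ∧ p ∣ m ∧ (p ^ 2 ∣ m ∨ ∃ q, q.Prime ∧ q ∣ m ∧ q % p = 1) := by
  have h1 : Nat.gcd m (Nat.totient m) ≠ 1 := fun h2 => h ⟨hm, h2⟩
  obtain ⟨p, hp, hpd⟩ := Nat.exists_prime_and_dvd h1
  exact ⟨p, hp, hpd.trans (Nat.gcd_dvd_left _ _),
    exists_of_prime_dvd_totient hm hp (hpd.trans (Nat.gcd_dvd_right _ _))⟩

open Classical in
/-- cyclic numbers with a small prime factor are rare -/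
lemma N1_bound (A H Y z : ℕ) (hA : 2 ≤ A) (hℓ : 0 < Real.log (Real.log z))
    (h : ∀ p : ℕ, p.Prime → 3 ≤ p → p ≤ Y → 100 * p * Real.log p ≤ Real.log (Real.log z)) :
    (((Ioc A (A + H)).filter (fun m => Cyc m ∧ ∃ p ≤ Y, p.Prime ∧ p ∣ m)).card : ℝ)
      ≤ Y * (2 * (H + Y) / Real.log (Real.log z) + 12 * ((z : ℝ) + 1) ^ 2 * Y ^ 2 /
        (Real.log (Real.log z)) ^ 2) := by
  set ℓ : ℝ := Real.log (Real.log z) with hℓdef
  set P : Finset ℕ := (Icc 1 Y).filter (fun p => p.Prime ∧ 3 ≤ p) with hP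
  have hsub : (Ioc A (A + H)).filter (fun m => Cyc m ∧ ∃ p ≤ Y, p.Prime ∧ p ∣ m)
      ⊆ P.biUnion (fun p =>
        (Ioc A (A + H)).filter (fun m => p ∣ m ∧ ∀ q ≤ z, q.Prime → q % p = 1 → ¬ q ∣ m)) := by
    intro m hm
    rw [mem_filter, mem_Ioc] at hm
    obtain ⟨hmI, hc, p, hpY, hp, hpm⟩ := hm
    rw [mem_biUnion]
    refine ⟨p, ?_, ?_⟩
    · rw [hP, mem_filter, mem_Icc]
      refine ⟨⟨hp.one_lt.le, hpY⟩, hp, ?_⟩
      by_contra h3
      have h4 : p = 2 := by have := hp.two_le; omega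
      subst h4
      exact cyc_not_even hc (by omega) hpm
    · rw [mem_filter, mem_Ioc]
      refine ⟨hmI, hpm, ?_⟩
      intro q _ hq hqp hqm
      exact cyc_no_pq hc hp hq hpm hqm hqp
  have h1 : (((Ioc A (A + H)).filter (fun m => Cyc m ∧ ∃ p ≤ Y, p.Prime ∧ p ∣ m)).card : ℝ)
      ≤ ∑ p ∈ P, (((Ioc A (A + H)).filter
          (fun m => p ∣ m ∧ ∀ q ≤ z, q.Prime → q % p = 1 → ¬ q ∣ m)).card : ℝ) := by
    have := (Finset.card_le_card hsub).trans Finset.card_biUnion_le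
    exact_mod_cast this
  refine h1.trans ?_
  have h2 : ∀ p ∈ P, (((Ioc A (A + H)).filter
          (fun m => p ∣ m ∧ ∀ q ≤ z, q.Prime → q % p = 1 → ¬ q ∣ m)).card : ℝ)
      ≤ 2 * (H + Y) / ℓ + 12 * ((z : ℝ) + 1) ^ 2 * Y ^ 2 / ℓ ^ 2 := by
    intro p hp
    rw [hP, mem_filter, mem_Icc] at hp
    refine (count_p A H p z hp.2.1 hp.2.2 hℓ (h p hp.2.1 hp.2.2 hp.1.2)).trans ?_
    have hpY : (p : ℝ) ≤ Y := by exact_mod_cast hp.1.2
    have hp0 : (0 : ℝ) ≤ p := Nat.cast_nonneg _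
    apply add_le_add
    · apply div_le_div_of_nonneg_right _ hℓ.le
      linarith
    · apply div_le_div_of_nonneg_right _ (by positivity)
      apply mul_le_mul_of_nonneg_left _ (by positivity)
      exact pow_le_pow_left₀ hp0 hpY 2
  refine (Finset.sum_le_card_nsmul _ _ _ h2).trans ?_
  rw [nsmul_eq_mul]
  apply mul_le_mul_of_nonneg_right _ (by positivity)
  have : P.card ≤ Y := by
    rw [hP]
    refine (Finset.card_filter_le _ _).trans ?_
    simp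
  exact_mod_cast this

end Pool.Agent.Cyclic
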