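import Mathlib
import Pool.Agent.Cyclic.Basic
import Pool.Agent.Cyclic.BT

set_option autoImplicit false

namespace Pool.Agent.Cyclic

open Finset

open Classical in
/-- the sets `S1` … `S5` -/
noncomputable def S1 (A H Y : ℕ) : Finset ℕ :=
  (Ioc Y (Nat.sqrt (A + H))).biUnion (fun p => (Ioc A (A + H)).filter (fun m => p ^ 2 ∣ m))

open Classical in
noncomputable def S2 (A H B : ℕ) : Finset ℕ :=
  (Ioc B H).biUnion (fun p => ((Icc 1 H).filter (fun j => p * (p * j + 1) ≤ H)).biUnion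
    (fun j => (Ioc A (A + H)).filter (fun m => p * (p * j + 1) ∣ m)))

open Classical in
noncomputable def S3 (A H B R : ℕ) : Finset ℕ :=
  (Icc 1 R).biUnion (fun r => ((Ioc B (Nat.sqrt ((A + H) / r))).filter (fun p => p.Prime)).biUnion
    (fun p => (Ioc A (A + H)).filter (fun m => ∃ j, 1 ≤ j ∧ m = p * r * (p * j + 1))))

open Classical in
noncomputable def S4 (A H Y B : ℕ) : Finset ℕ :=
  ((Ioc Y B).filter (fun p => p.Prime)).biUnion (fun p =>
    ((Icc 1 H).filter (fun j => (p * j + 1).Prime ∧ p * (p * j + 1) ≤ H)).biUnion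
    (fun j => (Ioc A (A + H)).filter (fun m => p * (p * j + 1) ∣ m)))

open Classical in
noncomputable def S5 (A H Y B R : ℕ) : Finset ℕ :=
  (Icc 1 R).biUnion (fun r => ((Ioc Y B).filter (fun p => p.Prime)).biUnion
    (fun p => (Ioc A (A + H)).filter
      (fun m => ∃ j, 1 ≤ j ∧ (p * j + 1).Prime ∧ m = p * r * (p * j + 1))))

open Classical in
lemma cover (A H Y B R : ℕ) (hR : A + H ≤ H * R) :
    (Ioc A (A + H)).filter (fun m => ¬ Cyc m ∧ ∀ p ≤ Y, p.Prime → ¬ p ∣ m)
      ⊆ S1 A H Y ∪ (S2 A H B ∪ (S3 A H B R ∪ (S4 A H Y B ∪ S5 A H Y B R))) := by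
  intro m hm
  rw [mem_filter, mem_Ioc] at hm
  obtain ⟨⟨hmA, hmH⟩, hmc, hmY⟩ := hm
  have hm0 : 0 < m := by omega
  obtain ⟨p, hp, hpm, h⟩ := exists_of_not_cyc hm0 hmc
  have hpY : Y < p := by
    by_contra h2
    exact hmY p (by omega) hp hpm
  simp only [mem_union]
  rcases h with h | ⟨q, hq, hqm, hqp⟩
  · left
    unfold S1
    rw [mem_biUnion]
    refine ⟨p, ?_, ?_⟩
    · rw [mem_Ioc]
      refine ⟨hpY, ?_⟩
      rw [Nat.le_sqrt']
      exact (Nat.le_of_dvd hm0 h).trans hmH
    · rw [mem_filter, mem_Ioc]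
      exact ⟨⟨hmA, hmH⟩, h⟩
  · right
    -- write q = p j + 1
    obtain ⟨j, hqj⟩ : ∃ j, q = p * j + 1 := by
      have := Nat.div_add_mod q p
      rw [hqp] at this
      exact ⟨_, this.symm⟩
    have hj1 : 1 ≤ j := by
      by_contra h2
      have h3 : j = 0 := by omega
      rw [h3, mul_zero, zero_add] at hqj
      exact hq.one_lt.ne' hqj
    have hne : p ≠ q := by
      intro h2
      rw [← h2, Nat.mod_self] at hqp
      omega
    have hcop : Nat.Coprime p q := (Nat.coprime_primes hp hq).2 hne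
    have hpqm : p * q ∣ m := Nat.Coprime.mul_dvd_of_dvd_of_dvd hcop hpm hqm
    have hq' : (p * j + 1).Prime := hqj ▸ hq
    have hpq : p < q := by
      have : p ≤ p * j := Nat.le_mul_of_pos_right p (by omega)
      omega
    by_cases hH : p * q ≤ H
    · have hjH : j ≤ H := by
        have h2 : j ≤ p * j := Nat.le_mul_of_pos_left j hp.pos
        have h3 : q ≤ p * q := Nat.le_mul_of_pos_left q hp.pos
        omega
      by_cases hB : B < p
      · left
        unfold S2
        rw [mem_biUnion]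
        refine ⟨p, ?_, ?_⟩
        · rw [mem_Ioc]
          refine ⟨hB, ?_⟩
          have : p ≤ p * q := Nat.le_mul_of_pos_right p hq.pos
          omega
        · rw [mem_biUnion]
          refine ⟨j, ?_, ?_⟩
          · rw [mem_filter, mem_Icc, ← hqj]
            exact ⟨⟨hj1, hjH⟩, hH⟩
          · rw [mem_filter, mem_Ioc, ← hqj]
            exact ⟨⟨hmA, hmH⟩, hpqm⟩
      · right; right; left
        unfold S4
        rw [mem_biUnion]
        refine ⟨p, ?_, ?_⟩
        · rw [mem_filter, mem_Ioc]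
          exact ⟨⟨hpY, by omega⟩, hp⟩
        · rw [mem_biUnion]
          refine ⟨j, ?_, ?_⟩
          · rw [mem_filter, mem_Icc, ← hqj]
            exact ⟨⟨hj1, hjH⟩, hq, hH⟩
          · rw [mem_filter, mem_Ioc, ← hqj]
            exact ⟨⟨hmA, hmH⟩, hpqm⟩
    · push Not at hH
      obtain ⟨r, hr⟩ := hpqm
      have hr0 : 0 < r := by
        rcases Nat.eq_zero_or_pos r with h2 | h2
        · rw [h2, mul_zero] at hr; omega
        · exact h2
      have hrR : r ≤ R := by
        by_contra h2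
        push Not at h2
        have h3 : H * R ≤ H * r := Nat.mul_le_mul_left H h2.le
        have h4 : H * r < p * q * r := Nat.mul_lt_mul_of_pos_right hH hr0
        omega
      have hmr : m = p * r * (p * j + 1) := by rw [hr, hqj]; ring
      by_cases hB : B < p
      · right; left
        unfold S3
        rw [mem_biUnion]
        refine ⟨r, ?_, ?_⟩
        · rw [mem_Icc]; exact ⟨hr0, hrR⟩
        · rw [mem_biUnion]
          refine ⟨p, ?_, ?_⟩
          · rw [mem_filter, mem_Ioc]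
            refine ⟨⟨hB, ?_⟩, hp⟩
            rw [Nat.le_sqrt', Nat.le_div_iff_mul_le hr0]
            have h5 : p ^ 2 ≤ p * q := by
              rw [sq]; exact Nat.mul_le_mul_left p hpq.le
            have h6 : p ^ 2 * r ≤ p * q * r := Nat.mul_le_mul_right r h5
            omega
          · rw [mem_filter, mem_Ioc]
            exact ⟨⟨hmA, hmH⟩, j, hj1, hmr⟩
      · right; right; right
        unfold S5
        rw [mem_biUnion]
        refine ⟨r, ?_, ?_⟩
        · rw [mem_Icc]; exact ⟨hr0, hrR⟩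
        · rw [mem_biUnion]
          refine ⟨p, ?_, ?_⟩
          · rw [mem_filter, mem_Ioc]
            exact ⟨⟨hpY, by omega⟩, hp⟩
          · rw [mem_filter, mem_Ioc]
            exact ⟨⟨hmA, hmH⟩, j, hj1, hq', hmr⟩

/-- tail of the sum of inverse squares -/
lemma sum_tail_le (Y K : ℕ) (hY : 1 ≤ Y) : ∑ p ∈ Ioc Y K, 1 / (p : ℝ) ^ 2 ≤ 1 / (Y : ℝ) := by
  rcases le_or_gt Y K with h | h
  · have h1 := sum_Ioc_inv_sq_le_sub (α := ℝ) (k := Y) (n := K) (by omega) h
    simp only [one_div]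
    have h2 : (0 : ℝ) ≤ (K : ℝ)⁻¹ := by positivity
    linarith
  · rw [Finset.Ioc_eq_empty_of_le h.le, Finset.sum_empty]
    positivity

lemma card_S1 (A H Y : ℕ) (hY : 1 ≤ Y) :
    ((S1 A H Y).card : ℝ) ≤ H / Y + Nat.sqrt (A + H) := by
  classical
  unfold S1
  have h1 : (((Ioc Y (Nat.sqrt (A + H))).biUnion
      (fun p => (Ioc A (A + H)).filter (fun m => p ^ 2 ∣ m))).card : ℝ)
      ≤ ∑ p ∈ Ioc Y (Nat.sqrt (A + H)), (((Ioc A (A + H)).filter (fun m => p ^ 2 ∣ m)).card : ℝ) := by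
    exact_mod_cast Finset.card_biUnion_le
  refine h1.trans ?_
  have h2 : ∀ p ∈ Ioc Y (Nat.sqrt (A + H)),
      (((Ioc A (A + H)).filter (fun m => p ^ 2 ∣ m)).card : ℝ) ≤ H * (1 / (p : ℝ) ^ 2) + 1 := by
    intro p hp
    rw [mem_Ioc] at hp
    have := count_mult_le A H (p ^ 2) (by have : 0 < p := by omega
                                          positivity)
    push_cast at this
    rw [mul_one_div]
    exact this
  refine (Finset.sum_le_sum h2).trans ?_
  rw [Finset.sum_add_distrib, ← Finset.mul_sum, Finset.sum_const, nsmul_eq_mul, mul_one]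
  have h3 := sum_tail_le Y (Nat.sqrt (A + H)) hY
  have h4 : ((Ioc Y (Nat.sqrt (A + H))).card : ℝ) ≤ Nat.sqrt (A + H) := by
    have : (Ioc Y (Nat.sqrt (A + H))).card ≤ Nat.sqrt (A + H) := by simp
    exact_mod_cast this
  have h5 : (H : ℝ) * ∑ p ∈ Ioc Y (Nat.sqrt (A + H)), 1 / (p : ℝ) ^ 2 ≤ H * (1 / Y) :=
    mul_le_mul_of_nonneg_left h3 (Nat.cast_nonneg _)
  rw [mul_one_div] at h5
  linarith

lemma card_mult_le_two (A H d : ℕ) (hd : 0 < d) (hdH : d ≤ H) :
    (((Ioc A (A + H)).filter (fun m => d ∣ m)).card : ℝ) ≤ 2 * H / d := by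
  have h1 := count_mult_le A H d hd
  have hd' : (0 : ℝ) < d := by exact_mod_cast hd
  have h2 : (1 : ℝ) ≤ H / d := by
    rw [le_div_iff₀ hd', one_mul]
    exact_mod_cast hdH
  have h3 : 2 * (H : ℝ) / d = H / d + H / d := by ring
  rw [h3]
  linarith

lemma sum_inv_Icc_le (H : ℕ) : ∑ j ∈ Icc 1 H, 1 / (j : ℝ) ≤ 1 + Real.log H := by
  rw [← harmonic_eq_sum_Icc_real]
  exact harmonic_le_one_add_log H

lemma card_S2 (A H B : ℕ) (hB : 1 ≤ B) :
    ((S2 A H B).card : ℝ) ≤ 2 * H * (1 + Real.log H) / B := by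
  classical
  unfold S2
  have h1 : (((Ioc B H).biUnion (fun p => ((Icc 1 H).filter (fun j => p * (p * j + 1) ≤ H)).biUnion
    (fun j => (Ioc A (A + H)).filter (fun m => p * (p * j + 1) ∣ m)))).card : ℝ)
      ≤ ∑ p ∈ Ioc B H, ∑ j ∈ (Icc 1 H).filter (fun j => p * (p * j + 1) ≤ H),
        (((Ioc A (A + H)).filter (fun m => p * (p * j + 1) ∣ m)).card : ℝ) := by
    have := (Finset.card_biUnion_le (s := Ioc B H)
      (t := fun p => ((Icc 1 H).filter (fun j => p * (p * j + 1) ≤ H)).biUnion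
        (fun j => (Ioc A (A + H)).filter (fun m => p * (p * j + 1) ∣ m)))).trans
      (Finset.sum_le_sum fun p _ => Finset.card_biUnion_le)
    exact_mod_cast this
  refine h1.trans ?_
  have h2 : ∀ p ∈ Ioc B H, ∑ j ∈ (Icc 1 H).filter (fun j => p * (p * j + 1) ≤ H),
        (((Ioc A (A + H)).filter (fun m => p * (p * j + 1) ∣ m)).card : ℝ)
        ≤ (2 * H * (1 + Real.log H)) * (1 / (p : ℝ) ^ 2) := by
    intro p hp
    rw [mem_Ioc] at hp
    have hp0 : (0 : ℝ) < p := by
      have : 0 < p := by omega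
      exact_mod_cast this
    have h3 : ∀ j ∈ (Icc 1 H).filter (fun j => p * (p * j + 1) ≤ H),
        (((Ioc A (A + H)).filter (fun m => p * (p * j + 1) ∣ m)).card : ℝ)
          ≤ 2 * H / (p : ℝ) ^ 2 * (1 / j) := by
      intro j hj
      rw [mem_filter, mem_Icc] at hj
      refine (card_mult_le_two A H _ (by have : 0 < p := by omega
                                         positivity) hj.2).trans ?_
      have hj0 : (0 : ℝ) < j := by exact_mod_cast hj.1.1
      push_cast
      rw [div_mul_div_comm, mul_one]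
      apply div_le_div_of_nonneg_left (by positivity) (by positivity)
      nlinarith
    refine (Finset.sum_le_sum h3).trans ?_
    rw [← Finset.mul_sum]
    have h4 : ∑ j ∈ (Icc 1 H).filter (fun j => p * (p * j + 1) ≤ H), 1 / (j : ℝ) ≤ 1 + Real.log H := by
      refine le_trans ?_ (sum_inv_Icc_le H)
      exact Finset.sum_le_sum_of_subset_of_nonneg (Finset.filter_subset _ _)
        (fun _ _ _ => by positivity)
    calc 2 * H / (p : ℝ) ^ 2 * ∑ j ∈ (Icc 1 H).filter (fun j => p * (p * j + 1) ≤ H), 1 / (j : ℝ)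
        ≤ 2 * H / (p : ℝ) ^ 2 * (1 + Real.log H) := mul_le_mul_of_nonneg_left h4 (by positivity)
      _ = (2 * H * (1 + Real.log H)) * (1 / (p : ℝ) ^ 2) := by ring
  refine (Finset.sum_le_sum h2).trans ?_
  rw [← Finset.mul_sum]
  have h5 : 0 ≤ 2 * H * (1 + Real.log H) := by
    have : 0 ≤ Real.log H := Real.log_natCast_nonneg H
    positivity
  calc _ ≤ (2 * H * (1 + Real.log H)) * (1 / (B : ℝ)) :=
        mul_le_mul_of_nonneg_left (sum_tail_le B H hB) h5
    _ = _ := by ring

lemma card_S4 (A H Y B I : ℕ) (hY : 1 ≤ Y) (hI : H ≤ 2 ^ I) :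
    ((S4 A H Y B).card : ℝ) ≤ 2 * H * (131 + 130 * Real.log I) / Y := by
  classical
  unfold S4
  have h1 : ((((Ioc Y B).filter (fun p => p.Prime)).biUnion (fun p =>
    ((Icc 1 H).filter (fun j => (p * j + 1).Prime ∧ p * (p * j + 1) ≤ H)).biUnion
    (fun j => (Ioc A (A + H)).filter (fun m => p * (p * j + 1) ∣ m)))).card : ℝ)
      ≤ ∑ p ∈ (Ioc Y B).filter (fun p => p.Prime),
        ∑ j ∈ (Icc 1 H).filter (fun j => (p * j + 1).Prime ∧ p * (p * j + 1) ≤ H),
        (((Ioc A (A + H)).filter (fun m => p * (p * j + 1) ∣ m)).card : ℝ) := by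
    have := (Finset.card_biUnion_le (s := (Ioc Y B).filter (fun p => p.Prime))
      (t := fun p => ((Icc 1 H).filter (fun j => (p * j + 1).Prime ∧ p * (p * j + 1) ≤ H)).biUnion
        (fun j => (Ioc A (A + H)).filter (fun m => p * (p * j + 1) ∣ m)))).trans
      (Finset.sum_le_sum fun p _ => Finset.card_biUnion_le)
    exact_mod_cast this
  refine h1.trans ?_
  have hlogI : 0 ≤ 131 + 130 * Real.log I := by
    have : 0 ≤ Real.log I := Real.log_natCast_nonneg I
    positivity
  have h2 : ∀ p ∈ (Ioc Y B).filter (fun p => p.Prime),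
      ∑ j ∈ (Icc 1 H).filter (fun j => (p * j + 1).Prime ∧ p * (p * j + 1) ≤ H),
        (((Ioc A (A + H)).filter (fun m => p * (p * j + 1) ∣ m)).card : ℝ)
        ≤ (2 * H * (131 + 130 * Real.log I)) * (1 / (p : ℝ) ^ 2) := by
    intro p hp
    rw [mem_filter, mem_Ioc] at hp
    have hp0 : (0 : ℝ) < p := by exact_mod_cast hp.2.pos
    have h3 : ∀ j ∈ (Icc 1 H).filter (fun j => (p * j + 1).Prime ∧ p * (p * j + 1) ≤ H),
        (((Ioc A (A + H)).filter (fun m => p * (p * j + 1) ∣ m)).card : ℝ)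
          ≤ 2 * H / (p : ℝ) * (1 / (p * j)) := by
      intro j hj
      rw [mem_filter, mem_Icc] at hj
      refine (card_mult_le_two A H _ (Nat.mul_pos hp.2.pos (Nat.succ_pos _)) hj.2.2).trans ?_
      have hj0 : (0 : ℝ) < j := by exact_mod_cast hj.1.1
      push_cast
      rw [div_mul_div_comm, mul_one]
      apply div_le_div_of_nonneg_left (by positivity) (by positivity)
      nlinarith
    refine (Finset.sum_le_sum h3).trans ?_
    rw [← Finset.mul_sum]
    have h4 : ∑ j ∈ (Icc 1 H).filter (fun j => (p * j + 1).Prime ∧ p * (p * j + 1) ≤ H),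
        1 / ((p : ℝ) * j) ≤ (131 + 130 * Real.log I) / p := by
      refine le_trans ?_ (Bsum_le p hp.2 I)
      refine le_trans ?_ (Bsum_mono p hI)
      unfold Bsum
      apply Finset.sum_le_sum_of_subset_of_nonneg
      · intro j hj
        rw [mem_filter] at hj ⊢
        exact ⟨hj.1, hj.2.1⟩
      · intro _ _ _; positivity
    calc _ ≤ 2 * H / (p : ℝ) * ((131 + 130 * Real.log I) / p) :=
          mul_le_mul_of_nonneg_left h4 (by positivity)
      _ = (2 * H * (131 + 130 * Real.log I)) * (1 / (p : ℝ) ^ 2) := by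
        field_simp
  refine (Finset.sum_le_sum h2).trans ?_
  rw [← Finset.mul_sum]
  have h6 : ∑ p ∈ (Ioc Y B).filter (fun p => p.Prime), 1 / (p : ℝ) ^ 2 ≤ 1 / (Y : ℝ) :=
    (Finset.sum_le_sum_of_subset_of_nonneg (Finset.filter_subset _ _)
      (fun _ _ _ => by positivity)).trans (sum_tail_le Y B hY)
  calc _ ≤ (2 * H * (131 + 130 * Real.log I)) * (1 / (Y : ℝ)) :=
        mul_le_mul_of_nonneg_left h6 (by positivity)
    _ = _ := by ring

open Classical in
/-- numbers in an arithmetic progression -/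
lemma card_prog (A H p r : ℕ) (hp : 0 < p) (hr : 0 < r) :
    (((Ioc A (A + H)).filter (fun m => ∃ j, 1 ≤ j ∧ m = p * r * (p * j + 1))).card : ℝ)
      ≤ H / ((p : ℝ) ^ 2 * r) + 1 := by
  have hd : 0 < p ^ 2 * r := by positivity
  have h := (abs_le.1 (count_class A H (p ^ 2 * r) (p * r) hd)).2
  have h2 : (((Ioc A (A + H)).filter (fun m => ∃ j, 1 ≤ j ∧ m = p * r * (p * j + 1))).card : ℝ)
      ≤ (((Ioc A (A + H)).filter (fun m => m ≡ p * r [MOD p ^ 2 * r])).card : ℝ) := by
    have : ((Ioc A (A + H)).filter (fun m => ∃ j, 1 ≤ j ∧ m = p * r * (p * j + 1)))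
        ⊆ ((Ioc A (A + H)).filter (fun m => m ≡ p * r [MOD p ^ 2 * r])) := by
      intro m hm
      rw [mem_filter] at hm ⊢
      obtain ⟨hm1, j, -, hm2⟩ := hm
      refine ⟨hm1, ?_⟩
      rw [hm2]
      have : p * r * (p * j + 1) = p * r + p ^ 2 * r * j := by ring
      rw [this]
      show (p * r + p ^ 2 * r * j) % (p ^ 2 * r) = (p * r) % (p ^ 2 * r)
      rw [Nat.add_mul_mod_self_left]
    exact_mod_cast Finset.card_le_card this
  push_cast at h
  linarith

open Classical in
lemma card_progP (A H p r D : ℕ) (hp : p.Prime) (hr : 0 < r) (hD : 2 ≤ D) :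
    (((Ioc A (A + H)).filter
      (fun m => ∃ j, 1 ≤ j ∧ (p * j + 1).Prime ∧ m = p * r * (p * j + 1))).card : ℝ)
      ≤ 4 * (H / ((p : ℝ) ^ 2 * r) + 1) / Real.log D + (D : ℝ) ^ 4 + D := by
  set d := p ^ 2 * r with hd
  have hp0 := hp.pos
  have hd0 : 0 < d := by rw [hd]; positivity
  set X := (A - p * r) / d with hX
  set Yj := H / d + 1 with hYj
  have h1 : ((Ioc A (A + H)).filter
      (fun m => ∃ j, 1 ≤ j ∧ (p * j + 1).Prime ∧ m = p * r * (p * j + 1)))
      ⊆ ((Ioc X (X + Yj)).filter (fun j => (p * j + 1).Prime)).image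
        (fun j => p * r * (p * j + 1)) := by
    intro m hm
    rw [mem_filter, mem_Ioc] at hm
    obtain ⟨⟨hmA, hmH⟩, j, hj1, hjp, hmj⟩ := hm
    rw [mem_image]
    refine ⟨j, ?_, hmj.symm⟩
    rw [mem_filter, mem_Ioc]
    have hmd : m = d * j + p * r := by rw [hmj, hd]; ring
    have hdj : 0 < d * j := Nat.mul_pos hd0 hj1
    refine ⟨⟨?_, ?_⟩, hjp⟩
    · rw [hX, Nat.div_lt_iff_lt_mul hd0, mul_comm j d]
      omega
    · have h2 : j ≤ (A - p * r + H) / d := by
        rw [Nat.le_div_iff_mul_le hd0, mul_comm j d]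
        omega
      have h3 : (A - p * r + H) / d ≤ (A - p * r) / d + H / d + 1 := by
        rw [Nat.add_div hd0]
        split_ifs <;> omega
      omega
  have h2 : (((Ioc A (A + H)).filter
      (fun m => ∃ j, 1 ≤ j ∧ (p * j + 1).Prime ∧ m = p * r * (p * j + 1))).card : ℝ)
      ≤ (((Ioc X (X + Yj)).filter (fun j => (p * j + 1).Prime)).card : ℝ) := by
    exact_mod_cast (Finset.card_le_card h1).trans Finset.card_image_le
  refine h2.trans ((bt p D X Yj hp hD).trans ?_)
  have hlog : 0 < Real.log D := Real.log_pos (by exact_mod_cast hD)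
  have h3 : (Yj : ℝ) ≤ H / ((p : ℝ) ^ 2 * r) + 1 := by
    rw [hYj]
    push_cast
    have : ((H / d : ℕ) : ℝ) ≤ (H : ℝ) / d := Nat.cast_div_le
    rw [hd] at this ⊢
    push_cast at this
    linarith
  have h4 : 4 * (Yj : ℝ) / Real.log D ≤ 4 * (H / ((p : ℝ) ^ 2 * r) + 1) / Real.log D := by
    apply div_le_div_of_nonneg_right _ hlog.le
    linarith
  linarith

lemma card_S3 (A H B R : ℕ) (hB : 1 ≤ B) :
    ((S3 A H B R).card : ℝ) ≤ H * (1 + Real.log R) / B
      + ∑ r ∈ Icc 1 R, (((Nat.primeCounting (Nat.sqrt ((A + H) / r))) : ℕ) : ℝ) := by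
  classical
  unfold S3
  have h1 : (((Icc 1 R).biUnion (fun r =>
      ((Ioc B (Nat.sqrt ((A + H) / r))).filter (fun p => p.Prime)).biUnion
    (fun p => (Ioc A (A + H)).filter (fun m => ∃ j, 1 ≤ j ∧ m = p * r * (p * j + 1))))).card : ℝ)
      ≤ ∑ r ∈ Icc 1 R, ∑ p ∈ (Ioc B (Nat.sqrt ((A + H) / r))).filter (fun p => p.Prime),
        (((Ioc A (A + H)).filter (fun m => ∃ j, 1 ≤ j ∧ m = p * r * (p * j + 1))).card : ℝ) := by
    have := (Finset.card_biUnion_le (s := Icc 1 R)
      (t := fun r => ((Ioc B (Nat.sqrt ((A + H) / r))).filter (fun p => p.Prime)).biUnion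
    (fun p => (Ioc A (A + H)).filter (fun m => ∃ j, 1 ≤ j ∧ m = p * r * (p * j + 1))))).trans
      (Finset.sum_le_sum fun p _ => Finset.card_biUnion_le)
    exact_mod_cast this
  refine h1.trans ?_
  have h2 : ∀ r ∈ Icc 1 R, ∑ p ∈ (Ioc B (Nat.sqrt ((A + H) / r))).filter (fun p => p.Prime),
        (((Ioc A (A + H)).filter (fun m => ∃ j, 1 ≤ j ∧ m = p * r * (p * j + 1))).card : ℝ)
        ≤ H / B * (1 / (r : ℝ)) + ((Nat.primeCounting (Nat.sqrt ((A + H) / r)) : ℕ) : ℝ) := by
    intro r hr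
    rw [mem_Icc] at hr
    have hr0 : (0 : ℝ) < r := by exact_mod_cast hr.1
    have h3 : ∀ p ∈ (Ioc B (Nat.sqrt ((A + H) / r))).filter (fun p => p.Prime),
        (((Ioc A (A + H)).filter (fun m => ∃ j, 1 ≤ j ∧ m = p * r * (p * j + 1))).card : ℝ)
          ≤ (H : ℝ) / r * (1 / (p : ℝ) ^ 2) + 1 := by
      intro p hp
      rw [mem_filter] at hp
      have hp0 : (0 : ℝ) < p := by exact_mod_cast hp.2.pos
      refine (card_prog A H p r hp.2.pos hr.1).trans (le_of_eq ?_)
      field_simp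
    refine (Finset.sum_le_sum h3).trans ?_
    rw [Finset.sum_add_distrib, ← Finset.mul_sum, Finset.sum_const, nsmul_eq_mul, mul_one]
    apply add_le_add
    · have h6 : ∑ p ∈ (Ioc B (Nat.sqrt ((A + H) / r))).filter (fun p => p.Prime),
          1 / (p : ℝ) ^ 2 ≤ 1 / (B : ℝ) :=
        (Finset.sum_le_sum_of_subset_of_nonneg (Finset.filter_subset _ _)
          (fun _ _ _ => by positivity)).trans (sum_tail_le B _ hB)
      calc _ ≤ (H : ℝ) / r * (1 / B) := mul_le_mul_of_nonneg_left h6 (by positivity)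
        _ = _ := by ring
    · have h7 : ((Ioc B (Nat.sqrt ((A + H) / r))).filter (fun p => p.Prime)).card
          ≤ Nat.primeCounting (Nat.sqrt ((A + H) / r)) := by
        rw [Nat.primeCounting, Nat.primeCounting', Nat.count_eq_card_filter_range]
        apply Finset.card_le_card
        intro p hp
        rw [mem_filter, mem_Ioc] at hp
        rw [mem_filter, mem_range]
        exact ⟨by omega, hp.2⟩
      exact_mod_cast h7
  refine (Finset.sum_le_sum h2).trans ?_
  rw [Finset.sum_add_distrib, ← Finset.mul_sum]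
  have h5 : (H : ℝ) / B * ∑ r ∈ Icc 1 R, 1 / (r : ℝ) ≤ H / B * (1 + Real.log R) :=
    mul_le_mul_of_nonneg_left (sum_inv_Icc_le R) (by positivity)
  have h6 : (H : ℝ) / B * (1 + Real.log R) = H * (1 + Real.log R) / B := by ring
  rw [h6] at h5
  linarith

lemma card_S5 (A H Y B R D : ℕ) (hY : 1 ≤ Y) (hD : 2 ≤ D) :
    ((S5 A H Y B R).card : ℝ) ≤ 4 * H * (1 + Real.log R) / (Y * Real.log D)
      + R * B * (4 / Real.log D + (D : ℝ) ^ 4 + D) := by
  classical
  unfold S5
  have hlog : 0 < Real.log D := Real.log_pos (by exact_mod_cast hD)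
  have h1 : (((Icc 1 R).biUnion (fun r => ((Ioc Y B).filter (fun p => p.Prime)).biUnion
    (fun p => (Ioc A (A + H)).filter
      (fun m => ∃ j, 1 ≤ j ∧ (p * j + 1).Prime ∧ m = p * r * (p * j + 1))))).card : ℝ)
      ≤ ∑ r ∈ Icc 1 R, ∑ p ∈ (Ioc Y B).filter (fun p => p.Prime),
        (((Ioc A (A + H)).filter
          (fun m => ∃ j, 1 ≤ j ∧ (p * j + 1).Prime ∧ m = p * r * (p * j + 1))).card : ℝ) := by
    have := (Finset.card_biUnion_le (s := Icc 1 R)
      (t := fun r => ((Ioc Y B).filter (fun p => p.Prime)).biUnion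
    (fun p => (Ioc A (A + H)).filter
      (fun m => ∃ j, 1 ≤ j ∧ (p * j + 1).Prime ∧ m = p * r * (p * j + 1))))).trans
      (Finset.sum_le_sum fun p _ => Finset.card_biUnion_le)
    exact_mod_cast this
  refine h1.trans ?_
  have h2 : ∀ r ∈ Icc 1 R, ∑ p ∈ (Ioc Y B).filter (fun p => p.Prime),
        (((Ioc A (A + H)).filter
          (fun m => ∃ j, 1 ≤ j ∧ (p * j + 1).Prime ∧ m = p * r * (p * j + 1))).card : ℝ)
        ≤ 4 * H / (Y * Real.log D) * (1 / (r : ℝ)) + B * (4 / Real.log D + (D : ℝ) ^ 4 + D) := by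
    intro r hr
    rw [mem_Icc] at hr
    have hr0 : (0 : ℝ) < r := by exact_mod_cast hr.1
    have h3 : ∀ p ∈ (Ioc Y B).filter (fun p => p.Prime),
        (((Ioc A (A + H)).filter
          (fun m => ∃ j, 1 ≤ j ∧ (p * j + 1).Prime ∧ m = p * r * (p * j + 1))).card : ℝ)
          ≤ 4 * H / (r * Real.log D) * (1 / (p : ℝ) ^ 2) + (4 / Real.log D + (D : ℝ) ^ 4 + D) := by
      intro p hp
      rw [mem_filter] at hp
      have hp0 : (0 : ℝ) < p := by exact_mod_cast hp.2.pos
      refine (card_progP A H p r D hp.2 hr.1 hD).trans (le_of_eq ?_)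
      field_simp
      ring
    refine (Finset.sum_le_sum h3).trans ?_
    rw [Finset.sum_add_distrib, ← Finset.mul_sum, Finset.sum_const, nsmul_eq_mul]
    apply add_le_add
    · have h6 : ∑ p ∈ (Ioc Y B).filter (fun p => p.Prime), 1 / (p : ℝ) ^ 2 ≤ 1 / (Y : ℝ) :=
        (Finset.sum_le_sum_of_subset_of_nonneg (Finset.filter_subset _ _)
          (fun _ _ _ => by positivity)).trans (sum_tail_le Y _ hY)
      calc _ ≤ 4 * H / (r * Real.log D) * (1 / Y) := mul_le_mul_of_nonneg_left h6 (by positivity)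
        _ = _ := by
          have hY0 : (0 : ℝ) < Y := by exact_mod_cast hY
          field_simp
    · apply mul_le_mul_of_nonneg_right _ (by positivity)
      have : ((Ioc Y B).filter (fun p => p.Prime)).card ≤ B := by
        refine (Finset.card_filter_le _ _).trans ?_
        simp
      exact_mod_cast this
  refine (Finset.sum_le_sum h2).trans ?_
  rw [Finset.sum_add_distrib, ← Finset.mul_sum, Finset.sum_const, nsmul_eq_mul, Nat.card_Icc,
    Nat.add_sub_cancel]
  have h5 : 4 * (H : ℝ) / (Y * Real.log D) * ∑ r ∈ Icc 1 R, 1 / (r : ℝ)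
      ≤ 4 * H / (Y * Real.log D) * (1 + Real.log R) :=
    mul_le_mul_of_nonneg_left (sum_inv_Icc_le R) (by positivity)
  have h6 : 4 * (H : ℝ) / (Y * Real.log D) * (1 + Real.log R)
      = 4 * H * (1 + Real.log R) / (Y * Real.log D) := by ring
  rw [h6] at h5
  linarith

end Pool.Agent.Cyclic
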