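import Mathlib
import Pool.Agent.Cyclic.NonCyc
import Pool.Agent.Cyclic.Delta

set_option autoImplicit false

namespace Pool.Agent.Cyclic

open Finset Filter Topology

noncomputable def Lr (n : ℕ) : ℝ := Real.log (Real.log n)
noncomputable def l3 (n : ℕ) : ℝ := Real.log (Lr n)
noncomputable def ee (n : ℕ) : ℝ := Real.exp (√(l3 n))
noncomputable def eps (n : ℕ) : ℝ := (ee n)⁻¹
noncomputable def Y1 (n : ℕ) : ℕ := ⌊Lr n * eps n⌋₊
noncomputable def Y2 (n : ℕ) : ℕ := ⌊Lr n * ee n⌋₊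
noncomputable def Yc (n : ℕ) : ℕ := ⌊Lr n⌋₊
def HH (n : ℕ) : ℕ := 3 * n ^ 2 + 3 * n + 1

lemma t_log : Tendsto (fun n : ℕ => Real.log n) atTop atTop :=
  Real.tendsto_log_atTop.comp tendsto_natCast_atTop_atTop

lemma t_Lr : Tendsto Lr atTop atTop := Real.tendsto_log_atTop.comp t_log

lemma t_l3 : Tendsto l3 atTop atTop := Real.tendsto_log_atTop.comp t_Lr

lemma t_sq : Tendsto (fun n => √(l3 n)) atTop atTop := Real.tendsto_sqrt_atTop.comp t_l3

lemma t_ee : Tendsto ee atTop atTop := Real.tendsto_exp_atTop.comp t_sq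

lemma t_eps : Tendsto eps atTop (𝓝 0) := t_ee.inv_tendsto_atTop

lemma ee_pos (n : ℕ) : 0 < ee n := Real.exp_pos _
lemma eps_pos (n : ℕ) : 0 < eps n := inv_pos.2 (ee_pos n)
lemma one_le_ee (n : ℕ) : 1 ≤ ee n := Real.one_le_exp (Real.sqrt_nonneg _)
lemma eps_le_one (n : ℕ) : eps n ≤ 1 := inv_le_one_of_one_le₀ (one_le_ee n)
lemma ee_mul_eps (n : ℕ) : ee n * eps n = 1 := mul_inv_cancel₀ (ee_pos n).ne'

/-- all largeness conditions -/
structure Big (n : ℕ) : Prop where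
  hn : 1000 ≤ n
  hl : 3 ≤ l3 n
  hL : 6 ≤ Lr n
  hlog3 : (Real.log n) ^ 3 ≤ √n
  hL2 : 2 * (Lr n) ^ 2 ≤ Real.log n
  hle : 200 * l3 n * eps n ≤ 1

lemma t_mul_exp_sqrt : Tendsto (fun x : ℝ => x * Real.exp (-√x)) atTop (𝓝 0) := by
  have h1 := Real.tendsto_pow_mul_exp_neg_atTop_nhds_zero 2
  have h2 := h1.comp Real.tendsto_sqrt_atTop
  refine h2.congr' ?_
  filter_upwards [eventually_ge_atTop 0] with x hx
  simp only [Function.comp]
  rw [Real.sq_sqrt hx]

lemma eventually_big : ∀ᶠ n in atTop, Big n := by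
  have h1 : ∀ᶠ n : ℕ in atTop, 1000 ≤ n := eventually_ge_atTop 1000
  have h2 := t_l3.eventually_ge_atTop 3
  have h3 := t_Lr.eventually_ge_atTop 6
  have h4 : ∀ᶠ x : ℝ in atTop, (Real.log x) ^ 3 ≤ √x := by
    have h5 := (isLittleO_log_rpow_atTop (show (0 : ℝ) < 1 / 6 by norm_num)).bound
      (show (0 : ℝ) < 1 by norm_num)
    filter_upwards [h5, eventually_ge_atTop 1] with x hx hx1
    have hlog : 0 ≤ Real.log x := Real.log_nonneg hx1
    rw [one_mul, Real.norm_of_nonneg hlog, Real.norm_of_nonneg (by positivity)] at hx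
    calc (Real.log x) ^ 3 ≤ (x ^ (1 / 6 : ℝ)) ^ 3 := pow_le_pow_left₀ hlog hx 3
      _ = √x := by
        rw [← Real.rpow_natCast, ← Real.rpow_mul (by linarith), Real.sqrt_eq_rpow]
        norm_num
  have h4' := tendsto_natCast_atTop_atTop (R := ℝ) |>.eventually h4
  have h6 : ∀ᶠ y : ℝ in atTop, 2 * (Real.log y) ^ 2 ≤ y := by
    have h5 := (isLittleO_log_rpow_atTop (show (0 : ℝ) < 1 / 2 by norm_num)).bound
      (show (0 : ℝ) < 1 / 2 by norm_num)
    filter_upwards [h5, eventually_ge_atTop 1] with x hx hx1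
    have hlog : 0 ≤ Real.log x := Real.log_nonneg hx1
    rw [Real.norm_of_nonneg hlog, Real.norm_of_nonneg (by positivity), ← Real.sqrt_eq_rpow] at hx
    have h7 := Real.sq_sqrt (show 0 ≤ x by linarith)
    have h8 := Real.sqrt_nonneg x
    nlinarith
  have h6' := t_log.eventually h6
  have h7 := (t_mul_exp_sqrt.comp t_l3).eventually_le_const (show (0 : ℝ) < 1 / 200 by norm_num)
  filter_upwards [h1, h2, h3, h4', h6', h7] with n a1 a2 a3 a4 a6 a7
  refine ⟨a1, a2, a3, a4, a6, ?_⟩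
  simp only [Function.comp] at a7
  unfold eps ee
  rw [← Real.exp_neg]
  linarith

namespace Big

variable {n : ℕ} (h : Big n)
include h

lemma ee_le : ee n ≤ Lr n := by
  have h1 : √(l3 n) ≤ l3 n := by
    rw [Real.sqrt_le_left (by linarith [h.hl])]
    nlinarith [h.hl]
  calc ee n ≤ Real.exp (l3 n) := Real.exp_le_exp.2 h1
    _ = Lr n := Real.exp_log (by linarith [h.hL])

lemma Lr_le_log : Lr n ≤ Real.log n := by
  nlinarith [h.hL2, h.hL]

lemma log_ge : 72 ≤ Real.log n := by nlinarith [h.hL2, h.hL]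

lemma inv_log_le : (Real.log n)⁻¹ ≤ eps n :=
  inv_anti₀ (ee_pos n) (h.ee_le.trans h.Lr_le_log)

lemma n_pos : (0 : ℝ) < n := by
  have : (1000 : ℝ) ≤ n := by exact_mod_cast h.hn
  linarith

lemma sqrt_sq : √(n : ℝ) ^ 2 = n := Real.sq_sqrt h.n_pos.le

lemma log_le_sqrt : Real.log n ≤ √n := by
  have h1 := h.hlog3
  have h2 := h.log_ge
  have h3 : Real.log n ≤ (Real.log n) ^ 3 := by
    calc Real.log n = Real.log n * 1 := by ring
      _ ≤ Real.log n * (Real.log n) ^ 2 := by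
        apply mul_le_mul_of_nonneg_left _ (by linarith)
        nlinarith
      _ = _ := by ring
  linarith

lemma sqrt_ge : 72 ≤ √(n : ℝ) := h.log_ge.trans h.log_le_sqrt

lemma log_le_n : Real.log n ≤ n := by
  have h1 := h.log_le_sqrt
  have h2 := h.sqrt_sq
  nlinarith [h.sqrt_ge]

lemma HH_ge : 3 * (n : ℝ) ^ 2 ≤ HH n := by
  unfold HH
  push_cast
  have := h.n_pos
  nlinarith

lemma HH_pos : (0 : ℝ) < HH n := by
  have := h.HH_ge
  have := h.n_pos
  nlinarith

lemma HH_le : (HH n : ℝ) ≤ 4 * (n : ℝ) ^ 2 := by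
  unfold HH
  push_cast
  have h1 : (1000 : ℝ) ≤ n := by exact_mod_cast h.hn
  nlinarith

/-- `loglog √n` is at least half of `loglog n` -/
lemma half_le : Lr n / 2 ≤ Real.log (Real.log (Nat.sqrt n)) := by
  have h1 : √(n : ℝ) / 2 ≤ (Nat.sqrt n : ℝ) := by
    have h2 := Nat.lt_succ_sqrt' n
    have h3 : (n : ℝ) < ((Nat.sqrt n : ℝ) + 1) ^ 2 := by exact_mod_cast h2
    have h4 : √(n : ℝ) < (Nat.sqrt n : ℝ) + 1 := by
      rw [Real.sqrt_lt' (by positivity)]
      exact h3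
    have := h.sqrt_ge
    linarith
  have hs : 0 < √(n : ℝ) := by linarith [h.sqrt_ge]
  have h2 : Real.log n / 4 ≤ Real.log (Nat.sqrt n) := by
    calc Real.log n / 4 ≤ Real.log n / 2 - Real.log 2 := by
          have := Real.log_two_lt_d9
          have := h.log_ge
          linarith
      _ = Real.log (√(n : ℝ) / 2) := by
          rw [Real.log_div hs.ne' (by norm_num), Real.log_sqrt h.n_pos.le]
      _ ≤ _ := Real.log_le_log (by positivity) h1
  calc Lr n / 2 ≤ Lr n - Real.log 4 := by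
        have h5 : Real.log 4 = 2 * Real.log 2 := by
          rw [show (4 : ℝ) = 2 ^ 2 by norm_num, Real.log_pow]; norm_num
        have := Real.log_two_lt_d9
        have := h.hL
        linarith
    _ = Real.log (Real.log n / 4) := by
        unfold Lr
        rw [Real.log_div (by linarith [h.log_ge]) (by norm_num)]
    _ ≤ _ := Real.log_le_log (by linarith [h.log_ge]) h2

lemma Y1_le : (Y1 n : ℝ) ≤ Lr n * eps n := by
  unfold Y1
  apply Nat.floor_le
  have := h.hL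
  have := eps_pos n
  positivity

open Classical in
lemma N1 : (((Ioc (n ^ 3) (n ^ 3 + HH n)).filter
    (fun m => Cyc m ∧ ∃ p ≤ Y1 n, p.Prime ∧ p ∣ m)).card : ℝ) ≤ 200 * HH n * eps n := by
  have hℓ := h.half_le
  set ℓ := Real.log (Real.log (Nat.sqrt n)) with hℓd
  have hL := h.hL
  have he := eps_pos n
  have he1 := eps_le_one n
  have hY := h.Y1_le
  have hℓ3 : 3 ≤ ℓ := by linarith
  have hb := N1_bound (n ^ 3) (HH n) (Y1 n) (Nat.sqrt n) (by
    have := h.hn
    calc 2 ≤ n := by omega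
      _ = n ^ 1 := (pow_one n).symm
      _ ≤ n ^ 3 := Nat.pow_le_pow_right (by omega) (by norm_num)) (by rw [← hℓd]; linarith) (by
    intro p hp hp3 hpY
    rw [← hℓd]
    have hpY' : (p : ℝ) ≤ Lr n * eps n := by
      have : (p : ℝ) ≤ Y1 n := by exact_mod_cast hpY
      linarith
    have hp0 : (0 : ℝ) < p := by exact_mod_cast hp.pos
    have hlogp : Real.log p ≤ l3 n := by
      unfold l3
      apply Real.log_le_log hp0
      nlinarith
    have hlogp0 : 0 ≤ Real.log p := Real.log_natCast_nonneg p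
    have h1 : 100 * (p : ℝ) * Real.log p ≤ 100 * (Lr n * eps n) * l3 n := by
      apply mul_le_mul (by linarith) hlogp hlogp0 (by positivity)
    have h2 := h.hle
    have h3 : 100 * (Lr n * eps n) * l3 n = Lr n / 2 * (200 * l3 n * eps n) := by ring
    rw [h3] at h1
    have h4 : Lr n / 2 * (200 * l3 n * eps n) ≤ Lr n / 2 * 1 :=
      mul_le_mul_of_nonneg_left h2 (by linarith)
    linarith)
  rw [← hℓd] at hb
  refine hb.trans ?_
  have hH := h.HH_ge
  have hHpos := h.HH_pos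
  have hn0 := h.n_pos
  have hn : (1000 : ℝ) ≤ n := by exact_mod_cast h.hn
  have hLn : Lr n ≤ n := h.Lr_le_log.trans h.log_le_n
  have hY0 : (0 : ℝ) ≤ Y1 n := Nat.cast_nonneg _
  have hYH : (Y1 n : ℝ) ≤ HH n := by nlinarith
  have e1 : 2 * ((HH n : ℝ) + Y1 n) / ℓ ≤ 8 * HH n / Lr n := by
    rw [div_le_div_iff₀ (by linarith) (by linarith)]
    nlinarith
  have hz : ((Nat.sqrt n : ℝ) + 1) ^ 2 ≤ 4 * n := by
    have h1 : (Nat.sqrt n : ℝ) ^ 2 ≤ n := by exact_mod_cast Nat.sqrt_le' n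
    have h2 : (1 : ℝ) ≤ Nat.sqrt n := by
      have : 1 ≤ Nat.sqrt n := by
        rw [Nat.le_sqrt']
        have := h.hn
        omega
      exact_mod_cast this
    nlinarith
  have e2 : 12 * ((Nat.sqrt n : ℝ) + 1) ^ 2 * (Y1 n : ℝ) ^ 2 / ℓ ^ 2 ≤ 192 * n := by
    rw [div_le_iff₀ (by positivity)]
    have h1 : (Y1 n : ℝ) ≤ 2 * ℓ := by nlinarith
    have h2 : (Y1 n : ℝ) ^ 2 ≤ (2 * ℓ) ^ 2 := pow_le_pow_left₀ hY0 h1 2
    calc 12 * ((Nat.sqrt n : ℝ) + 1) ^ 2 * (Y1 n : ℝ) ^ 2 ≤ 12 * (4 * n) * (2 * ℓ) ^ 2 := by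
          apply mul_le_mul (by linarith) h2 (by positivity) (by positivity)
      _ = 192 * n * ℓ ^ 2 := by ring
  calc (Y1 n : ℝ) * (2 * ((HH n : ℝ) + Y1 n) / ℓ +
        12 * ((Nat.sqrt n : ℝ) + 1) ^ 2 * (Y1 n : ℝ) ^ 2 / ℓ ^ 2)
      ≤ (Lr n * eps n) * (8 * HH n / Lr n + 192 * n) := by
        apply mul_le_mul hY (by linarith) (by positivity) (by positivity)
    _ = eps n * (8 * HH n + 192 * (n * Lr n)) := by
        have : Lr n ≠ 0 := by linarith
        field_simp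
    _ ≤ eps n * (200 * HH n) := by
        apply mul_le_mul_of_nonneg_left _ he.le
        have : (n : ℝ) * Lr n ≤ n ^ 2 := by nlinarith
        linarith
    _ = _ := by ring

end Big

end Pool.Agent.Cyclic
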