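import Mathlib
import Pool.Agent.Cyclic.Asym

set_option autoImplicit false

namespace Pool.Agent.Cyclic

open Finset Filter Topology

lemma floor_ge_half {x : ℝ} (hx : 1 ≤ x) : x / 2 ≤ (⌊x⌋₊ : ℝ) := by
  have h1 := Nat.lt_floor_add_one x
  have h2 : (1 : ℝ) ≤ ⌊x⌋₊ := by
    have : 1 ≤ ⌊x⌋₊ := Nat.le_floor (by exact_mod_cast hx)
    exact_mod_cast this
  linarith

lemma sum_inv_sqrt_le (n : ℕ) : ∑ r ∈ Icc 1 n, 1 / √(r : ℝ) ≤ 2 * √(n : ℝ) := by
  induction n with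
  | zero => simp
  | succ n ih =>
    rw [Finset.sum_Icc_succ_top (by omega)]
    have h1 : 1 / √((n + 1 : ℕ) : ℝ) ≤ 2 * √((n + 1 : ℕ) : ℝ) - 2 * √(n : ℝ) := by
      push_cast
      have h0 : (0 : ℝ) ≤ n := Nat.cast_nonneg n
      have ha : 0 < √((n : ℝ) + 1) := Real.sqrt_pos.2 (by linarith)
      have hb := Real.sqrt_nonneg (n : ℝ)
      have ha2 := Real.sq_sqrt (show 0 ≤ (n : ℝ) + 1 by linarith)
      have hb2 := Real.sq_sqrt h0
      rw [div_le_iff₀ ha]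
      nlinarith [sq_nonneg (√((n : ℝ) + 1) - √(n : ℝ))]
    linarith

namespace Big

variable {n : ℕ} (h : Big n)
include h

lemma Y2_ge : Lr n * ee n / 2 ≤ (Y2 n : ℝ) := by
  unfold Y2
  apply floor_ge_half
  have := h.hL
  have := one_le_ee n
  nlinarith

lemma Y2_pos : 1 ≤ Y2 n := by
  have h1 := h.Y2_ge
  have h2 := h.hL
  have h3 := one_le_ee n
  have : (1 : ℝ) ≤ Y2 n := by nlinarith
  exact_mod_cast this

lemma inv_Y2_le : (1 : ℝ) / Y2 n ≤ 2 * eps n / Lr n := by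
  have h1 := h.Y2_ge
  have h2 := h.hL
  have h3 := ee_pos n
  have h4 : 2 * eps n / Lr n = 1 / (Lr n * ee n / 2) := by
    unfold eps
    field_simp
  rw [h4]
  exact one_div_le_one_div_of_le (by positivity) h1

lemma hR : n ^ 3 + HH n ≤ HH n * n := by
  unfold HH
  have := h.hn
  nlinarith

lemma logH_le : 1 + Real.log (HH n) ≤ 3 * Real.log n := by
  have h1 : Real.log (HH n) ≤ Real.log (4 * (n : ℝ) ^ 2) := Real.log_le_log h.HH_pos h.HH_le
  have hn0 := h.n_pos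
  rw [Real.log_mul (by norm_num) (by positivity), Real.log_pow] at h1
  have h5 : Real.log 4 = 2 * Real.log 2 := by
    rw [show (4 : ℝ) = 2 ^ 2 by norm_num, Real.log_pow]; norm_num
  have := Real.log_two_lt_d9
  have := h.log_ge
  push_cast at h1
  linarith

/-- error terms of size `n^{3/2}` times logs -/
lemma err : (n : ℝ) * √(n : ℝ) * Real.log n ^ 2 ≤ HH n * (Real.log n)⁻¹ / 3 := by
  have h1 := h.hlog3
  have h2 := h.log_ge
  have h3 := h.sqrt_sq
  have h4 := h.HH_ge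
  have h5 := h.n_pos
  have h6 := Real.sqrt_nonneg (n : ℝ)
  have hl : 0 < Real.log n := by linarith
  have h7 : (n : ℝ) * √(n : ℝ) * Real.log n ^ 3 ≤ HH n / 3 := by
    calc (n : ℝ) * √(n : ℝ) * Real.log n ^ 3 ≤ (n : ℝ) * √(n : ℝ) * √(n : ℝ) := by
          apply mul_le_mul_of_nonneg_left h1 (by positivity)
      _ = n * √(n : ℝ) ^ 2 := by ring
      _ = n ^ 2 := by rw [h3]; ring
      _ ≤ _ := by linarith
  have h8 : (n : ℝ) * √(n : ℝ) * Real.log n ^ 2 = (n : ℝ) * √(n : ℝ) * Real.log n ^ 3 * (Real.log n)⁻¹ := by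
    field_simp
  rw [h8]
  have h9 : (HH n : ℝ) * (Real.log n)⁻¹ / 3 = HH n / 3 * (Real.log n)⁻¹ := by ring
  rw [h9]
  exact mul_le_mul_of_nonneg_right h7 (by positivity)

lemma Hinv_le : (HH n : ℝ) * (Real.log n)⁻¹ ≤ HH n * eps n :=
  mul_le_mul_of_nonneg_left h.inv_log_le h.HH_pos.le

lemma bS1 : ((S1 (n ^ 3) (HH n) (Y2 n)).card : ℝ) ≤ 2 * (HH n * eps n) := by
  refine (card_S1 _ _ _ h.Y2_pos).trans ?_
  have h1 := h.inv_Y2_le
  have hL := h.hL
  have he := eps_pos n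
  have hH := h.HH_pos
  have e1 : (HH n : ℝ) / Y2 n ≤ HH n * eps n := by
    calc (HH n : ℝ) / Y2 n = HH n * (1 / Y2 n) := by ring
      _ ≤ HH n * (2 * eps n / Lr n) := mul_le_mul_of_nonneg_left h1 hH.le
      _ ≤ HH n * eps n := by
        apply mul_le_mul_of_nonneg_left _ hH.le
        rw [div_le_iff₀ (by linarith)]
        nlinarith
  have e2 : ((Nat.sqrt (n ^ 3 + HH n) : ℕ) : ℝ) ≤ 3 * ((n : ℝ) * √(n : ℝ)) := by
    refine Real.nat_sqrt_le_real_sqrt.trans ?_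
    apply Real.sqrt_le_iff.2
    have h5 := h.n_pos
    have h6 := h.sqrt_sq
    have h7 := Real.sqrt_nonneg (n : ℝ)
    refine ⟨by positivity, ?_⟩
    have h8 : (3 * ((n : ℝ) * √(n : ℝ))) ^ 2 = 9 * n ^ 3 := by
      calc (3 * ((n : ℝ) * √(n : ℝ))) ^ 2 = 9 * n ^ 2 * √(n : ℝ) ^ 2 := by ring
        _ = _ := by rw [h6]; ring
    rw [h8]
    push_cast
    have h9 := h.HH_le
    have h10 : (1000 : ℝ) ≤ n := by exact_mod_cast h.hn
    have h11 : (n : ℝ) ^ 2 ≤ n ^ 3 := by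
      have : (n : ℝ) ^ 3 = n ^ 2 * n := by ring
      rw [this]
      nlinarith [sq_nonneg (n : ℝ)]
    linarith
  have e3 := h.err
  have e4 : 3 * ((n : ℝ) * √(n : ℝ)) ≤ 3 * ((n : ℝ) * √(n : ℝ) * Real.log n ^ 2) := by
    apply mul_le_mul_of_nonneg_left _ (by norm_num)
    apply le_mul_of_one_le_right (mul_nonneg h.n_pos.le (Real.sqrt_nonneg _))
    have := h.log_ge
    nlinarith
  have e5 := h.Hinv_le
  linarith

omit h in
lemma Bge : (Real.log n) ^ 2 ≤ (⌈(Real.log n) ^ 2⌉₊ : ℝ) := Nat.le_ceil _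

lemma Ble : (⌈(Real.log n) ^ 2⌉₊ : ℝ) ≤ 2 * (Real.log n) ^ 2 := by
  have h1 := Nat.ceil_lt_add_one (sq_nonneg (Real.log n))
  have := h.log_ge
  nlinarith

lemma Bpos : 1 ≤ ⌈(Real.log n) ^ 2⌉₊ := by
  have h1 := Big.Bge (n := n)
  have := h.log_ge
  have : (1 : ℝ) ≤ (⌈(Real.log n) ^ 2⌉₊ : ℝ) := by nlinarith
  exact_mod_cast this

lemma bS2 : ((S2 (n ^ 3) (HH n) ⌈(Real.log n) ^ 2⌉₊).card : ℝ) ≤ 6 * (HH n * eps n) := by
  refine (card_S2 _ _ _ h.Bpos).trans ?_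
  have h1 := h.logH_le
  have h2 := h.log_ge
  have h3 := h.HH_pos
  have h4 := h.Hinv_le
  have h5 := Big.Bge (n := n)
  calc 2 * (HH n : ℝ) * (1 + Real.log (HH n)) / (⌈(Real.log n) ^ 2⌉₊ : ℝ)
      ≤ 2 * (HH n : ℝ) * (3 * Real.log n) / (Real.log n) ^ 2 := by
        apply div_le_div₀ (by positivity) _ (by positivity) h5
        exact mul_le_mul_of_nonneg_left h1 (by positivity)
    _ = 6 * (HH n * (Real.log n)⁻¹) := by field_simp; ring
    _ ≤ _ := by linarith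

lemma bpi : ∑ r ∈ Icc 1 n, (((Nat.primeCounting (Nat.sqrt ((n ^ 3 + HH n) / r))) : ℕ) : ℝ)
    ≤ 4 * (HH n * (Real.log n)⁻¹) := by
  have hn0 := h.n_pos
  have hn : (1000 : ℝ) ≤ n := by exact_mod_cast h.hn
  have hlog := h.log_ge
  set N : ℕ := n ^ 3 + HH n with hN
  have hN' : (N : ℝ) = ((n : ℝ) + 1) ^ 3 := by
    rw [hN]; unfold HH; push_cast; ring
  have h1 : ∀ r ∈ Icc 1 n, (((Nat.primeCounting (Nat.sqrt (N / r))) : ℕ) : ℝ)
      ≤ 4 * √(N : ℝ) * (Real.log n)⁻¹ * (1 / √(r : ℝ)) := by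
    intro r hr
    rw [mem_Icc] at hr
    have hr0 : (0 : ℝ) < r := by exact_mod_cast hr.1
    have hrn : (r : ℝ) ≤ n := by exact_mod_cast hr.2
    set x : ℝ := √((N : ℝ) / r) with hx
    have hxn : (n : ℝ) ≤ x := by
      rw [hx]
      apply Real.le_sqrt_of_sq_le
      rw [le_div_iff₀ hr0, hN']
      nlinarith
    have hx0 : 0 < x := by linarith
    have h2 : Nat.sqrt (N / r) ≤ ⌊x⌋₊ := by
      apply Nat.le_floor
      refine Real.nat_sqrt_le_real_sqrt.trans ?_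
      rw [hx]
      apply Real.sqrt_le_sqrt
      exact Nat.cast_div_le
    have h3 : (((Nat.primeCounting (Nat.sqrt (N / r))) : ℕ) : ℝ)
        ≤ (((Nat.primeCounting ⌊x⌋₊) : ℕ) : ℝ) := by
      exact_mod_cast Nat.monotone_primeCounting h2
    have h4 := Chebyshev.pi_le_log4_mul_div (x := x) (by linarith)
    have h5 : Real.log 4 ≤ 1.4 := by
      have h5 : Real.log 4 = 2 * Real.log 2 := by
        rw [show (4 : ℝ) = 2 ^ 2 by norm_num, Real.log_pow]; norm_num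
      rw [h5]
      have := Real.log_two_lt_d9
      linarith
    have h6 : Real.log n / 2 ≤ Real.log √x := by
      rw [Real.log_sqrt hx0.le]
      have := Real.log_le_log hn0 hxn
      linarith
    have h7 : Real.log 4 * x / Real.log √x ≤ 3 * x / Real.log n := by
      rw [div_le_div_iff₀ (by linarith) (by linarith)]
      have h8 : Real.log 4 * x * Real.log n ≤ 1.4 * x * Real.log n := by
        apply mul_le_mul_of_nonneg_right _ (by linarith)
        exact mul_le_mul_of_nonneg_right h5 hx0.le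
      have h9 : 3 * x * (Real.log n / 2) ≤ 3 * x * Real.log √x :=
        mul_le_mul_of_nonneg_left h6 (by linarith)
      have h10 : 0 ≤ x * Real.log n := by positivity
      nlinarith
    have h8 : √x ≤ x / Real.log n := by
      rw [le_div_iff₀ (by linarith)]
      have h9 : Real.log n ≤ √x := h.log_le_sqrt.trans (Real.sqrt_le_sqrt hxn)
      have h10 := Real.mul_self_sqrt hx0.le
      have h11 := Real.sqrt_nonneg x
      nlinarith
    have h12 : x = √(N : ℝ) * (1 / √(r : ℝ)) := by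
      rw [hx, Real.sqrt_div' _ hr0.le]; ring
    refine h3.trans (h4.trans ?_)
    calc Real.log 4 * x / Real.log √x + √x ≤ 3 * x / Real.log n + x / Real.log n := by linarith
      _ = 4 * x * (Real.log n)⁻¹ := by field_simp; ring
      _ = _ := by rw [h12]; ring
  refine (Finset.sum_le_sum h1).trans ?_
  rw [← Finset.mul_sum]
  have h2 := sum_inv_sqrt_le n
  have h3 : √(N : ℝ) * √(n : ℝ) ≤ ((n : ℝ) + 1) ^ 2 := by
    rw [← Real.sqrt_mul (Nat.cast_nonneg _)]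
    apply Real.sqrt_le_iff.2
    refine ⟨by positivity, ?_⟩
    rw [hN']
    nlinarith [pow_pos (show (0 : ℝ) < (n : ℝ) + 1 by linarith) 3]
  have h4 : 2 * ((n : ℝ) + 1) ^ 2 ≤ HH n := by
    unfold HH; push_cast; nlinarith
  have hinv : 0 ≤ (Real.log n)⁻¹ := by positivity
  calc 4 * √(N : ℝ) * (Real.log n)⁻¹ * ∑ r ∈ Icc 1 n, 1 / √(r : ℝ)
      ≤ 4 * √(N : ℝ) * (Real.log n)⁻¹ * (2 * √(n : ℝ)) := by
        apply mul_le_mul_of_nonneg_left h2 (by positivity)
    _ = 4 * (2 * (√(N : ℝ) * √(n : ℝ)) * (Real.log n)⁻¹) := by ring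
    _ ≤ 4 * (HH n * (Real.log n)⁻¹) := by
        apply mul_le_mul_of_nonneg_left _ (by norm_num)
        apply mul_le_mul_of_nonneg_right _ hinv
        linarith

lemma bS3 : ((S3 (n ^ 3) (HH n) ⌈(Real.log n) ^ 2⌉₊ n).card : ℝ) ≤ 6 * (HH n * eps n) := by
  refine (card_S3 _ _ _ _ h.Bpos).trans ?_
  have h1 := h.bpi
  have h2 := h.log_ge
  have h3 := h.HH_pos
  have h4 := h.Hinv_le
  have h5 := Big.Bge (n := n)
  have h6 : (HH n : ℝ) * (1 + Real.log n) / (⌈(Real.log n) ^ 2⌉₊ : ℝ)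
      ≤ 2 * (HH n * (Real.log n)⁻¹) := by
    calc (HH n : ℝ) * (1 + Real.log n) / (⌈(Real.log n) ^ 2⌉₊ : ℝ)
        ≤ (HH n : ℝ) * (2 * Real.log n) / (Real.log n) ^ 2 := by
          apply div_le_div₀ (by positivity) _ (by positivity) h5
          exact mul_le_mul_of_nonneg_left (by linarith) (by positivity)
      _ = 2 * (HH n * (Real.log n)⁻¹) := by field_simp
  linarith

lemma bS4 : ((S4 (n ^ 3) (HH n) (Y2 n) ⌈(Real.log n) ^ 2⌉₊).card : ℝ) ≤ 1200 * (HH n * eps n) := by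
  refine (card_S4 _ _ _ _ (Nat.log 2 (HH n) + 1) h.Y2_pos
    (Nat.lt_pow_succ_log_self (by norm_num) _).le).trans ?_
  have h1 := h.logH_le
  have h2 := h.log_ge
  have h3 := h.HH_pos
  have hL := h.hL
  have he := eps_pos n
  have h4 : Real.log ((Nat.log 2 (HH n) + 1 : ℕ) : ℝ) ≤ 2 * Lr n := by
    have h5 : ((2 : ℝ) ^ (Nat.log 2 (HH n))) ≤ HH n := by
      have : 2 ^ (Nat.log 2 (HH n)) ≤ HH n := Nat.pow_log_le_self 2 (by unfold HH; omega)
      exact_mod_cast this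
    have h6 := Real.log_le_log (by positivity) h5
    rw [Real.log_pow] at h6
    have h7 : ((Nat.log 2 (HH n) + 1 : ℕ) : ℝ) ≤ (Real.log n) ^ 2 := by
      push_cast
      have h8 := Real.log_two_gt_d9
      have h9 : (0 : ℝ) ≤ (Nat.log 2 (HH n) : ℝ) := Nat.cast_nonneg _
      have h10 : (Nat.log 2 (HH n) : ℝ) * 0.69 ≤ 3 * Real.log n := by nlinarith
      nlinarith
    have h8 := Real.log_le_log (by positivity) h7
    rw [Real.log_pow] at h8
    unfold Lr
    push_cast at h8 ⊢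
    exact h8
  have h5 := h.inv_Y2_le
  calc 2 * (HH n : ℝ) * (131 + 130 * Real.log ((Nat.log 2 (HH n) + 1 : ℕ) : ℝ)) / Y2 n
      = 2 * (HH n : ℝ) * (131 + 130 * Real.log ((Nat.log 2 (HH n) + 1 : ℕ) : ℝ)) * (1 / Y2 n) := by
        ring
    _ ≤ 2 * (HH n : ℝ) * (300 * Lr n) * (2 * eps n / Lr n) := by
        apply mul_le_mul _ h5 (by positivity) (by positivity)
        apply mul_le_mul_of_nonneg_left _ (by positivity)
        linarith
    _ = 1200 * (HH n * eps n) := by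
        have : Lr n ≠ 0 := by linarith
        field_simp
        norm_num

lemma bS5 : ((S5 (n ^ 3) (HH n) (Y2 n) ⌈(Real.log n) ^ 2⌉₊ n).card : ℝ) ≤ 300 * (HH n * eps n) := by
  have hn0 := h.n_pos
  have hlog := h.log_ge
  have hL := h.hL
  have he := eps_pos n
  have hH := h.HH_pos
  set w : ℝ := √(√(√(n : ℝ))) with hw
  have hw0 : 0 ≤ w := Real.sqrt_nonneg _
  have hw2 : w ^ 2 = √(√(n : ℝ)) := Real.sq_sqrt (Real.sqrt_nonneg _)
  have hw4 : w ^ 4 = √(n : ℝ) := by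
    calc w ^ 4 = (w ^ 2) ^ 2 := by ring
      _ = (√(√(n : ℝ))) ^ 2 := by rw [hw2]
      _ = _ := Real.sq_sqrt (Real.sqrt_nonneg _)
  have hwlog : Real.log w = Real.log n / 8 := by
    rw [hw, Real.log_sqrt (Real.sqrt_nonneg _), Real.log_sqrt (Real.sqrt_nonneg _),
      Real.log_sqrt hn0.le]
    ring
  have hw1 : 1 < w := by
    by_contra hc
    push Not at hc
    have := Real.log_nonpos hw0 hc
    linarith
  have hDge := floor_ge_half hw1.le
  have hDle : (⌊w⌋₊ : ℝ) ≤ w := Nat.floor_le hw0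
  set D := ⌊w⌋₊ with hD
  have hlogD : Real.log n / 16 ≤ Real.log D := by
    have h1 := Real.log_le_log (show 0 < w / 2 by linarith) hDge
    rw [Real.log_div (by linarith) (by norm_num), hwlog] at h1
    have := Real.log_two_lt_d9
    linarith
  have hD2 : 2 ≤ D := by
    by_contra hc
    have h1 : (D : ℝ) ≤ 1 := by
      have : D ≤ 1 := by omega
      exact_mod_cast this
    have := Real.log_nonpos (Nat.cast_nonneg D) h1
    linarith
  refine (card_S5 _ _ _ _ _ D h.Y2_pos hD2).trans ?_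
  have hlogDpos : 0 < Real.log D := by linarith
  have e1 : 4 * (HH n : ℝ) * (1 + Real.log n) / (Y2 n * Real.log D) ≤ 256 * (HH n * eps n) := by
    have h1 := h.inv_Y2_le
    have h2 : 1 / Real.log D ≤ 16 / Real.log n := by
      rw [div_le_div_iff₀ hlogDpos (by linarith)]
      linarith
    calc 4 * (HH n : ℝ) * (1 + Real.log n) / (Y2 n * Real.log D)
        = 4 * (HH n : ℝ) * (1 + Real.log n) * ((1 / Y2 n) * (1 / Real.log D)) := by
          rw [div_mul_div_comm, one_mul, mul_one_div]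
      _ ≤ 4 * (HH n : ℝ) * (2 * Real.log n) * ((2 * eps n / Lr n) * (16 / Real.log n)) := by
          apply mul_le_mul _ _ (by positivity) (by positivity)
          · apply mul_le_mul_of_nonneg_left (by linarith) (by positivity)
          · apply mul_le_mul h1 h2 (by positivity) (by positivity)
      _ = 256 * (HH n * eps n) * (1 / Lr n) := by
          have : Real.log n ≠ 0 := by linarith
          field_simp
          norm_num
      _ ≤ 256 * (HH n * eps n) * 1 := by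
          apply mul_le_mul_of_nonneg_left _ (by positivity)
          rw [div_le_one (by linarith)]
          linarith
      _ = _ := mul_one _
  have e2 : (n : ℝ) * (⌈(Real.log n) ^ 2⌉₊ : ℝ) * (4 / Real.log D + (D : ℝ) ^ 4 + D)
      ≤ 2 * (HH n * eps n) := by
    have h1 : 4 / Real.log D ≤ 1 := by
      rw [div_le_one hlogDpos]
      linarith
    have h2 : (D : ℝ) ^ 4 ≤ √(n : ℝ) := by
      rw [← hw4]
      exact pow_le_pow_left₀ (Nat.cast_nonneg _) hDle 4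
    have h3 : (D : ℝ) ≤ √(n : ℝ) := by
      rw [← hw4]
      calc (D : ℝ) ≤ w := hDle
        _ = w ^ 1 := (pow_one w).symm
        _ ≤ w ^ 4 := pow_le_pow_right₀ hw1.le (by norm_num)
    have h4 := h.sqrt_ge
    have h5 := h.Ble
    have h6 := h.err
    have h7 := h.Hinv_le
    calc (n : ℝ) * (⌈(Real.log n) ^ 2⌉₊ : ℝ) * (4 / Real.log D + (D : ℝ) ^ 4 + D)
        ≤ (n : ℝ) * (2 * (Real.log n) ^ 2) * (3 * √(n : ℝ)) := by
          apply mul_le_mul _ (by linarith) (by positivity) (by positivity)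
          exact mul_le_mul_of_nonneg_left h5 hn0.le
      _ = 6 * ((n : ℝ) * √(n : ℝ) * Real.log n ^ 2) := by ring
      _ ≤ _ := by linarith
  linarith [mul_pos hH he]

open Classical in
lemma N2 : (((Ioc (n ^ 3) (n ^ 3 + HH n)).filter
    (fun m => ¬ Cyc m ∧ ∀ p ≤ Y2 n, p.Prime → ¬ p ∣ m)).card : ℝ) ≤ 2000 * HH n * eps n := by
  have h1 := Finset.card_le_card (cover (n ^ 3) (HH n) (Y2 n) ⌈(Real.log n) ^ 2⌉₊ n h.hR)
  have h2 := h1.trans (Finset.card_union_le _ _)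
  have h3 := Finset.card_union_le (S2 (n ^ 3) (HH n) ⌈(Real.log n) ^ 2⌉₊)
    (S3 (n ^ 3) (HH n) ⌈(Real.log n) ^ 2⌉₊ n ∪ (S4 (n ^ 3) (HH n) (Y2 n) ⌈(Real.log n) ^ 2⌉₊ ∪
      S5 (n ^ 3) (HH n) (Y2 n) ⌈(Real.log n) ^ 2⌉₊ n))
  have h4 := Finset.card_union_le (S3 (n ^ 3) (HH n) ⌈(Real.log n) ^ 2⌉₊ n)
    (S4 (n ^ 3) (HH n) (Y2 n) ⌈(Real.log n) ^ 2⌉₊ ∪
      S5 (n ^ 3) (HH n) (Y2 n) ⌈(Real.log n) ^ 2⌉₊ n)
  have h5 := Finset.card_union_le (S4 (n ^ 3) (HH n) (Y2 n) ⌈(Real.log n) ^ 2⌉₊)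
    (S5 (n ^ 3) (HH n) (Y2 n) ⌈(Real.log n) ^ 2⌉₊ n)
  have h6 := h2.trans (Nat.add_le_add_left (h3.trans (Nat.add_le_add_left (h4.trans
    (Nat.add_le_add_left h5 _)) _)) _)
  have h7 : (((Ioc (n ^ 3) (n ^ 3 + HH n)).filter
      (fun m => ¬ Cyc m ∧ ∀ p ≤ Y2 n, p.Prime → ¬ p ∣ m)).card : ℝ)
      ≤ (S1 (n ^ 3) (HH n) (Y2 n)).card + ((S2 (n ^ 3) (HH n) ⌈(Real.log n) ^ 2⌉₊).card +
        ((S3 (n ^ 3) (HH n) ⌈(Real.log n) ^ 2⌉₊ n).card +
        ((S4 (n ^ 3) (HH n) (Y2 n) ⌈(Real.log n) ^ 2⌉₊).card +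
          (S5 (n ^ 3) (HH n) (Y2 n) ⌈(Real.log n) ^ 2⌉₊ n).card))) := by
    exact_mod_cast h6
  have b1 := h.bS1
  have b2 := h.bS2
  have b3 := h.bS3
  have b4 := h.bS4
  have b5 := h.bS5
  have hpos : 0 < (HH n : ℝ) * eps n := mul_pos h.HH_pos (eps_pos n)
  linarith

end Big

end Pool.Agent.Cyclic
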