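import Mathlib
import Pool.Agent.Cyclic.Asym2

set_option autoImplicit false

namespace Pool.Agent.Cyclic

open Finset Filter Topology

namespace Big

variable {n : ℕ} (h : Big n)
include h

lemma Y2_le : (Y2 n : ℝ) ≤ Lr n * ee n := by
  unfold Y2
  apply Nat.floor_le
  have := h.hL
  have := ee_pos n
  positivity

lemma Heps_ge : 100 ≤ HH n * eps n := by
  have h1 := h.Hinv_le
  have h2 := h.HH_ge
  have h3 := h.log_le_n
  have h4 := h.log_ge
  have h5 : (1000 : ℝ) ≤ n := by exact_mod_cast h.hn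
  refine le_trans ?_ h1
  rw [← div_eq_mul_inv, le_div_iff₀ (by linarith)]
  nlinarith

lemma four_pow_Y2 : (4 : ℝ) ^ (Y2 n) ≤ HH n * eps n := by
  have h1 := h.Y2_le
  have h2 := h.ee_le
  have hL := h.hL
  have h3 : (Y2 n : ℝ) ≤ (Lr n) ^ 2 := by nlinarith
  have h4 := h.hL2
  have h5 : Real.log 4 = 2 * Real.log 2 := by
    rw [show (4 : ℝ) = 2 ^ 2 by norm_num, Real.log_pow]; norm_num
  have h6 := Real.log_two_lt_d9
  have h7 : (4 : ℝ) ^ (Y2 n) ≤ n := by
    have h8 : (4 : ℝ) ^ (Y2 n) = Real.exp (Y2 n * Real.log 4) := by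
      rw [Real.exp_nat_mul, Real.exp_log (by norm_num)]
    rw [h8, ← Real.le_log_iff_exp_le h.n_pos, h5]
    have : (0 : ℝ) ≤ Y2 n := Nat.cast_nonneg _
    nlinarith
  refine h7.trans (le_trans ?_ h.Hinv_le)
  rw [← div_eq_mul_inv, le_div_iff₀ (by linarith [h.log_ge])]
  have h9 := h.log_le_n
  have h10 := h.HH_ge
  have := h.n_pos
  nlinarith

lemma Y1_le_Yc : Y1 n ≤ Yc n := by
  apply Nat.floor_le_floor
  have := eps_le_one n
  have := h.hL
  nlinarith

lemma Yc_le_Y2 : Yc n ≤ Y2 n := by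
  apply Nat.floor_le_floor
  have := one_le_ee n
  have := h.hL
  nlinarith

lemma four_pow_Y1 : (4 : ℝ) ^ (Y1 n) ≤ HH n * eps n :=
  (pow_le_pow_right₀ (by norm_num) (h.Y1_le_Yc.trans h.Yc_le_Y2)).trans h.four_pow_Y2

lemma l3_exp : Real.exp (l3 n) = Lr n := Real.exp_log (by linarith [h.hL])

lemma eps_div (g : ℕ) (hg : 2 ∣ g) :
    eps n / del (Pat g) (Yc n) ≤ Real.exp 32 * (√(l3 n) ^ 32 * Real.exp (-√(l3 n))) := by
  have hl := h.hl
  have hYc : (Yc n : ℝ) ≤ Lr n := Nat.floor_le (by linarith [h.hL])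
  have hYc1 : 1 ≤ Yc n := Nat.le_floor (by have := h.hL; push_cast; linarith)
  have hYc0 : (0 : ℝ) < Yc n := by exact_mod_cast hYc1
  set b := Nat.log 2 (Yc n) + 1 with hb
  have h1 : Yc n ≤ 2 ^ b := (Nat.lt_pow_succ_log_self (by norm_num) _).le
  have h2 := del_lower g (Yc n) b hg (by omega) h1
  have h3 : ((2 : ℝ) ^ (Nat.log 2 (Yc n))) ≤ Lr n := by
    have : 2 ^ (Nat.log 2 (Yc n)) ≤ Yc n := Nat.pow_log_le_self 2 (by omega)
    have h4 : ((2 : ℝ) ^ (Nat.log 2 (Yc n))) ≤ Yc n := by exact_mod_cast this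
    linarith
  have h4 := Real.log_le_log (by positivity) h3
  rw [Real.log_pow] at h4
  have h5 := Real.log_two_gt_d9
  have h5' := Real.log_two_lt_d9
  have hbl : (b : ℝ) ≤ 2 * l3 n := by
    rw [hb]
    push_cast
    have h6 : (0 : ℝ) ≤ (Nat.log 2 (Yc n) : ℝ) := Nat.cast_nonneg _
    have h7 : (Nat.log 2 (Yc n) : ℝ) * 0.69 ≤ l3 n := by
      unfold l3
      nlinarith
    linarith
  have hb0 : (0 : ℝ) < b := by
    have : 0 < b := by omega
    exact_mod_cast this
  have h6 : Real.log b ≤ Real.log 2 + Real.log (l3 n) := by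
    rw [← Real.log_mul (by norm_num) (by linarith)]
    exact Real.log_le_log hb0 hbl
  have h7 : Real.exp (-(32 + 16 * Real.log (l3 n))) ≤ del (Pat g) (Yc n) := by
    refine le_trans (Real.exp_le_exp.2 ?_) h2
    linarith
  rw [div_le_iff₀ (del_pos g _ hg)]
  have h8 : eps n = Real.exp (-√(l3 n)) := by
    unfold eps ee
    rw [Real.exp_neg]
  have h9 : √(l3 n) ^ 32 = Real.exp (16 * Real.log (l3 n)) := by
    have : √(l3 n) ^ 32 = (√(l3 n) ^ 2) ^ 16 := by ring
    rw [this, Real.sq_sqrt (by linarith)]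
    have h10 : (16 : ℝ) * Real.log (l3 n) = ((16 : ℕ) : ℝ) * Real.log (l3 n) := by norm_num
    rw [h10, Real.exp_nat_mul, Real.exp_log (by linarith)]
  calc eps n = Real.exp 32 * (√(l3 n) ^ 32 * Real.exp (-√(l3 n)))
        * Real.exp (-(32 + 16 * Real.log (l3 n))) := by
        rw [h8, h9, ← Real.exp_add, ← Real.exp_add, ← Real.exp_add]
        congr 1
        ring
    _ ≤ _ := mul_le_mul_of_nonneg_left h7 (by positivity)

lemma ratio (g : ℕ) (hg : 2 ∣ g) (hl16 : 16 ≤ l3 n) :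
    del (Pat g) (Y1 n) * Real.exp (-(192 / √(l3 n))) ≤ del (Pat g) (Y2 n) := by
  have hL := h.hL
  set s := √(l3 n) with hs
  have hs2 : s ^ 2 = l3 n := Real.sq_sqrt (by linarith)
  have hs4 : 4 ≤ s := by
    rw [hs]
    apply Real.le_sqrt_of_sq_le
    linarith
  have h5 := Real.log_two_gt_d9
  have h5' := Real.log_two_lt_d9
  -- lower bound of Y1
  have hLe1 : 1 ≤ Lr n * eps n := by
    have := h.ee_le
    have h1 := ee_mul_eps n
    have h2 := eps_pos n
    nlinarith
  have hY1 : Lr n * eps n / 2 ≤ (Y1 n : ℝ) := floor_ge_half hLe1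
  have hlogeps : Real.log (eps n) = -s := by
    unfold eps ee
    rw [Real.log_inv, Real.log_exp]
  have hlogY1 : l3 n - s - Real.log 2 ≤ Real.log (Y1 n) := by
    have h1 := Real.log_le_log (by positivity) hY1
    rw [Real.log_div (by linarith) (by norm_num), Real.log_mul (by linarith) (eps_pos n).ne',
      hlogeps] at h1
    unfold l3 at *
    linarith
  have hY1pos : 0 < Y1 n := by
    have : (0 : ℝ) < Y1 n := by linarith
    exact_mod_cast this
  set a := Nat.log 2 (Y1 n) with ha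
  have ha1 : Y1 n < 2 ^ (a + 1) := Nat.lt_pow_succ_log_self (by norm_num) _
  have ha2 : 2 ^ a ≤ Y1 n := Nat.pow_log_le_self 2 hY1pos.ne'
  have ha3 : l3 n - s - Real.log 2 ≤ (a + 1) * Real.log 2 := by
    refine hlogY1.trans ?_
    have h1 : (Y1 n : ℝ) ≤ 2 ^ (a + 1) := by exact_mod_cast ha1.le
    have h2 := Real.log_le_log (by exact_mod_cast hY1pos) h1
    rw [Real.log_pow] at h2
    push_cast at h2
    exact h2
  -- upper bound of Y2
  have hY2pos : 0 < Y2 n := h.Y2_pos
  have hlogY2 : Real.log (Y2 n) ≤ l3 n + s := by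
    have h1 := Real.log_le_log (by exact_mod_cast hY2pos) h.Y2_le
    rw [Real.log_mul (by linarith) (ee_pos n).ne'] at h1
    have : Real.log (ee n) = s := by unfold ee; rw [Real.log_exp]
    rw [this] at h1
    unfold l3 at *
    linarith
  set b := Nat.log 2 (Y2 n) + 1 with hb
  have hb1 : Y2 n ≤ 2 ^ b := (Nat.lt_pow_succ_log_self (by norm_num) _).le
  have hb2 : ((b : ℝ) - 1) * Real.log 2 ≤ l3 n + s := by
    refine le_trans ?_ hlogY2
    have h1 : 2 ^ (Nat.log 2 (Y2 n)) ≤ Y2 n := Nat.pow_log_le_self 2 (by omega)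
    have h2 : ((2 : ℝ) ^ (Nat.log 2 (Y2 n))) ≤ Y2 n := by exact_mod_cast h1
    have h3 := Real.log_le_log (by positivity) h2
    rw [Real.log_pow] at h3
    rw [hb]
    push_cast
    linarith
  have haR : l3 n / 2 ≤ a := by
    have h1 : (a : ℝ) * Real.log 2 ≤ a * 0.7 := by
      apply mul_le_mul_of_nonneg_left _ (Nat.cast_nonneg _)
      linarith
    nlinarith
  have ha0 : 1 ≤ a := by
    have : (1 : ℝ) ≤ a := by linarith
    exact_mod_cast this
  have hab : a ≤ b := by
    have h1 : Nat.log 2 (Y1 n) ≤ Nat.log 2 (Y2 n) :=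
      Nat.log_mono_right (h.Y1_le_Yc.trans h.Yc_le_Y2)
    omega
  have hba : (b : ℝ) - a ≤ 6 * s := by
    have h1 : ((b : ℝ) - a) * Real.log 2 ≤ 2 * s + 3 * Real.log 2 := by nlinarith
    by_contra hc
    push Not at hc
    have h2 : 6 * s * Real.log 2 ≤ ((b : ℝ) - a) * Real.log 2 :=
      mul_le_mul_of_nonneg_right hc.le (by linarith)
    nlinarith
  have h1 := del_ratio g hg (h.Y1_le_Yc.trans h.Yc_le_Y2) ha0 hab ha2 hb1
  refine le_trans ?_ h1
  apply mul_le_mul_of_nonneg_left _ (del_pos g _ hg).le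
  apply Real.exp_le_exp.2
  have hs0 : 0 < s := by linarith
  have ha' : (0 : ℝ) < a := by exact_mod_cast ha0
  have h2 : 16 * ((b : ℝ) - a) / a ≤ 192 / s := by
    rw [div_le_div_iff₀ ha' hs0]
    calc 16 * ((b : ℝ) - a) * s ≤ 16 * (6 * s) * s := by
          apply mul_le_mul_of_nonneg_right _ hs0.le
          linarith
      _ = 96 * l3 n := by rw [← hs2]; ring
      _ ≤ 192 * a := by linarith
  linarith

end Big

/-- small error, relative -/
lemma t_eps_div (g : ℕ) (hg : 2 ∣ g) :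
    Tendsto (fun n => eps n / del (Pat g) (Yc n)) atTop (𝓝 0) := by
  have h1 := (Real.tendsto_pow_mul_exp_neg_atTop_nhds_zero 32).comp t_sq
  have h2 := h1.const_mul (Real.exp 32)
  rw [mul_zero] at h2
  refine squeeze_zero' ?_ ?_ h2
  · filter_upwards with n
    have := eps_pos n
    have := del_pos g (Yc n) hg
    positivity
  · filter_upwards [eventually_big] with n hn
    exact hn.eps_div g hg

lemma t_theta : Tendsto (fun n => Real.exp (-(192 / √(l3 n)))) atTop (𝓝 1) := by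
  have h1 : Tendsto (fun n => 192 / √(l3 n)) atTop (𝓝 0) := t_sq.const_div_atTop 192
  have h2 := (Real.continuous_exp.tendsto _).comp h1.neg
  rw [neg_zero, Real.exp_zero] at h2
  exact h2

lemma t_r2 (g : ℕ) (hg : 2 ∣ g) :
    Tendsto (fun n => del (Pat g) (Y2 n) / del (Pat g) (Yc n)) atTop (𝓝 1) := by
  refine tendsto_of_tendsto_of_tendsto_of_le_of_le' t_theta tendsto_const_nhds ?_ ?_
  · filter_upwards [eventually_big, t_l3.eventually_ge_atTop 16] with n hn hl
    have h1 := hn.ratio g hg hl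
    rw [le_div_iff₀ (del_pos g _ hg)]
    have h2 := del_anti g hg hn.Y1_le_Yc
    have h3 : Real.exp (-(192 / √(l3 n))) * del (Pat g) (Yc n)
        ≤ Real.exp (-(192 / √(l3 n))) * del (Pat g) (Y1 n) :=
      mul_le_mul_of_nonneg_left h2 (Real.exp_pos _).le
    linarith
  · filter_upwards [eventually_big] with n hn
    rw [div_le_one (del_pos g _ hg)]
    exact del_anti g hg hn.Yc_le_Y2

lemma t_r1 (g : ℕ) (hg : 2 ∣ g) :
    Tendsto (fun n => del (Pat g) (Y1 n) / del (Pat g) (Yc n)) atTop (𝓝 1) := by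
  have h0 : Tendsto (fun n => (Real.exp (-(192 / √(l3 n))))⁻¹) atTop (𝓝 1) := by
    have := t_theta.inv₀ one_ne_zero
    simpa using this
  refine tendsto_of_tendsto_of_tendsto_of_le_of_le' tendsto_const_nhds h0 ?_ ?_
  · filter_upwards [eventually_big] with n hn
    rw [one_le_div (del_pos g _ hg)]
    exact del_anti g hg hn.Y1_le_Yc
  · filter_upwards [eventually_big, t_l3.eventually_ge_atTop 16] with n hn hl
    have h1 := hn.ratio g hg hl
    have h2 := del_anti g hg hn.Yc_le_Y2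
    rw [div_le_iff₀ (del_pos g _ hg)]
    have h3 := Real.exp_pos (-(192 / √(l3 n)))
    rw [inv_mul_eq_div, le_div_iff₀ h3]
    linarith

lemma t_Y1 : Tendsto Y1 atTop atTop := by
  unfold Y1
  apply tendsto_nat_floor_atTop.comp
  have h1 : Tendsto (fun n => √(l3 n)) atTop atTop := t_sq
  refine tendsto_atTop_mono' atTop ?_ h1
  filter_upwards [eventually_big, t_l3.eventually_ge_atTop 4] with n hn hl
  have hs2 : √(l3 n) ^ 2 = l3 n := Real.sq_sqrt (by linarith)
  have hs : 2 ≤ √(l3 n) := Real.le_sqrt_of_sq_le (by linarith)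
  have h2 : Lr n * eps n = Real.exp (l3 n - √(l3 n)) := by
    unfold eps ee
    rw [Real.exp_sub, hn.l3_exp]
    rfl
  rw [h2]
  have h3 := Real.add_one_le_exp (l3 n - √(l3 n))
  nlinarith

lemma t_psi : Tendsto (fun n => psi (Y1 n)) atTop (𝓝 0) := psi_tendsto.comp t_Y1

end Pool.Agent.Cyclic
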