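import Mathlib
import Pool.Agent.Cyclic.Basic
import Pool.Agent.Cyclic.Delta

set_option autoImplicit false

namespace Pool.Agent.Cyclic

open Finset

open Classical in
lemma card_shift (P : ℕ → Prop) (X Y s : ℕ) :
    ((Ioc X (X + Y)).filter (fun m => P (m + s))).card
      ≤ ((Ioc X (X + Y)).filter (fun m => P m)).card + s := by
  have h1 : ((Ioc X (X + Y)).filter (fun m => P (m + s))).card
      ≤ ((Ioc X (X + Y)).filter (fun m => P m) ∪ Ioc (X + Y) (X + Y + s)).card := by
    apply Finset.card_le_card_of_injOn (fun m => m + s)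
    · intro m hm
      rw [mem_coe, mem_filter, mem_Ioc] at hm
      rw [mem_coe, mem_union, mem_filter, mem_Ioc, mem_Ioc]
      simp only
      by_cases h : m + s ≤ X + Y
      · left; exact ⟨⟨by omega, h⟩, hm.2⟩
      · right; exact ⟨by omega, by omega⟩
    · intro m _ m' _ hmm
      simp only at hmm
      omega
  refine h1.trans ((Finset.card_union_le _ _).trans ?_)
  simp

/-- cyclic with a small prime factor -/
def Small (y m : ℕ) : Prop := Cyc m ∧ ∃ p ≤ y, p.Prime ∧ p ∣ m

/-- rough but not cyclic -/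
def Bad (y m : ℕ) : Prop := ¬ Cyc m ∧ ∀ p ≤ y, p.Prime → ¬ p ∣ m

lemma cyc_cases {y m : ℕ} (hm : Cyc m) : Small y m ∨ ∀ p ≤ y, p.Prime → ¬ p ∣ m := by
  by_cases h : ∃ p ≤ y, p.Prime ∧ p ∣ m
  · left; exact ⟨hm, h⟩
  · right
    intro p hp hpp hd
    exact h ⟨p, hp, hpp, hd⟩

open Classical in
lemma A2_upper (X Y y g : ℕ) :
    ((Ioc X (X + Y)).filter (fun m => Cyc m ∧ Cyc (m + g))).card
      ≤ ((Ioc X (X + Y)).filter (fun m => GoodS (Pat g) (pr y) m)).card
        + (((Ioc X (X + Y)).filter (fun m => Small y m)).card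
          + (((Ioc X (X + Y)).filter (fun m => Small y m)).card + g)) := by
  have hsub : (Ioc X (X + Y)).filter (fun m => Cyc m ∧ Cyc (m + g))
      ⊆ (Ioc X (X + Y)).filter (fun m => GoodS (Pat g) (pr y) m) ∪
        ((Ioc X (X + Y)).filter (fun m => Small y m) ∪
          (Ioc X (X + Y)).filter (fun m => Small y (m + g))) := by
    intro m hm
    rw [mem_filter] at hm
    simp only [mem_union, mem_filter]
    obtain ⟨hI, h0, hg⟩ := hm
    rcases cyc_cases (y := y) h0 with h1 | h1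
    · right; left; exact ⟨hI, h1⟩
    rcases cyc_cases (y := y) hg with h2 | h2
    · right; right; exact ⟨hI, h2⟩
    left
    refine ⟨hI, ?_⟩
    intro l hl h hh
    rw [mem_pr] at hl
    unfold Pat at hh
    simp only [mem_insert, mem_singleton] at hh
    rcases hh with rfl | rfl
    · exact h1 l hl.1 hl.2
    · exact h2 l hl.1 hl.2
  have h1 := (Finset.card_le_card hsub).trans (Finset.card_union_le _ _)
  have h2 := Finset.card_union_le ((Ioc X (X + Y)).filter (fun m => Small y m))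
    ((Ioc X (X + Y)).filter (fun m => Small y (m + g)))
  have h3 := card_shift (Small y) X Y g
  omega

open Classical in
lemma A3_upper (X Y y i g : ℕ) :
    ((Ioc X (X + Y)).filter (fun m => Cyc m ∧ Cyc (m + i) ∧ Cyc (m + g))).card
      ≤ ((Ioc X (X + Y)).filter (fun m => GoodS (Pat3 i g) (pr y) m)).card
        + (((Ioc X (X + Y)).filter (fun m => Small y m)).card
          + ((((Ioc X (X + Y)).filter (fun m => Small y m)).card + i)
          + (((Ioc X (X + Y)).filter (fun m => Small y m)).card + g))) := by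
  have hsub : (Ioc X (X + Y)).filter (fun m => Cyc m ∧ Cyc (m + i) ∧ Cyc (m + g))
      ⊆ (Ioc X (X + Y)).filter (fun m => GoodS (Pat3 i g) (pr y) m) ∪
        ((Ioc X (X + Y)).filter (fun m => Small y m) ∪
          ((Ioc X (X + Y)).filter (fun m => Small y (m + i)) ∪
          (Ioc X (X + Y)).filter (fun m => Small y (m + g)))) := by
    intro m hm
    rw [mem_filter] at hm
    simp only [mem_union, mem_filter]
    obtain ⟨hI, h0, hi, hg⟩ := hm
    rcases cyc_cases (y := y) h0 with h1 | h1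
    · right; left; exact ⟨hI, h1⟩
    rcases cyc_cases (y := y) hi with h2 | h2
    · right; right; left; exact ⟨hI, h2⟩
    rcases cyc_cases (y := y) hg with h3 | h3
    · right; right; right; exact ⟨hI, h3⟩
    left
    refine ⟨hI, ?_⟩
    intro l hl h hh
    rw [mem_pr] at hl
    unfold Pat3 at hh
    simp only [mem_insert, mem_singleton] at hh
    rcases hh with rfl | rfl | rfl
    · exact h1 l hl.1 hl.2
    · exact h2 l hl.1 hl.2
    · exact h3 l hl.1 hl.2
  have h1 := (Finset.card_le_card hsub).trans (Finset.card_union_le _ _)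
  have h2 := Finset.card_union_le ((Ioc X (X + Y)).filter (fun m => Small y m))
    ((Ioc X (X + Y)).filter (fun m => Small y (m + i)) ∪
      (Ioc X (X + Y)).filter (fun m => Small y (m + g)))
  have h3 := Finset.card_union_le ((Ioc X (X + Y)).filter (fun m => Small y (m + i)))
    ((Ioc X (X + Y)).filter (fun m => Small y (m + g)))
  have h4 := card_shift (Small y) X Y g
  have h5 := card_shift (Small y) X Y i
  omega

open Classical in
lemma A2_lower (X Y y g : ℕ) :
    ((Ioc X (X + Y)).filter (fun m => GoodS (Pat g) (pr y) m)).card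
      ≤ ((Ioc X (X + Y)).filter (fun m => Cyc m ∧ Cyc (m + g))).card
        + (((Ioc X (X + Y)).filter (fun m => Bad y m)).card
          + (((Ioc X (X + Y)).filter (fun m => Bad y m)).card + g)) := by
  have hsub : (Ioc X (X + Y)).filter (fun m => GoodS (Pat g) (pr y) m)
      ⊆ (Ioc X (X + Y)).filter (fun m => Cyc m ∧ Cyc (m + g)) ∪
        ((Ioc X (X + Y)).filter (fun m => Bad y m) ∪
          (Ioc X (X + Y)).filter (fun m => Bad y (m + g))) := by
    intro m hm
    rw [mem_filter] at hm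
    simp only [mem_union, mem_filter]
    obtain ⟨hI, hG⟩ := hm
    have h0 : ∀ p ≤ y, p.Prime → ¬ p ∣ m := by
      intro p hp hpp
      have := hG p (mem_pr.2 ⟨hp, hpp⟩) 0 (by unfold Pat; simp)
      rwa [add_zero] at this
    have hg : ∀ p ≤ y, p.Prime → ¬ p ∣ m + g := by
      intro p hp hpp
      exact hG p (mem_pr.2 ⟨hp, hpp⟩) g (by unfold Pat; simp)
    by_cases h1 : Cyc m
    · by_cases h2 : Cyc (m + g)
      · left; exact ⟨hI, h1, h2⟩
      · right; right; exact ⟨hI, h2, hg⟩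
    · right; left; exact ⟨hI, h1, h0⟩
  have h1 := (Finset.card_le_card hsub).trans (Finset.card_union_le _ _)
  have h2 := Finset.card_union_le ((Ioc X (X + Y)).filter (fun m => Bad y m))
    ((Ioc X (X + Y)).filter (fun m => Bad y (m + g)))
  have h3 := card_shift (Bad y) X Y g
  omega

/-- the `j`-th cyclic number, `j = 0, 1, 2, …` -/
noncomputable def cyc (j : ℕ) : ℕ := Nat.nth Cyc j

/-- number of consecutive cyclic pairs with gap `g` strictly between `n³` and `(n+1)³` -/
noncomputable def T (g n : ℕ) : ℕ :=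
  Set.ncard {j : ℕ | n ^ 3 < cyc j ∧ cyc (j + 1) < (n + 1) ^ 3 ∧ cyc (j + 1) = cyc j + g}

lemma prime_cyc {p : ℕ} (hp : p.Prime) : Cyc p := by
  refine ⟨hp.pos, ?_⟩
  rw [Nat.totient_prime hp]
  have h1 := hp.one_lt
  exact (Nat.Prime.coprime_iff_not_dvd hp).2 (Nat.not_dvd_of_pos_of_lt (by omega) (by omega))

lemma cyc_infinite : (Set.ofPred Cyc).Infinite :=
  Nat.infinite_setOfPred_prime.mono fun _ hp => prime_cyc hp

lemma cyc_strictMono : StrictMono cyc := Nat.nth_strictMono cyc_infinite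

lemma cyc_mem (j : ℕ) : Cyc (cyc j) := Nat.nth_mem_of_infinite cyc_infinite j

lemma Tset_finite (g n : ℕ) :
    {j : ℕ | n ^ 3 < cyc j ∧ cyc (j + 1) < (n + 1) ^ 3 ∧ cyc (j + 1) = cyc j + g}.Finite := by
  apply Set.Finite.subset (Set.finite_lt_nat ((n + 1) ^ 3))
  rintro j ⟨-, h2, -⟩
  have h3 : j ≤ cyc j := cyc_strictMono.le_apply
  have h4 : cyc j < cyc (j + 1) := cyc_strictMono (Nat.lt_succ_self j)
  show j < (n + 1) ^ 3
  omega

open Classical in
/-- next cyclic number -/
lemma cyc_count_succ {m g : ℕ} (hg : 0 < g) (hm : Cyc m) (hmg : Cyc (m + g))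
    (hno : ∀ i, 0 < i → i < g → ¬ Cyc (m + i)) :
    cyc (Nat.count Cyc m) = m ∧ cyc (Nat.count Cyc m + 1) = m + g := by
  refine ⟨Nat.nth_count hm, ?_⟩
  have h1 : Nat.count Cyc (m + g) = Nat.count Cyc m + 1 := by
    rw [Nat.count_add, Nat.count_eq_card_filter_range (fun k => Cyc (m + k))]
    congr 1
    rw [Finset.card_eq_one]
    refine ⟨0, ?_⟩
    ext i
    simp only [mem_filter, mem_range, mem_singleton]
    constructor
    · rintro ⟨h2, h3⟩
      by_contra h4
      exact hno i (by omega) h2 h3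
    · rintro rfl
      exact ⟨hg, by rwa [add_zero]⟩
  rw [← h1]
  exact Nat.nth_count hmg

/-- length of the cubic interval -/
lemma cube_succ (n : ℕ) : (n + 1) ^ 3 = n ^ 3 + (3 * n ^ 2 + 3 * n + 1) := by ring

open Classical in
lemma T_le (g n : ℕ) :
    T g n ≤ ((Ioc (n ^ 3) (n ^ 3 + (3 * n ^ 2 + 3 * n + 1))).filter
      (fun m => Cyc m ∧ Cyc (m + g))).card := by
  unfold T
  rw [← Set.ncard_coe_finset]
  apply Set.ncard_le_ncard_of_injOn cyc _ _ (Finset.finite_toSet _)
  · rintro j ⟨h1, h2, h3⟩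
    rw [mem_coe, mem_filter, mem_Ioc, ← cube_succ]
    have h4 : cyc j < cyc (j + 1) := cyc_strictMono (Nat.lt_succ_self j)
    exact ⟨⟨h1, by omega⟩, cyc_mem j, h3 ▸ cyc_mem (j + 1)⟩
  · exact cyc_strictMono.injective.injOn

open Classical in
lemma le_T (g n : ℕ) (hg : 0 < g) :
    ((Ioc (n ^ 3) (n ^ 3 + (3 * n ^ 2 + 3 * n + 1))).filter
      (fun m => Cyc m ∧ Cyc (m + g))).card
      ≤ T g n + (∑ i ∈ Ioo 0 g, ((Ioc (n ^ 3) (n ^ 3 + (3 * n ^ 2 + 3 * n + 1))).filter
      (fun m => Cyc m ∧ Cyc (m + i) ∧ Cyc (m + g))).card + (g + 1)) := by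
  set I := Ioc (n ^ 3) (n ^ 3 + (3 * n ^ 2 + 3 * n + 1)) with hI
  set A' := (I.filter (fun m => Cyc m ∧ Cyc (m + g))).filter
    (fun m => m + g < (n + 1) ^ 3 ∧ ∀ i, 0 < i → i < g → ¬ Cyc (m + i)) with hA'
  have hsub : I.filter (fun m => Cyc m ∧ Cyc (m + g)) ⊆ A' ∪
      ((Ioo 0 g).biUnion (fun i => I.filter (fun m => Cyc m ∧ Cyc (m + i) ∧ Cyc (m + g))) ∪
        Icc ((n + 1) ^ 3 - g) ((n + 1) ^ 3)) := by
    intro m hm
    simp only [mem_union]
    by_cases h1 : m + g < (n + 1) ^ 3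
    · by_cases h2 : ∀ i, 0 < i → i < g → ¬ Cyc (m + i)
      · left
        rw [hA', mem_filter]
        exact ⟨hm, h1, h2⟩
      · right; left
        push Not at h2
        obtain ⟨i, hi0, hig, hi⟩ := h2
        rw [mem_filter] at hm
        rw [mem_biUnion]
        exact ⟨i, mem_Ioo.2 ⟨hi0, hig⟩, mem_filter.2 ⟨hm.1, hm.2.1, hi, hm.2.2⟩⟩
    · right; right
      rw [mem_filter, hI, mem_Ioc, ← cube_succ] at hm
      rw [mem_Icc]
      omega
  have h1 := (Finset.card_le_card hsub).trans (Finset.card_union_le _ _)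
  have h2 := Finset.card_union_le
    ((Ioo 0 g).biUnion (fun i => I.filter (fun m => Cyc m ∧ Cyc (m + i) ∧ Cyc (m + g))))
    (Icc ((n + 1) ^ 3 - g) ((n + 1) ^ 3))
  have h3 := Finset.card_biUnion_le (s := Ioo 0 g)
    (t := fun i => I.filter (fun m => Cyc m ∧ Cyc (m + i) ∧ Cyc (m + g)))
  have h4 : (Icc ((n + 1) ^ 3 - g) ((n + 1) ^ 3)).card ≤ g + 1 := by
    rw [Nat.card_Icc]; omega
  have h5 : A'.card ≤ T g n := by
    unfold T
    rw [← Set.ncard_coe_finset]
    apply Set.ncard_le_ncard_of_injOn (Nat.count Cyc) _ _ (Tset_finite g n)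
    · intro m hm
      rw [mem_coe, hA', mem_filter, mem_filter, hI, mem_Ioc] at hm
      obtain ⟨⟨⟨h6, h7⟩, h8, h9⟩, h10, h11⟩ := hm
      obtain ⟨e1, e2⟩ := cyc_count_succ hg h8 h9 h11
      show n ^ 3 < cyc (Nat.count Cyc m) ∧ cyc (Nat.count Cyc m + 1) < (n + 1) ^ 3 ∧
        cyc (Nat.count Cyc m + 1) = cyc (Nat.count Cyc m) + g
      rw [e1, e2]
      exact ⟨h6, h10, rfl⟩
    · intro m hm m' hm' hmm
      rw [mem_coe, hA', mem_filter, mem_filter] at hm hm'
      have e1 := Nat.nth_count hm.1.2.1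
      have e2 := Nat.nth_count hm'.1.2.1
      rw [← e1, ← e2, hmm]
  omega

end Pool.Agent.Cyclic
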