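import Mathlib
import Pool.Agent.Cyclic.Asym3
import Pool.Agent.Cyclic.Count

set_option autoImplicit false

namespace Pool.Agent.Cyclic

open Finset Filter Topology

open Classical in
lemma Big.N1' {n : ℕ} (h : Big n) :
    (((Ioc (n ^ 3) (n ^ 3 + HH n)).filter (fun m => Small (Y1 n) m)).card : ℝ)
      ≤ 200 * HH n * eps n := by
  refine le_trans ?_ h.N1
  have : (Ioc (n ^ 3) (n ^ 3 + HH n)).filter (fun m => Small (Y1 n) m)
      ⊆ (Ioc (n ^ 3) (n ^ 3 + HH n)).filter (fun m => Cyc m ∧ ∃ p ≤ Y1 n, p.Prime ∧ p ∣ m) := by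
    intro m hm
    rw [mem_filter] at hm ⊢
    exact hm
  exact_mod_cast Finset.card_le_card this

open Classical in
lemma Big.N2' {n : ℕ} (h : Big n) :
    (((Ioc (n ^ 3) (n ^ 3 + HH n)).filter (fun m => Bad (Y2 n) m)).card : ℝ)
      ≤ 2000 * HH n * eps n := by
  refine le_trans ?_ h.N2
  have : (Ioc (n ^ 3) (n ^ 3 + HH n)).filter (fun m => Bad (Y2 n) m)
      ⊆ (Ioc (n ^ 3) (n ^ 3 + HH n)).filter
        (fun m => ¬ Cyc m ∧ ∀ p ≤ Y2 n, p.Prime → ¬ p ∣ m) := by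
    intro m hm
    rw [mem_filter] at hm ⊢
    exact hm
  exact_mod_cast Finset.card_le_card this

lemma Big.upper {n : ℕ} (h : Big n) (g : ℕ) (hg6 : g ≤ 6) :
    (T g n : ℝ) ≤ HH n * del (Pat g) (Y1 n) + 402 * (HH n * eps n) := by
  classical
  have h1 := (T_le g n).trans (A2_upper (n ^ 3) (3 * n ^ 2 + 3 * n + 1) (Y1 n) g)
  have h2 := (abs_le.1 (count_good (Pat g) (Y1 n) (n ^ 3) (HH n))).2
  have h3 := h.N1
  have h4 := h.four_pow_Y1
  have h5 := h.Heps_ge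
  have h1' : (T g n : ℝ) ≤ (((Ioc (n ^ 3) (n ^ 3 + HH n)).filter
        (fun m => GoodS (Pat g) (pr (Y1 n)) m)).card : ℝ)
      + ((((Ioc (n ^ 3) (n ^ 3 + HH n)).filter (fun m => Small (Y1 n) m)).card : ℝ)
        + ((((Ioc (n ^ 3) (n ^ 3 + HH n)).filter (fun m => Small (Y1 n) m)).card : ℝ) + g)) := by
    exact_mod_cast h1
  have h3' : (((Ioc (n ^ 3) (n ^ 3 + HH n)).filter (fun m => Small (Y1 n) m)).card : ℝ)
      ≤ 200 * HH n * eps n := h.N1'
  have hg : (g : ℝ) ≤ 6 := by exact_mod_cast hg6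
  linarith

lemma Big.lower {n : ℕ} (h : Big n) (g : ℕ) (hg2 : 2 ∣ g) (hg0 : 0 < g) (hg6 : g ≤ 6) :
    HH n * del (Pat g) (Y2 n) - 10000 * (HH n * eps n)
      - 5 * (HH n * (del (Pat g) (Y1 n) * psi (Y1 n))) ≤ (T g n : ℝ) := by
  classical
  have h1 := (A2_lower (n ^ 3) (3 * n ^ 2 + 3 * n + 1) (Y2 n) g)
  have h1b := le_T g n hg0
  have h2 := (abs_le.1 (count_good (Pat g) (Y2 n) (n ^ 3) (HH n))).1
  have h3 := h.N2
  have h3b := h.N1
  have h4 := h.four_pow_Y2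
  have h4b := h.four_pow_Y1
  have h5 := h.Heps_ge
  have h6 : ∀ i ∈ Ioo 0 g, (((Ioc (n ^ 3) (n ^ 3 + HH n)).filter
      (fun m => Cyc m ∧ Cyc (m + i) ∧ Cyc (m + g))).card : ℝ)
      ≤ HH n * (del (Pat g) (Y1 n) * psi (Y1 n)) + 602 * (HH n * eps n) := by
    intro i hi
    rw [mem_Ioo] at hi
    have e1 := A3_upper (n ^ 3) (HH n) (Y1 n) i g
    have e2 := (abs_le.1 (count_good (Pat3 i g) (Y1 n) (n ^ 3) (HH n))).2
    have e3 := del_triple hg2 hi.1 hi.2 hg6 (Y1 n)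
    have e4 : (HH n : ℝ) * del (Pat3 i g) (Y1 n) ≤ HH n * (del (Pat g) (Y1 n) * psi (Y1 n)) :=
      mul_le_mul_of_nonneg_left e3 h.HH_pos.le
    have e5 : (((Ioc (n ^ 3) (n ^ 3 + HH n)).filter
      (fun m => Cyc m ∧ Cyc (m + i) ∧ Cyc (m + g))).card : ℝ)
      ≤ (((Ioc (n ^ 3) (n ^ 3 + HH n)).filter (fun m => GoodS (Pat3 i g) (pr (Y1 n)) m)).card : ℝ)
        + ((((Ioc (n ^ 3) (n ^ 3 + HH n)).filter (fun m => Small (Y1 n) m)).card : ℝ)
        + (((((Ioc (n ^ 3) (n ^ 3 + HH n)).filter (fun m => Small (Y1 n) m)).card : ℝ) + i)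
        + ((((Ioc (n ^ 3) (n ^ 3 + HH n)).filter (fun m => Small (Y1 n) m)).card : ℝ) + g))) := by
      exact_mod_cast e1
    have e6 : (((Ioc (n ^ 3) (n ^ 3 + HH n)).filter (fun m => Small (Y1 n) m)).card : ℝ)
      ≤ 200 * HH n * eps n := h.N1'
    have hg : (g : ℝ) ≤ 6 := by exact_mod_cast hg6
    have hi' : (i : ℝ) ≤ 6 := by
      have : i ≤ 6 := by omega
      exact_mod_cast this
    linarith
  have h7 := Finset.sum_le_card_nsmul _ _ _ h6
  have h8 : ((Ioo 0 g).card : ℝ) ≤ 5 := by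
    have : (Ioo 0 g).card ≤ 5 := by rw [Nat.card_Ioo]; omega
    exact_mod_cast this
  rw [nsmul_eq_mul] at h7
  have hpsi : 0 ≤ psi (Y1 n) := (Real.exp_pos _).le
  have h9 : 0 ≤ HH n * (del (Pat g) (Y1 n) * psi (Y1 n)) + 602 * (HH n * eps n) := by
    have := h.HH_pos
    have := del_pos g (Y1 n) hg2
    have := eps_pos n
    positivity
  have h10 : ((Ioo 0 g).card : ℝ) * (HH n * (del (Pat g) (Y1 n) * psi (Y1 n)) + 602 * (HH n * eps n))
      ≤ 5 * (HH n * (del (Pat g) (Y1 n) * psi (Y1 n)) + 602 * (HH n * eps n)) :=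
    mul_le_mul_of_nonneg_right h8 h9
  have h11 : (((Ioc (n ^ 3) (n ^ 3 + HH n)).filter
        (fun m => GoodS (Pat g) (pr (Y2 n)) m)).card : ℝ)
      ≤ (((Ioc (n ^ 3) (n ^ 3 + HH n)).filter (fun m => Cyc m ∧ Cyc (m + g))).card : ℝ)
      + ((((Ioc (n ^ 3) (n ^ 3 + HH n)).filter (fun m => Bad (Y2 n) m)).card : ℝ)
        + ((((Ioc (n ^ 3) (n ^ 3 + HH n)).filter (fun m => Bad (Y2 n) m)).card : ℝ) + g)) := by
    exact_mod_cast h1
  have h12 : (((Ioc (n ^ 3) (n ^ 3 + HH n)).filter (fun m => Bad (Y2 n) m)).card : ℝ)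
      ≤ 2000 * HH n * eps n := h.N2'
  have h13 : (((Ioc (n ^ 3) (n ^ 3 + HH n)).filter (fun m => Cyc m ∧ Cyc (m + g))).card : ℝ)
      ≤ (T g n : ℝ) + (∑ i ∈ Ioo 0 g, (((Ioc (n ^ 3) (n ^ 3 + HH n)).filter
      (fun m => Cyc m ∧ Cyc (m + i) ∧ Cyc (m + g))).card : ℝ) + (g + 1)) := by
    exact_mod_cast h1b
  have hg : (g : ℝ) ≤ 6 := by exact_mod_cast hg6
  linarith

/-- the main term -/
noncomputable def mainT (g n : ℕ) : ℝ := HH n * del (Pat g) (Yc n)

lemma mainT_pos (g n : ℕ) (hg : 2 ∣ g) : 0 < mainT g n := by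
  unfold mainT HH
  have := del_pos g (Yc n) hg
  positivity

theorem T_asymp (g : ℕ) (hg2 : 2 ∣ g) (hg0 : 0 < g) (hg6 : g ≤ 6) :
    Tendsto (fun n => (T g n : ℝ) / mainT g n) atTop (𝓝 1) := by
  have u : Tendsto (fun n => del (Pat g) (Y1 n) / del (Pat g) (Yc n)
      + 402 * (eps n / del (Pat g) (Yc n))) atTop (𝓝 (1 + 402 * 0)) :=
    (t_r1 g hg2).add ((t_eps_div g hg2).const_mul 402)
  have l : Tendsto (fun n => del (Pat g) (Y2 n) / del (Pat g) (Yc n)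
      - 10000 * (eps n / del (Pat g) (Yc n))
      - 5 * (del (Pat g) (Y1 n) / del (Pat g) (Yc n) * psi (Y1 n))) atTop
      (𝓝 (1 - 10000 * 0 - 5 * (1 * 0))) :=
    ((t_r2 g hg2).sub ((t_eps_div g hg2).const_mul 10000)).sub
      (((t_r1 g hg2).mul t_psi).const_mul 5)
  rw [show (1 : ℝ) + 402 * 0 = 1 by norm_num] at u
  rw [show (1 : ℝ) - 10000 * 0 - 5 * (1 * 0) = 1 by norm_num] at l
  refine tendsto_of_tendsto_of_tendsto_of_le_of_le' l u ?_ ?_
  · filter_upwards [eventually_big] with n h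
    have h1 := h.lower g hg2 hg0 hg6
    have hd := del_pos g (Yc n) hg2
    have hH := h.HH_pos
    unfold mainT
    rw [le_div_iff₀ (by positivity)]
    refine le_trans (le_of_eq ?_) h1
    field_simp
  · filter_upwards [eventually_big] with n h
    have h1 := h.upper g hg6
    have hd := del_pos g (Yc n) hg2
    have hH := h.HH_pos
    unfold mainT
    rw [div_le_iff₀ (by positivity)]
    refine h1.trans (le_of_eq ?_)
    field_simp

/-- local stability of the density -/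
lemma del_close (g : ℕ) (hg : 2 ∣ g) {y y' : ℕ} (hy : 1 ≤ y) (h : y ≤ y') (h' : y' ≤ y + 1) :
    Real.exp (-(4 / (y : ℝ))) ≤ del (Pat g) y' / del (Pat g) y := by
  have hd := del_pos g y hg
  have hy0 : (0 : ℝ) < y := by exact_mod_cast hy
  rw [le_div_iff₀ hd]
  have h3 := prod_exp_le g hg (pr y' \ pr y) (fun l hl => (mem_pr.1 (Finset.mem_sdiff.1 hl).1).2)
  have h4 : del (Pat g) y' = (∏ l ∈ pr y' \ pr y, (1 - (nu (Pat g) l : ℝ) / l)) * del (Pat g) y := by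
    unfold del
    rw [Finset.prod_sdiff (pr_mono h)]
  rw [h4]
  apply mul_le_mul_of_nonneg_right _ hd.le
  refine le_trans (Real.exp_le_exp.2 ?_) h3
  have h5 : ∑ l ∈ pr y' \ pr y, 1 / (l : ℝ) ≤ 1 / y := by
    have h6 : pr y' \ pr y ⊆ {y + 1} := by
      intro l hl
      rw [Finset.mem_sdiff, mem_pr, mem_pr] at hl
      rw [mem_singleton]
      obtain ⟨⟨h7, h8⟩, h9⟩ := hl
      have h10 : ¬ l ≤ y := fun h11 => h9 ⟨h11, h8⟩
      omega
    refine (Finset.sum_le_sum_of_subset_of_nonneg h6 (fun _ _ _ => by positivity)).trans ?_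
    rw [Finset.sum_singleton]
    apply one_div_le_one_div_of_le hy0
    push_cast
    linarith
  have h6 : 4 / (y : ℝ) = 4 * (1 / y) := by ring
  rw [h6]
  linarith

lemma t_Yc : Tendsto Yc atTop atTop := tendsto_nat_floor_atTop.comp t_Lr

lemma t_floor {t : ℝ} (ht : 0 < t) : Tendsto (fun n : ℕ => ⌊t * n⌋₊) atTop atTop := by
  apply tendsto_nat_floor_atTop.comp
  exact Tendsto.const_mul_atTop ht tendsto_natCast_atTop_atTop

lemma t_floor_div {t : ℝ} (ht : 0 < t) :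
    Tendsto (fun n : ℕ => (⌊t * n⌋₊ : ℝ) / n) atTop (𝓝 t) := by
  have := (tendsto_nat_floor_mul_div_atTop (R := ℝ) ht.le).comp
    (tendsto_natCast_atTop_atTop (R := ℝ))
  exact this

lemma t_HH : Tendsto (fun n : ℕ => (HH n : ℝ) / (n : ℝ) ^ 2) atTop (𝓝 3) := by
  have h1 : Tendsto (fun n : ℕ => (3 : ℝ) + 3 / (n : ℝ) + (1 / (n : ℝ)) ^ 2) atTop
      (𝓝 (3 + 0 + 0 ^ 2)) := by
    apply Tendsto.add
    · exact tendsto_const_nhds.add (tendsto_const_div_atTop_nhds_zero_nat 3)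
    · exact (tendsto_const_div_atTop_nhds_zero_nat 1).pow 2
  rw [show (3 : ℝ) + 0 + 0 ^ 2 = 3 by norm_num] at h1
  refine h1.congr' ?_
  filter_upwards [eventually_ge_atTop 1] with n hn
  have : (0 : ℝ) < n := by exact_mod_cast hn
  unfold HH
  push_cast
  field_simp

lemma t_HH_ratio {t : ℝ} (ht : 0 < t) :
    Tendsto (fun n : ℕ => (HH ⌊t * n⌋₊ : ℝ) / HH n) atTop (𝓝 (t ^ (2 : ℝ))) := by
  have h1 := t_HH.comp (t_floor ht)
  have h2 := (t_floor_div ht).pow 2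
  have h3 := t_HH
  have h4 := (h1.mul h2).div h3 (by norm_num)
  rw [show 3 * t ^ 2 / 3 = t ^ (2 : ℝ) by
    rw [show (2 : ℝ) = ((2 : ℕ) : ℝ) by norm_num, Real.rpow_natCast]; ring] at h4
  refine h4.congr' ?_
  filter_upwards [eventually_ge_atTop 1, (t_floor ht).eventually_ge_atTop 1] with n hn hf
  have a1 : (0 : ℝ) < n := by exact_mod_cast hn
  have a2 : (0 : ℝ) < (⌊t * n⌋₊ : ℝ) := by exact_mod_cast hf
  have a3 : (0 : ℝ) < HH n := by
    have : 0 < HH n := by unfold HH; omega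
    exact_mod_cast this
  simp only [Function.comp, Pi.div_apply]
  field_simp

lemma t_Lr_diff {t : ℝ} (ht : 0 < t) :
    Tendsto (fun n : ℕ => Lr ⌊t * n⌋₊ - Lr n) atTop (𝓝 0) := by
  have h1 : Tendsto (fun n : ℕ => Real.log ((⌊t * n⌋₊ : ℝ) / n)) atTop (𝓝 (Real.log t)) :=
    (Real.continuousAt_log ht.ne').tendsto.comp (t_floor_div ht)
  have h2 : Tendsto (fun n : ℕ => 1 + Real.log ((⌊t * n⌋₊ : ℝ) / n) / Real.log n) atTop
      (𝓝 (1 + 0)) := tendsto_const_nhds.add (h1.div_atTop t_log)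
  rw [add_zero] at h2
  have h3 := (Real.continuousAt_log (one_ne_zero)).tendsto.comp h2
  rw [Real.log_one] at h3
  refine h3.congr' ?_
  filter_upwards [eventually_ge_atTop 1, (t_floor ht).eventually_ge_atTop 1,
    t_log.eventually_ge_atTop 1, (t_log.comp (t_floor ht)).eventually_ge_atTop 1]
    with n hn hf hl hl2
  simp only [Function.comp] at hl2 ⊢
  have a1 : (0 : ℝ) < n := by exact_mod_cast hn
  have a2 : (0 : ℝ) < (⌊t * n⌋₊ : ℝ) := by exact_mod_cast hf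
  rw [Real.log_div a2.ne' a1.ne']
  have h4 : 1 + (Real.log (⌊t * n⌋₊ : ℝ) - Real.log n) / Real.log n
      = Real.log (⌊t * n⌋₊ : ℝ) / Real.log n := by
    field_simp
    ring
  rw [h4, Real.log_div (by linarith) (by linarith)]
  rfl

lemma t_del_ratio (g : ℕ) (hg : 2 ∣ g) {t : ℝ} (ht : 0 < t) :
    Tendsto (fun n : ℕ => del (Pat g) (Yc ⌊t * n⌋₊) / del (Pat g) (Yc n)) atTop (𝓝 1) := by
  have hmin : Tendsto (fun n : ℕ => min (Yc n) (Yc ⌊t * n⌋₊)) atTop atTop :=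
    tendsto_atTop.2 fun b => by
      filter_upwards [t_Yc.eventually_ge_atTop b, (t_Yc.comp (t_floor ht)).eventually_ge_atTop b]
        with n h1 h2
      exact le_min h1 h2
  have h0 : Tendsto (fun n : ℕ => 4 / ((min (Yc n) (Yc ⌊t * n⌋₊) : ℕ) : ℝ)) atTop (𝓝 0) :=
    (tendsto_natCast_atTop_atTop.comp hmin).const_div_atTop 4
  have hl : Tendsto (fun n : ℕ => Real.exp (-(4 / ((min (Yc n) (Yc ⌊t * n⌋₊) : ℕ) : ℝ)))) atTop
      (𝓝 1) := by
    have := (Real.continuous_exp.tendsto _).comp h0.neg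
    rw [neg_zero, Real.exp_zero] at this
    exact this
  have hu : Tendsto (fun n : ℕ => Real.exp (4 / ((min (Yc n) (Yc ⌊t * n⌋₊) : ℕ) : ℝ))) atTop
      (𝓝 1) := by
    have := (Real.continuous_exp.tendsto _).comp h0
    rw [Real.exp_zero] at this
    exact this
  have hev : ∀ᶠ n : ℕ in atTop,
      Real.exp (-(4 / ((min (Yc n) (Yc ⌊t * n⌋₊) : ℕ) : ℝ)))
        ≤ del (Pat g) (Yc ⌊t * n⌋₊) / del (Pat g) (Yc n) ∧
      del (Pat g) (Yc ⌊t * n⌋₊) / del (Pat g) (Yc n)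
        ≤ Real.exp (4 / ((min (Yc n) (Yc ⌊t * n⌋₊) : ℕ) : ℝ)) := by
    have hd1 := (t_Lr_diff ht).eventually_lt_const (show (0 : ℝ) < 1 by norm_num)
    have hd2 := (t_Lr_diff ht).eventually_const_lt (show (-1 : ℝ) < 0 by norm_num)
    filter_upwards [hd1, hd2, t_Lr.eventually_ge_atTop 2,
      (t_Lr.comp (t_floor ht)).eventually_ge_atTop 2, hmin.eventually_ge_atTop 1]
      with n b1 b2 b3 b4 b5
    simp only [Function.comp] at b4
    set u := Lr n with hu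
    set v := Lr ⌊t * n⌋₊ with hv
    have c1 : Yc n = ⌊u⌋₊ := rfl
    have c2 : Yc ⌊t * n⌋₊ = ⌊v⌋₊ := rfl
    have d1 := Nat.floor_le (show 0 ≤ u by linarith)
    have d2 := Nat.lt_floor_add_one u
    have d3 := Nat.floor_le (show 0 ≤ v by linarith)
    have d4 := Nat.lt_floor_add_one v
    rw [← c1] at d1 d2
    rw [← c2] at d3 d4
    have e1 : Yc n ≤ Yc ⌊t * n⌋₊ + 1 := by
      by_contra hc
      push Not at hc
      have : (Yc ⌊t * n⌋₊ : ℝ) + 2 ≤ Yc n := by exact_mod_cast hc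
      linarith
    have e2 : Yc ⌊t * n⌋₊ ≤ Yc n + 1 := by
      by_contra hc
      push Not at hc
      have : (Yc n : ℝ) + 2 ≤ Yc ⌊t * n⌋₊ := by exact_mod_cast hc
      linarith
    have p1 := del_pos g (Yc n) hg
    have p2 := del_pos g (Yc ⌊t * n⌋₊) hg
    rcases le_total (Yc n) (Yc ⌊t * n⌋₊) with hc | hc
    · rw [min_eq_left hc] at b5 ⊢
      refine ⟨del_close g hg b5 hc e2, ?_⟩
      have f1 : del (Pat g) (Yc ⌊t * n⌋₊) / del (Pat g) (Yc n) ≤ 1 := by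
        rw [div_le_one p1]
        exact del_anti g hg hc
      exact f1.trans (Real.one_le_exp (by positivity))
    · rw [min_eq_right hc] at b5 ⊢
      have f1 := del_close g hg b5 hc e1
      constructor
      · have f2 : 1 ≤ del (Pat g) (Yc ⌊t * n⌋₊) / del (Pat g) (Yc n) := by
          rw [one_le_div p1]
          exact del_anti g hg hc
        refine le_trans ?_ f2
        apply Real.exp_le_one_iff.2
        have : 0 ≤ 4 / ((Yc ⌊t * n⌋₊ : ℕ) : ℝ) := by positivity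
        linarith
      · rw [Real.exp_neg] at f1
        have f2 := inv_anti₀ (by positivity) f1
        rw [inv_inv, inv_div] at f2
        exact f2
  refine tendsto_of_tendsto_of_tendsto_of_le_of_le' hl hu ?_ ?_
  · filter_upwards [hev] with n hn using hn.1
  · filter_upwards [hev] with n hn using hn.2

theorem mainT_regular (g : ℕ) (hg : 2 ∣ g) {t : ℝ} (ht : 0 < t) :
    Tendsto (fun n : ℕ => mainT g ⌊t * n⌋₊ / mainT g n) atTop (𝓝 (t ^ (2 : ℝ))) := by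
  have h := (t_HH_ratio ht).mul (t_del_ratio g hg ht)
  rw [mul_one] at h
  refine h.congr ?_
  intro n
  unfold mainT
  rw [div_mul_div_comm]

end Pool.Agent.Cyclic
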